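import Mathlib

set_option autoImplicit false

namespace Pool.Agent.Helper403

open Finset

theorem sum_le_sum_of_cover {α β : Type*} (s : Finset β) (t : Finset α) (Φ : α → β)
    (g : β → ℝ) (hg : ∀ b, 0 ≤ g b) (h : ∀ b ∈ s, ∃ a ∈ t, Φ a = b) :
    ∑ b ∈ s, g b ≤ ∑ a ∈ t, g (Φ a) := by
  classical
  have hsub : s ⊆ t.image Φ := by
    intro b hb
    obtain ⟨a, ha, hab⟩ := h b hb
    exact Finset.mem_image.mpr ⟨a, ha, hab⟩
  calc ∑ b ∈ s, g b ≤ ∑ b ∈ t.image Φ, g b :=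
        Finset.sum_le_sum_of_subset_of_nonneg hsub (fun b _ _ => hg b)
    _ ≤ ∑ b ∈ t.image Φ, ∑ a ∈ t.filter (fun a => Φ a = b), g (Φ a) := by
        apply Finset.sum_le_sum
        intro b hb
        obtain ⟨a, ha, hab⟩ := Finset.mem_image.mp hb
        have : g b = g (Φ a) := by rw [hab]
        rw [this]
        exact Finset.single_le_sum (f := fun a => g (Φ a)) (fun x _ => hg _)
          (Finset.mem_filter.mpr ⟨ha, hab⟩)
    _ = ∑ a ∈ t, g (Φ a) := by
        apply Finset.sum_fiberwise_of_maps_to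
        intro a ha
        exact Finset.mem_image_of_mem _ ha

/-- product over the prime factors of a local weight -/
noncomputable def wt (f : ℕ → ℝ) (e : ℕ) : ℝ := ∏ l ∈ e.primeFactors, f l

theorem wt_nonneg {f : ℕ → ℝ} (hf : ∀ l, 0 ≤ f l) (e : ℕ) : 0 ≤ wt f e :=
  Finset.prod_nonneg (fun l _ => hf l)

theorem wt_one (f : ℕ → ℝ) : wt f 1 = 1 := by simp [wt]

theorem wt_mono {f g : ℕ → ℝ} {e : ℕ} (hf : ∀ l, 0 ≤ f l)
    (h : ∀ l ∈ e.primeFactors, f l ≤ g l) : wt f e ≤ wt g e :=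
  Finset.prod_le_prod (fun l _ => hf l) h

theorem wt_mul_fun (f g : ℕ → ℝ) (e : ℕ) : wt f e * wt g e = wt (fun l => f l * g l) e :=
  (Finset.prod_mul_distrib).symm

theorem wt_cast {e : ℕ} (he : Squarefree e) : wt (fun l => (l : ℝ)) e = e := by
  unfold wt
  rw [← Nat.cast_prod, Nat.prod_primeFactors_of_squarefree he]

theorem primeFactors_prod_id {D : Finset ℕ} (hD : ∀ l ∈ D, l.Prime) :
    (∏ l ∈ D, l).primeFactors = D := by
  exact Nat.primeFactors_prod hD

theorem squarefree_prod_primes {D : Finset ℕ} (hD : ∀ l ∈ D, l.Prime) :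
    Squarefree (∏ l ∈ D, l) := by
  refine Finset.squarefree_prod_of_pairwise_isCoprime (fun a ha b hb hab ↦ ?_)
    fun _ hp ↦ (hD _ hp).squarefree
  simp only [← Nat.coprime_iff_isRelPrime]
  exact (Nat.coprime_primes (hD a ha) (hD b hb)).mpr hab

theorem prod_one_add_eq_sum_sqf {n : ℕ} (hn : n ≠ 0) (f : ℕ → ℝ) :
    ∏ l ∈ n.primeFactors, (1 + f l) = ∑ e ∈ n.divisors.filter Squarefree, wt f e := by
  rw [Finset.prod_one_add]
  refine Finset.sum_nbij' (fun D => ∏ l ∈ D, l) (fun e => e.primeFactors) ?_ ?_ ?_ ?_ ?_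
  · intro D hD
    rw [Finset.mem_powerset] at hD
    have hp : ∀ l ∈ D, l.Prime := fun l hl => Nat.prime_of_mem_primeFactors (hD hl)
    rw [Finset.mem_filter, Nat.mem_divisors]
    refine ⟨⟨?_, hn⟩, squarefree_prod_primes hp⟩
    exact (Finset.prod_dvd_prod_of_subset _ _ _ hD).trans (Nat.prod_primeFactors_dvd n)
  · intro e he
    rw [Finset.mem_filter, Nat.mem_divisors] at he
    rw [Finset.mem_powerset]
    exact Nat.primeFactors_mono he.1.1 hn
  · intro D hD
    rw [Finset.mem_powerset] at hD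
    exact primeFactors_prod_id (fun l hl => Nat.prime_of_mem_primeFactors (hD hl))
  · intro e he
    rw [Finset.mem_filter] at he
    exact Nat.prod_primeFactors_of_squarefree he.2
  · intro D hD
    rw [Finset.mem_powerset] at hD
    simp only [wt]
    rw [primeFactors_prod_id (fun l hl => Nat.prime_of_mem_primeFactors (hD hl))]

/-- A set of squarefree numbers whose prime factors lie in S. -/
theorem sum_wt_le_prod (A : Finset ℕ) (S : Finset ℕ) (f : ℕ → ℝ) (hf : ∀ l, 0 ≤ f l)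
    (hA : ∀ e ∈ A, Squarefree e) (hS : ∀ e ∈ A, e.primeFactors ⊆ S) :
    ∑ e ∈ A, wt f e ≤ ∏ l ∈ S, (1 + f l) := by
  classical
  rw [Finset.prod_one_add]
  have hinj : Set.InjOn (fun e : ℕ => e.primeFactors) (A : Set ℕ) := by
    intro a ha b hb hab
    simp only at hab
    rw [← Nat.prod_primeFactors_of_squarefree (hA a ha),
      ← Nat.prod_primeFactors_of_squarefree (hA b hb), hab]
  calc ∑ e ∈ A, wt f e = ∑ D ∈ A.image (fun e : ℕ => e.primeFactors), ∏ l ∈ D, f l := by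
        rw [Finset.sum_image hinj]; rfl
    _ ≤ _ := by
        apply Finset.sum_le_sum_of_subset_of_nonneg
        · intro D hD
          obtain ⟨e, he, rfl⟩ := Finset.mem_image.mp hD
          rw [Finset.mem_powerset]
          exact hS e he
        · intro D _ _
          exact Finset.prod_nonneg (fun l _ => hf l)


theorem one_le_prod_real {s : Finset ℕ} {f : ℕ → ℝ} (h : ∀ i ∈ s, 1 ≤ f i) :
    1 ≤ ∏ i ∈ s, f i := by
  calc (1 : ℝ) = ∏ i ∈ s, (1 : ℝ) := by simp
    _ ≤ _ := Finset.prod_le_prod (fun _ _ => zero_le_one) h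

/-- The product of 1 + f l over the primes dividing n. -/
noncomputable def Pf (f : ℕ → ℝ) (n : ℕ) : ℝ := ∏ l ∈ n.primeFactors, (1 + f l)

theorem one_le_Pf {f : ℕ → ℝ} (hf : ∀ l, 0 ≤ f l) (n : ℕ) : 1 ≤ Pf f n :=
  one_le_prod_real (fun l _ => by linarith [hf l])

theorem Pf_mul_le {f : ℕ → ℝ} (hf : ∀ l, 0 ≤ f l) {a b : ℕ} (ha : a ≠ 0) (hb : b ≠ 0) :
    Pf f (a * b) ≤ Pf f a * Pf f b := by
  unfold Pf
  rw [Nat.primeFactors_mul ha hb, ← Finset.prod_union_inter]
  have h1 : 1 ≤ ∏ l ∈ a.primeFactors ∩ b.primeFactors, (1 + f l) :=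
    one_le_prod_real (fun l _ => by linarith [hf l])
  have h2 : 0 ≤ ∏ l ∈ a.primeFactors ∪ b.primeFactors, (1 + f l) :=
    Finset.prod_nonneg (fun l _ => by linarith [hf l])
  nlinarith

theorem Pf_le_of_dvd {f : ℕ → ℝ} (hf : ∀ l, 0 ≤ f l) {a b : ℕ} (hb : b ≠ 0) (h : a ∣ b) :
    Pf f a ≤ Pf f b := by
  unfold Pf
  rw [← Finset.prod_sdiff (Nat.primeFactors_mono h hb)]
  have h1 : 1 ≤ ∏ l ∈ b.primeFactors \ a.primeFactors, (1 + f l) :=
    one_le_prod_real (fun l _ => by linarith [hf l])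
  have h2 : 0 ≤ ∏ l ∈ a.primeFactors, (1 + f l) :=
    Finset.prod_nonneg (fun l _ => by linarith [hf l])
  nlinarith

theorem Pf_eq_sum {f : ℕ → ℝ} {n : ℕ} (hn : n ≠ 0) :
    Pf f n = ∑ e ∈ n.divisors.filter Squarefree, wt f e := prod_one_add_eq_sum_sqf hn f

/-- The product of 1 + 1/l over the primes dividing n. -/
noncomputable def B (n : ℕ) : ℝ := Pf (fun l => 1 / (l : ℝ)) n

theorem inv_nonneg' : ∀ l : ℕ, (0 : ℝ) ≤ 1 / (l : ℝ) := fun l => by positivity

theorem one_le_B (n : ℕ) : 1 ≤ B n := one_le_Pf inv_nonneg' n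

theorem B_mul_le {a b : ℕ} (ha : a ≠ 0) (hb : b ≠ 0) : B (a * b) ≤ B a * B b :=
  Pf_mul_le inv_nonneg' ha hb

theorem B_le_of_dvd {a b : ℕ} (hb : b ≠ 0) (h : a ∣ b) : B a ≤ B b :=
  Pf_le_of_dvd inv_nonneg' hb h

theorem B_le_wt_two (n : ℕ) : B n ≤ wt (fun _ => 2) n := by
  unfold B Pf wt
  apply Finset.prod_le_prod
  · intro l _; have := inv_nonneg' l; linarith
  · intro l hl
    have h1 : (1 : ℝ) ≤ l := by exact_mod_cast (Nat.prime_of_mem_primeFactors hl).one_lt.le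
    have : 1 / (l : ℝ) ≤ 1 := by rw [div_le_one (by linarith)]; exact h1
    linarith

theorem wt_inv_of_squarefree {e : ℕ} (he : Squarefree e) :
    wt (fun l => 1 / (l : ℝ)) e = 1 / (e : ℝ) := by
  unfold wt
  rw [Finset.prod_div_distrib, Finset.prod_const_one, ← Nat.cast_prod,
    Nat.prod_primeFactors_of_squarefree he]

theorem wt_const_div_of_squarefree {e : ℕ} (he : Squarefree e) (c : ℝ) :
    wt (fun l => c / (l : ℝ)) e = wt (fun _ => c) e / (e : ℝ) := by
  unfold wt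
  rw [Finset.prod_div_distrib, ← Nat.cast_prod, Nat.prod_primeFactors_of_squarefree he]

theorem sum_inv_sq_le (y : ℕ) : ∑ f ∈ Icc 1 y, 1 / (f : ℝ) ^ 2 ≤ 2 := by
  have h : ∀ y : ℕ, ∑ f ∈ Icc 1 (y + 1), 1 / (f : ℝ) ^ 2 ≤ 2 - 1 / ((y : ℝ) + 1) := by
    intro y
    induction y with
    | zero => norm_num
    | succ y ih =>
      rw [Finset.sum_Icc_succ_top (by omega)]
      have h1 : 1 / (((y + 1 + 1 : ℕ) : ℝ)) ^ 2 ≤ 1 / ((y : ℝ) + 1) - 1 / ((y : ℝ) + 1 + 1) := by
        push_cast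
        rw [div_sub_div _ _ (by positivity) (by positivity), div_le_div_iff₀ (by positivity)
          (by positivity)]
        ring_nf
        nlinarith [(Nat.cast_nonneg y : (0 : ℝ) ≤ y)]
      push_cast at ih h1 ⊢
      linarith
  cases y with
  | zero => norm_num
  | succ y =>
    have h1 := h y
    have h2 : (0 : ℝ) ≤ 1 / ((y : ℝ) + 1) := by positivity
    linarith

theorem sum_inv_ge_log (y : ℕ) : Real.log y ≤ ∑ n ∈ Icc 1 y, 1 / (n : ℝ) := by
  rcases Nat.eq_zero_or_pos y with rfl | hy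
  · simp
  have h := log_add_one_le_harmonic y
  rw [harmonic_eq_sum_Icc] at h
  push_cast at h
  have h2 : Real.log y ≤ Real.log (y + 1) := by
    apply Real.log_le_log
    · exact_mod_cast hy
    · linarith
  simp_rw [one_div]
  linarith

theorem sum_inv_le_log (y : ℕ) : ∑ n ∈ Icc 1 y, 1 / (n : ℝ) ≤ 1 + Real.log y := by
  have h := harmonic_le_one_add_log y
  rw [harmonic_eq_sum_Icc] at h
  push_cast at h
  simp_rw [one_div]
  exact h

/-- squarefree numbers up to y coprime to E -/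
def Gset (E y : ℕ) : Finset ℕ := (Icc 1 y).filter (fun e => Squarefree e ∧ Nat.Coprime e E)

theorem G1 {E : ℕ} (hE : E ≠ 0) (y : ℕ) :
    Real.log y ≤ 2 * B E * ∑ e ∈ Gset E y, 1 / (e : ℝ) := by
  refine (sum_inv_ge_log y).trans ?_
  have hcover := sum_le_sum_of_cover (Icc 1 y)
    ((Icc 1 y) ×ˢ ((E.divisors.filter Squarefree) ×ˢ Gset E y))
    (fun x => x.1 ^ 2 * (x.2.1 * x.2.2)) (fun n => 1 / (n : ℝ)) inv_nonneg' ?_
  · refine hcover.trans ?_
    have h1 : ∀ x ∈ (Icc 1 y) ×ˢ ((E.divisors.filter Squarefree) ×ˢ Gset E y),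
        1 / ((x.1 ^ 2 * (x.2.1 * x.2.2) : ℕ) : ℝ) =
        (1 / (x.1 : ℝ) ^ 2) * ((1 / (x.2.1 : ℝ)) * (1 / (x.2.2 : ℝ))) := by
      intro x _
      push_cast
      rw [one_div_mul_one_div, one_div_mul_one_div]
    rw [Finset.sum_congr rfl h1]
    rw [Finset.sum_product]
    simp_rw [Finset.sum_product, ← Finset.mul_sum, ← Finset.sum_mul]
    have h2 : ∑ u ∈ E.divisors.filter Squarefree, 1 / (u : ℝ) = B E := by
      unfold B
      rw [Pf_eq_sum hE]
      apply Finset.sum_congr rfl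
      intro u hu
      rw [Finset.mem_filter] at hu
      exact (wt_inv_of_squarefree hu.2).symm
    rw [h2]
    have h3 : 0 ≤ ∑ e ∈ Gset E y, 1 / (e : ℝ) := Finset.sum_nonneg (fun e _ => inv_nonneg' e)
    have h4 := one_le_B E
    have h5 : 0 ≤ B E * ∑ e ∈ Gset E y, 1 / (e : ℝ) := mul_nonneg (by linarith) h3
    have h6 := sum_inv_sq_le y
    nlinarith
  · intro n hn
    rw [Finset.mem_Icc] at hn
    obtain ⟨a, b, ha, hb, hab, hsq⟩ := Nat.sq_mul_squarefree_of_pos (by omega : 0 < n)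
    have hn0 : 0 < n := by omega
    have hbn : b ≤ y := by
      have : b ∣ n := by rw [← hab]; exact Dvd.dvd.mul_right (dvd_pow_self b two_ne_zero) a
      exact (Nat.le_of_dvd hn0 this).trans hn.2
    have han : a ≤ y := by
      have : a ∣ n := by rw [← hab]; exact Dvd.intro_left _ rfl
      exact (Nat.le_of_dvd hn0 this).trans hn.2
    refine ⟨(b, (Nat.gcd a E, a / Nat.gcd a E)), ?_, ?_⟩
    · have hg0 : 0 < Nat.gcd a E := Nat.gcd_pos_of_pos_left _ ha
      have hmul : Nat.gcd a E * (a / Nat.gcd a E) = a := Nat.mul_div_cancel' (Nat.gcd_dvd_left a E)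
      have hsq' : Squarefree (Nat.gcd a E * (a / Nat.gcd a E)) := by rw [hmul]; exact hsq
      have hcop := Nat.coprime_of_squarefree_mul hsq'
      simp only [Finset.mem_product, Finset.mem_Icc, Finset.mem_filter, Nat.mem_divisors, Gset]
      refine ⟨⟨hb, hbn⟩, ⟨⟨Nat.gcd_dvd_right a E, hE⟩, hsq'.of_mul_left⟩, ⟨?_, ?_⟩,
        hsq'.of_mul_right, ?_⟩
      · exact Nat.div_pos (Nat.le_of_dvd ha (Nat.gcd_dvd_left a E)) hg0
      · exact (Nat.div_le_self _ _).trans han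
      · apply Nat.coprime_of_dvd
        intro p hp h1 h2
        have h3 : p ∣ a := h1.trans (Nat.div_dvd_of_dvd (Nat.gcd_dvd_left a E))
        have h4 : p ∣ Nat.gcd a E := Nat.dvd_gcd h3 h2
        exact hp.one_lt.ne' (Nat.eq_one_of_dvd_coprimes hcop h4 h1)
    · simp only
      rw [Nat.mul_div_cancel' (Nat.gcd_dvd_left a E), hab]


theorem card_divisors_squarefree {x : ℕ} (hx : Squarefree x) :
    (x.divisors.card : ℝ) = wt (fun _ => 2) x := by
  have h := Pf_eq_sum (f := fun _ => 1) hx.ne_zero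
  have h1 : Pf (fun _ => 1) x = wt (fun _ => 2) x := by
    unfold Pf wt
    norm_num
  have h2 : x.divisors.filter Squarefree = x.divisors := by
    apply Finset.filter_true_of_mem
    intro d hd
    exact hx.squarefree_of_dvd (Nat.dvd_of_mem_divisors hd)
  rw [← h1, h, h2]
  have h3 : ∀ e ∈ x.divisors, wt (fun _ => (1 : ℝ)) e = 1 := by
    intro e _
    simp [wt]
  rw [Finset.sum_congr rfl h3]
  simp

theorem G2 (E y : ℕ) :
    (∑ e ∈ Gset E y, 1 / (e : ℝ)) ^ 2 ≤
      2 * ∑ x ∈ Gset E (y ^ 2), wt (fun l => 2 / (l : ℝ)) x := by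
  have h0 : (∑ e ∈ Gset E y, 1 / (e : ℝ)) ^ 2 =
      ∑ x ∈ Gset E y ×ˢ Gset E y, 1 / ((x.1 : ℝ) * x.2) := by
    rw [pow_two, Finset.sum_mul_sum, Finset.sum_product]
    apply Finset.sum_congr rfl
    intro a _
    apply Finset.sum_congr rfl
    intro b _
    rw [one_div_mul_one_div]
  rw [h0]
  have hcover := sum_le_sum_of_cover (Gset E y ×ˢ Gset E y)
    ((Icc 1 y) ×ˢ ((Gset E (y ^ 2)).sigma (fun x => x.divisors)))
    (fun a : ℕ × (Σ _ : ℕ, ℕ) => (a.1 * a.2.2, a.1 * (a.2.1 / a.2.2)))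
    (fun b : ℕ × ℕ => 1 / ((b.1 : ℝ) * b.2)) (fun b => by positivity) ?_
  · refine hcover.trans ?_
    have h1 : ∀ a ∈ (Icc 1 y) ×ˢ ((Gset E (y ^ 2)).sigma (fun x => x.divisors)),
        1 / (((a.1 * a.2.2 : ℕ) : ℝ) * ((a.1 * (a.2.1 / a.2.2) : ℕ) : ℝ)) =
        (1 / (a.1 : ℝ) ^ 2) * (1 / (a.2.1 : ℝ)) := by
      rintro ⟨f, x, u⟩ ha
      simp only [Finset.mem_product, Finset.mem_sigma, Nat.mem_divisors] at ha
      simp only
      have h2 : ((f * u : ℕ) : ℝ) * ((f * (x / u) : ℕ) : ℝ) = (f : ℝ) ^ 2 * x := by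
        rw [← Nat.cast_mul]
        have : f * u * (f * (x / u)) = f ^ 2 * (u * (x / u)) := by ring
        rw [this, Nat.mul_div_cancel' ha.2.2.1]
        push_cast
        ring
      rw [h2, one_div_mul_one_div]
    rw [Finset.sum_congr rfl h1, Finset.sum_product]
    simp_rw [← Finset.mul_sum, ← Finset.sum_mul]
    have h3 : ∑ a ∈ (Gset E (y ^ 2)).sigma (fun x => x.divisors), 1 / (a.1 : ℝ) =
        ∑ x ∈ Gset E (y ^ 2), wt (fun l => 2 / (l : ℝ)) x := by
      rw [Finset.sum_sigma]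
      apply Finset.sum_congr rfl
      intro x hx
      have hsq : Squarefree x := by
        simp only [Gset, Finset.mem_filter] at hx
        exact hx.2.1
      simp only
      rw [Finset.sum_const, nsmul_eq_mul, wt_const_div_of_squarefree hsq,
        card_divisors_squarefree hsq]
      ring
    rw [h3]
    have h4 : 0 ≤ ∑ x ∈ Gset E (y ^ 2), wt (fun l => 2 / (l : ℝ)) x :=
      Finset.sum_nonneg (fun x _ => wt_nonneg (fun l => by positivity) x)
    exact mul_le_mul_of_nonneg_right (sum_inv_sq_le y) h4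
  · rintro ⟨a, b⟩ hab
    simp only [Gset, Finset.mem_product, Finset.mem_filter, Finset.mem_Icc] at hab
    obtain ⟨⟨⟨ha1, ha2⟩, hasq, hacop⟩, ⟨hb1, hb2⟩, hbsq, hbcop⟩ := hab
    set g := Nat.gcd a b with hg
    have hg0 : 0 < g := Nat.gcd_pos_of_pos_left _ ha1
    have hga : g ∣ a := Nat.gcd_dvd_left a b
    have hgb : g ∣ b := Nat.gcd_dvd_right a b
    obtain ⟨u, hu⟩ := hga
    obtain ⟨v, hv⟩ := hgb
    have hu0 : 0 < u := by
      rcases Nat.eq_zero_or_pos u with h | h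
      · rw [h, mul_zero] at hu; omega
      · exact h
    have hv0 : 0 < v := by
      rcases Nat.eq_zero_or_pos v with h | h
      · rw [h, mul_zero] at hv; omega
      · exact h
    have huv : Nat.Coprime u v := by
      have h := Nat.coprime_div_gcd_div_gcd (m := a) (n := b) (by rw [← hg]; exact hg0)
      rw [← hg] at h
      rw [hu, hv, Nat.mul_div_cancel_left _ hg0, Nat.mul_div_cancel_left _ hg0] at h
      exact h
    have husq : Squarefree u := by rw [hu] at hasq; exact hasq.of_mul_right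
    have hvsq : Squarefree v := by rw [hv] at hbsq; exact hbsq.of_mul_right
    have huE : Nat.Coprime u E := Nat.Coprime.coprime_dvd_left ⟨g, by rw [hu, mul_comm]⟩ hacop
    have hvE : Nat.Coprime v E := Nat.Coprime.coprime_dvd_left ⟨g, by rw [hv, mul_comm]⟩ hbcop
    have hule : u ≤ y := (Nat.le_of_dvd ha1 ⟨g, by rw [hu, mul_comm]⟩).trans ha2
    have hvle : v ≤ y := (Nat.le_of_dvd hb1 ⟨g, by rw [hv, mul_comm]⟩).trans hb2
    refine ⟨(g, ⟨u * v, u⟩), ?_, ?_⟩
    · simp only [Gset, Finset.mem_product, Finset.mem_sigma, Nat.mem_divisors, Finset.mem_filter,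
        Finset.mem_Icc]
      refine ⟨⟨hg0, (Nat.le_of_dvd ha1 ⟨u, hu⟩).trans ha2⟩, ⟨⟨Nat.mul_pos hu0 hv0, ?_⟩, ?_, ?_⟩,
        Dvd.intro _ rfl, (Nat.mul_pos hu0 hv0).ne'⟩
      · rw [pow_two]; exact Nat.mul_le_mul hule hvle
      · exact (Nat.squarefree_mul huv).mpr ⟨husq, hvsq⟩
      · exact Nat.Coprime.mul_left huE hvE
    · simp only
      rw [Nat.mul_div_cancel_left _ hu0, ← hu, ← hv]

end Pool.Agent.Helper403
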