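import Mathlib

set_option autoImplicit false

namespace Pool.Agent.Helper403

open Finset

theorem sum_mul_coprime_periodic {a b : ℕ} (ha : 0 < a) (hb : 0 < b) (hab : Nat.Coprime a b)
    (f g : ℕ → ℝ) (hf : Function.Periodic f a) (hg : Function.Periodic g b) :
    ∑ t ∈ range (a * b), f t * g t = (∑ t ∈ range a, f t) * (∑ t ∈ range b, g t) := by
  rw [Finset.sum_mul_sum, ← Finset.sum_product']
  refine Finset.sum_nbij (fun t => (t % a, t % b)) ?_ ?_ ?_ ?_
  · intro t _
    simp [Nat.mod_lt _ ha, Nat.mod_lt _ hb]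
  · intro t ht s hs h
    simp only [Finset.coe_range, Set.mem_Iio] at ht hs
    simp only [Prod.mk.injEq] at h
    have h1 : t ≡ s [MOD a] := h.1
    have h2 : t ≡ s [MOD b] := h.2
    have h3 := (Nat.modEq_and_modEq_iff_modEq_mul hab).mp ⟨h1, h2⟩
    exact Nat.ModEq.eq_of_lt_of_lt h3 ht hs
  · rintro ⟨x, y⟩ hxy
    simp only [Finset.coe_product, Finset.coe_range, Set.mem_prod, Set.mem_Iio] at hxy
    refine ⟨(Nat.chineseRemainder hab x y : ℕ), ?_, ?_⟩
    · simp only [Finset.coe_range, Set.mem_Iio]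
      exact Nat.chineseRemainder_lt_mul hab x y ha.ne' hb.ne'
    · have h := (Nat.chineseRemainder hab x y).2
      simp only [Prod.mk.injEq]
      constructor
      · have h1 : _ % a = x % a := h.1
        rw [h1, Nat.mod_eq_of_lt hxy.1]
      · have h1 : _ % b = y % b := h.2
        rw [h1, Nat.mod_eq_of_lt hxy.2]
  · intro t _
    simp only
    rw [hf.map_mod_nat, hg.map_mod_nat]

theorem sum_prod_periodic (U : Finset ℕ) (hU : ∀ l ∈ U, l.Prime) (f : ℕ → ℕ → ℝ)
    (hf : ∀ l ∈ U, Function.Periodic (f l) l) :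
    ∑ t ∈ range (∏ l ∈ U, l), ∏ l ∈ U, f l t = ∏ l ∈ U, ∑ t ∈ range l, f l t := by
  induction U using Finset.induction_on with
  | empty => simp
  | insert l U hl ih =>
    have ih' := ih (fun x hx => hU x (Finset.mem_insert_of_mem hx))
      (fun x hx => hf x (Finset.mem_insert_of_mem hx))
    rw [Finset.prod_insert hl, Finset.prod_insert hl, ← ih']
    have hlp := hU l (Finset.mem_insert_self _ _)
    rw [← sum_mul_coprime_periodic hlp.pos]
    · apply Finset.sum_congr rfl
      intro t _
      rw [Finset.prod_insert hl]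
    · exact Finset.prod_pos (fun x hx => (hU x (Finset.mem_insert_of_mem hx)).pos)
    · apply Nat.Coprime.prod_right
      intro x hx
      have hxp := hU x (Finset.mem_insert_of_mem hx)
      rw [Nat.coprime_primes hlp hxp]
      rintro rfl
      exact hl hx
    · exact hf l (Finset.mem_insert_self _ _)
    · intro t
      apply Finset.prod_congr rfl
      intro x hx
      have hper := hf x (Finset.mem_insert_of_mem hx)
      obtain ⟨c, hc⟩ := Finset.dvd_prod_of_mem (fun l => l) hx
      have h2 := hper.nat_mul c t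
      rw [hc]
      simpa [mul_comm] using h2

theorem sum_range_mul_periodic (F : ℕ → ℝ) (M : ℕ) (hF : Function.Periodic F M) (q s : ℕ) :
    ∑ t ∈ range (M * q + s), F t = q * ∑ t ∈ range M, F t + ∑ t ∈ range s, F t := by
  induction q with
  | zero => simp
  | succ q ih =>
    have h1 : M * (q + 1) + s = M + (M * q + s) := by ring
    rw [h1, Finset.sum_range_add]
    have h2 : ∑ x ∈ range (M * q + s), F (M + x) = ∑ x ∈ range (M * q + s), F x := by
      apply Finset.sum_congr rfl
      intro x _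
      rw [add_comm]
      exact hF x
    rw [h2, ih]
    push_cast
    ring

theorem abs_sum_sub_le (F : ℕ → ℝ) (M : ℕ) (hM : 0 < M) (hF : Function.Periodic F M) (K : ℝ)
    (hK : ∀ t, |F t| ≤ K) (T : ℕ) :
    |∑ t ∈ range T, F t - (T : ℝ) / M * ∑ t ∈ range M, F t| ≤ 2 * M * K := by
  have hMr : (0 : ℝ) < M := by exact_mod_cast hM
  have hT : T = M * (T / M) + T % M := (Nat.div_add_mod T M).symm
  have hK0 : 0 ≤ K := (abs_nonneg _).trans (hK 0)
  set q := T / M
  set s := T % M with hs
  have hsM : s < M := Nat.mod_lt _ hM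
  have hsum : ∑ t ∈ range T, F t = q * ∑ t ∈ range M, F t + ∑ t ∈ range s, F t := by
    rw [hT]; exact sum_range_mul_periodic F M hF q s
  have hTr : (T : ℝ) / M = q + s / M := by
    rw [hT]; push_cast; field_simp
  rw [hsum, hTr]
  have h1 : |∑ t ∈ range s, F t| ≤ s * K := by
    calc |∑ t ∈ range s, F t| ≤ ∑ t ∈ range s, |F t| := Finset.abs_sum_le_sum_abs _ _
      _ ≤ ∑ t ∈ range s, K := Finset.sum_le_sum (fun t _ => hK t)
      _ = s * K := by simp
  have h2 : |∑ t ∈ range M, F t| ≤ M * K := by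
    calc |∑ t ∈ range M, F t| ≤ ∑ t ∈ range M, |F t| := Finset.abs_sum_le_sum_abs _ _
      _ ≤ ∑ t ∈ range M, K := Finset.sum_le_sum (fun t _ => hK t)
      _ = M * K := by simp
  have hsr : (s : ℝ) ≤ M := by exact_mod_cast hsM.le
  have h3 : |(s : ℝ) / M * ∑ t ∈ range M, F t| ≤ s * K := by
    rw [abs_mul, abs_of_nonneg (by positivity)]
    calc (s : ℝ) / M * |∑ t ∈ range M, F t| ≤ (s : ℝ) / M * (M * K) := by gcongr
      _ = s * K := by field_simp
  have h4 : (q : ℝ) * ∑ t ∈ range M, F t + ∑ t ∈ range s, F t -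
      ((q : ℝ) + s / M) * ∑ t ∈ range M, F t
      = ∑ t ∈ range s, F t - (s : ℝ) / M * ∑ t ∈ range M, F t := by ring
  rw [h4]
  calc |∑ t ∈ range s, F t - (s : ℝ) / M * ∑ t ∈ range M, F t|
      ≤ |∑ t ∈ range s, F t| + |(s : ℝ) / M * ∑ t ∈ range M, F t| := abs_sub _ _
    _ ≤ s * K + s * K := add_le_add h1 h3
    _ ≤ M * K + M * K := by gcongr
    _ = 2 * M * K := by ring


open Classical in
/-- number of bad residues modulo l -/
noncomputable def nu (bad : ℕ → ℕ → Prop) (l : ℕ) : ℕ := ((range l).filter (fun t => bad l t)).card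

open Classical in
/-- the local function of mean zero -/
noncomputable def psi (bad : ℕ → ℕ → Prop) (l t : ℕ) : ℝ :=
  if bad l t then -(((l : ℝ) - nu bad l) / nu bad l) else 1

/-- the local weight -/
noncomputable def Hw (bad : ℕ → ℕ → Prop) (e : ℕ) : ℝ :=
  ∏ l ∈ e.primeFactors, ((nu bad l : ℝ) / ((l : ℝ) - nu bad l))

theorem sum_psi (bad : ℕ → ℕ → Prop) (l : ℕ) (h0 : 0 < nu bad l) :
    ∑ t ∈ range l, psi bad l t = 0 := by
  classical
  have hr : (0 : ℝ) < nu bad l := by exact_mod_cast h0
  unfold psi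
  rw [Finset.sum_ite, Finset.sum_const, Finset.sum_const]
  have h1 : ((range l).filter (fun t => bad l t)).card = nu bad l := rfl
  have h2 : (((range l).filter (fun t => ¬ bad l t)).card : ℝ) = l - nu bad l := by
    have := Finset.card_filter_add_card_filter_not (s := range l) (fun t => bad l t)
    rw [Finset.card_range] at this
    rw [h1] at this
    have h3 : ((nu bad l + ((range l).filter (fun t => ¬ bad l t)).card : ℕ) : ℝ) = l := by
      exact_mod_cast this
    push_cast at h3
    linarith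
  rw [nsmul_eq_mul, nsmul_eq_mul, h2, h1]
  field_simp
  ring

theorem sum_psi_sq (bad : ℕ → ℕ → Prop) (l : ℕ) (h0 : 0 < nu bad l) :
    ∑ t ∈ range l, psi bad l t * psi bad l t = ((l : ℝ) - nu bad l) / nu bad l * l := by
  classical
  have hr : (0 : ℝ) < nu bad l := by exact_mod_cast h0
  have h1 : ((range l).filter (fun t => bad l t)).card = nu bad l := rfl
  have h2 : (((range l).filter (fun t => ¬ bad l t)).card : ℝ) = l - nu bad l := by
    have := Finset.card_filter_add_card_filter_not (s := range l) (fun t => bad l t)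
    rw [Finset.card_range] at this
    rw [h1] at this
    have h3 : ((nu bad l + ((range l).filter (fun t => ¬ bad l t)).card : ℕ) : ℝ) = l := by
      exact_mod_cast this
    push_cast at h3
    linarith
  have h4 : ∀ t, psi bad l t * psi bad l t =
      if bad l t then (((l : ℝ) - nu bad l) / nu bad l) ^ 2 else 1 := by
    intro t
    unfold psi
    split_ifs <;> ring
  rw [Finset.sum_congr rfl (fun t _ => h4 t), Finset.sum_ite, Finset.sum_const, Finset.sum_const,
    nsmul_eq_mul, nsmul_eq_mul, h2, h1]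
  field_simp
  ring

theorem abs_psi_le (bad : ℕ → ℕ → Prop) (l t : ℕ) (h0 : 0 < nu bad l) (h1 : nu bad l < l) :
    |psi bad l t| ≤ l := by
  have hr : (1 : ℝ) ≤ nu bad l := by exact_mod_cast h0
  have hr2 : (nu bad l : ℝ) < l := by exact_mod_cast h1
  unfold psi
  split_ifs
  · rw [abs_neg, abs_of_nonneg (by apply div_nonneg <;> linarith)]
    rw [div_le_iff₀ (by linarith)]
    nlinarith
  · rw [abs_one]; linarith

theorem psi_periodic (bad : ℕ → ℕ → Prop) (l : ℕ) (h : ∀ t, bad l (t + l) ↔ bad l t) :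
    Function.Periodic (psi bad l) l := by
  intro t
  unfold psi
  by_cases hb : bad l t
  · rw [if_pos hb, if_pos ((h t).mpr hb)]
  · rw [if_neg hb, if_neg (fun h' => hb ((h t).mp h'))]


/-- Data for the sieve: all e in E are squarefree, at most z, with admissible local conditions. -/
structure SieveData (bad : ℕ → ℕ → Prop) (E : Finset ℕ) (z : ℕ) : Prop where
  sqf : ∀ e ∈ E, Squarefree e
  le : ∀ e ∈ E, e ≤ z
  per : ∀ e ∈ E, ∀ l ∈ e.primeFactors, ∀ t, bad l (t + l) ↔ bad l t
  pos : ∀ e ∈ E, ∀ l ∈ e.primeFactors, 0 < nu bad l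
  lt : ∀ e ∈ E, ∀ l ∈ e.primeFactors, nu bad l < l

theorem Hw_pos {bad : ℕ → ℕ → Prop} {E : Finset ℕ} {z : ℕ} (D : SieveData bad E z) {e : ℕ}
    (he : e ∈ E) : 0 < Hw bad e := by
  unfold Hw
  apply Finset.prod_pos
  intro l hl
  have h1 : (0 : ℝ) < nu bad l := by exact_mod_cast D.pos e he l hl
  have h2 : (nu bad l : ℝ) < l := by exact_mod_cast D.lt e he l hl
  apply div_pos h1
  linarith

/-- the product function -/
noncomputable def Psi (bad : ℕ → ℕ → Prop) (e t : ℕ) : ℝ := ∏ l ∈ e.primeFactors, psi bad l t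

theorem prod_primeFactors_le {e z : ℕ} (he : Squarefree e) (hz : e ≤ z) :
    (∏ l ∈ e.primeFactors, (l : ℝ)) ≤ z := by
  rw [← Nat.cast_prod, Nat.prod_primeFactors_of_squarefree he]
  exact_mod_cast hz

theorem abs_Psi_le {bad : ℕ → ℕ → Prop} {E : Finset ℕ} {z : ℕ} (D : SieveData bad E z) {e : ℕ}
    (he : e ∈ E) (t : ℕ) : |Psi bad e t| ≤ z := by
  unfold Psi
  rw [Finset.abs_prod]
  calc ∏ l ∈ e.primeFactors, |psi bad l t| ≤ ∏ l ∈ e.primeFactors, (l : ℝ) := by
        apply Finset.prod_le_prod
        · intro l _; exact abs_nonneg _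
        · intro l hl; exact abs_psi_le bad l t (D.pos e he l hl) (D.lt e he l hl)
    _ ≤ z := prod_primeFactors_le (D.sqf e he) (D.le e he)

theorem Psi_correlation {bad : ℕ → ℕ → Prop} {E : Finset ℕ} {z : ℕ} (D : SieveData bad E z)
    {e f : ℕ} (he : e ∈ E) (hf : f ∈ E) (T : ℕ) :
    |∑ t ∈ range T, Psi bad e t * Psi bad f t - (if e = f then (T : ℝ) / Hw bad e else 0)|
      ≤ 2 * (z : ℝ) ^ 4 := by
  classical
  set U := e.primeFactors ∪ f.primeFactors with hU
  set F : ℕ → ℕ → ℝ := fun l t =>
    (if l ∈ e.primeFactors then psi bad l t else 1) *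
    (if l ∈ f.primeFactors then psi bad l t else 1) with hF
  have hprod : ∀ t, Psi bad e t * Psi bad f t = ∏ l ∈ U, F l t := by
    intro t
    simp only [hF]
    rw [Finset.prod_mul_distrib]
    congr 1
    · unfold Psi
      rw [Finset.prod_ite_mem, hU, Finset.union_inter_cancel_left]
    · unfold Psi
      rw [Finset.prod_ite_mem, hU, Finset.union_inter_cancel_right]
  have hUp : ∀ l ∈ U, l.Prime := by
    intro l hl
    rw [hU, Finset.mem_union] at hl
    rcases hl with h | h <;> exact Nat.prime_of_mem_primeFactors h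
  have hper0 : ∀ l ∈ U, Function.Periodic (psi bad l) l := by
    intro l hl
    apply psi_periodic
    rw [hU, Finset.mem_union] at hl
    rcases hl with h | h
    · exact D.per e he l h
    · exact D.per f hf l h
  have hpos0 : ∀ l ∈ U, 0 < nu bad l := by
    intro l hl
    rw [hU, Finset.mem_union] at hl
    rcases hl with h | h
    · exact D.pos e he l h
    · exact D.pos f hf l h
  have hper : ∀ l ∈ U, Function.Periodic (F l) l := by
    intro l hl t
    simp only [hF]
    rw [hper0 l hl t]
  set M := ∏ l ∈ U, l with hM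
  have hMpos : 0 < M := Finset.prod_pos (fun l hl => (hUp l hl).pos)
  have hsum := sum_prod_periodic U hUp F hper
  have hFper : Function.Periodic (fun t => ∏ l ∈ U, F l t) M := by
    intro t
    apply Finset.prod_congr rfl
    intro l hl
    obtain ⟨c, hc⟩ := Finset.dvd_prod_of_mem (fun l => l) hl
    have h2 := (hper l hl).nat_mul c t
    rw [hM, hc]
    simpa [mul_comm] using h2
  have hbound : ∀ t, |∏ l ∈ U, F l t| ≤ (z : ℝ) ^ 2 := by
    intro t
    rw [← hprod t, abs_mul, pow_two]
    exact mul_le_mul (abs_Psi_le D he t) (abs_Psi_le D hf t) (abs_nonneg _) (by positivity)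
  have hMle : (M : ℝ) ≤ (z : ℝ) ^ 2 := by
    have h1 : M ≤ e * f := by
      have h2 : M ∣ e * f := by
        have : ∏ l ∈ U, l ∣ (∏ l ∈ e.primeFactors, l) * (∏ l ∈ f.primeFactors, l) := by
          rw [hU, ← Finset.prod_union_inter]
          exact Dvd.intro _ rfl
        rw [Nat.prod_primeFactors_of_squarefree (D.sqf e he),
          Nat.prod_primeFactors_of_squarefree (D.sqf f hf)] at this
        exact this
      apply Nat.le_of_dvd _ h2
      exact Nat.mul_pos (Nat.pos_of_ne_zero (D.sqf e he).ne_zero)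
        (Nat.pos_of_ne_zero (D.sqf f hf).ne_zero)
    have h3 : e * f ≤ z ^ 2 := by
      rw [pow_two]; exact Nat.mul_le_mul (D.le e he) (D.le f hf)
    exact_mod_cast h1.trans h3
  have hmain := abs_sum_sub_le (fun t => ∏ l ∈ U, F l t) M hMpos hFper _ hbound T
  have hval : (T : ℝ) / M * ∑ t ∈ range M, ∏ l ∈ U, F l t
      = if e = f then (T : ℝ) / Hw bad e else 0 := by
    rw [hM, hsum]
    split_ifs with hef
    · subst hef
      have hUe : U = e.primeFactors := by rw [hU, Finset.union_self]
      rw [hUe]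
      have h1 : ∏ l ∈ e.primeFactors, ∑ t ∈ range l, F l t =
          (∏ l ∈ e.primeFactors, (((l : ℝ) - nu bad l) / nu bad l)) *
            ∏ l ∈ e.primeFactors, (l : ℝ) := by
        rw [← Finset.prod_mul_distrib]
        apply Finset.prod_congr rfl
        intro l hl
        simp only [hF, if_pos hl]
        exact sum_psi_sq bad l (D.pos e he l hl)
      rw [h1]
      unfold Hw
      have h2 : ∏ l ∈ e.primeFactors, (((l : ℝ) - nu bad l) / nu bad l) =
          (∏ l ∈ e.primeFactors, ((nu bad l : ℝ) / ((l : ℝ) - nu bad l)))⁻¹ := by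
        rw [← Finset.prod_inv_distrib]
        apply Finset.prod_congr rfl
        intro l _
        rw [inv_div]
      rw [h2]
      have h3 : ((∏ l ∈ e.primeFactors, l : ℕ) : ℝ) ≠ 0 := by
        rw [hM, hUe] at hMpos
        exact_mod_cast hMpos.ne'
      push_cast at h3 ⊢
      field_simp
    · have hex : ∃ l ∈ U, ¬ (l ∈ e.primeFactors ↔ l ∈ f.primeFactors) := by
        by_contra hcon
        push Not at hcon
        apply hef
        rw [← Nat.prod_primeFactors_of_squarefree (D.sqf e he),
          ← Nat.prod_primeFactors_of_squarefree (D.sqf f hf)]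
        congr 1
        ext l
        by_cases hl : l ∈ U
        · exact hcon l hl
        · rw [hU, Finset.mem_union] at hl
          tauto
      obtain ⟨l, hl, hne⟩ := hex
      have hz : ∑ t ∈ range l, F l t = 0 := by
        have h0 := sum_psi bad l (hpos0 l hl)
        rw [← h0]
        apply Finset.sum_congr rfl
        intro t _
        simp only [hF]
        rcases Classical.em (l ∈ e.primeFactors) with h1 | h1
        · have h2 : l ∉ f.primeFactors := fun h2 => hne ⟨fun _ => h2, fun _ => h1⟩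
          rw [if_pos h1, if_neg h2, mul_one]
        · have h2 : l ∈ f.primeFactors := by
            by_contra h2
            exact hne ⟨fun h => absurd h h1, fun h => absurd h h2⟩
          rw [if_neg h1, if_pos h2, one_mul]
      have hz' : ∏ l ∈ U, ∑ t ∈ range l, F l t = 0 := Finset.prod_eq_zero hl hz
      rw [hz', mul_zero]
  rw [hval] at hmain
  have hcongr : ∑ t ∈ range T, Psi bad e t * Psi bad f t = ∑ t ∈ range T, ∏ l ∈ U, F l t :=
    Finset.sum_congr rfl (fun t _ => hprod t)
  rw [hcongr]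
  refine hmain.trans ?_
  have hz2 : (0 : ℝ) ≤ (z : ℝ) ^ 2 := by positivity
  nlinarith

theorem sieve_bound {bad : ℕ → ℕ → Prop} {E : Finset ℕ} {z : ℕ} (D : SieveData bad E z) (T : ℕ)
    (S : Finset ℕ) (hS : S ⊆ range T)
    (hgood : ∀ t ∈ S, ∀ e ∈ E, ∀ l ∈ e.primeFactors, ¬ bad l t) (hE : E.Nonempty) :
    (S.card : ℝ) ≤ T / (∑ e ∈ E, Hw bad e) + 2 * (z : ℝ) ^ 4 := by
  set G := ∑ e ∈ E, Hw bad e with hG
  have hGpos : 0 < G := Finset.sum_pos (fun e he => Hw_pos D he) hE
  have h1 : (S.card : ℝ) * G ^ 2 ≤ ∑ t ∈ range T, (∑ e ∈ E, Hw bad e * Psi bad e t) ^ 2 := by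
    calc (S.card : ℝ) * G ^ 2 = ∑ t ∈ S, G ^ 2 := by rw [Finset.sum_const, nsmul_eq_mul]
      _ = ∑ t ∈ S, (∑ e ∈ E, Hw bad e * Psi bad e t) ^ 2 := by
          apply Finset.sum_congr rfl
          intro t ht
          congr 1
          rw [hG]
          apply Finset.sum_congr rfl
          intro e he
          have : Psi bad e t = 1 := by
            unfold Psi
            apply Finset.prod_eq_one
            intro l hl
            unfold psi
            rw [if_neg (hgood t ht e he l hl)]
          rw [this, mul_one]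
      _ ≤ _ := Finset.sum_le_sum_of_subset_of_nonneg hS (fun t _ _ => sq_nonneg _)
  have h2 : ∑ t ∈ range T, (∑ e ∈ E, Hw bad e * Psi bad e t) ^ 2 =
      ∑ e ∈ E, ∑ f ∈ E, Hw bad e * Hw bad f * ∑ t ∈ range T, Psi bad e t * Psi bad f t := by
    calc ∑ t ∈ range T, (∑ e ∈ E, Hw bad e * Psi bad e t) ^ 2
        = ∑ t ∈ range T, ∑ e ∈ E, ∑ f ∈ E,
            (Hw bad e * Psi bad e t) * (Hw bad f * Psi bad f t) := by
          apply Finset.sum_congr rfl
          intro t _
          rw [pow_two, Finset.sum_mul_sum]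
      _ = ∑ e ∈ E, ∑ f ∈ E, ∑ t ∈ range T,
            (Hw bad e * Psi bad e t) * (Hw bad f * Psi bad f t) := by
          rw [Finset.sum_comm]
          apply Finset.sum_congr rfl
          intro e _
          rw [Finset.sum_comm]
      _ = _ := by
          apply Finset.sum_congr rfl
          intro e _
          apply Finset.sum_congr rfl
          intro f _
          rw [Finset.mul_sum]
          apply Finset.sum_congr rfl
          intro t _
          ring
  have h3 : ∑ e ∈ E, ∑ f ∈ E, Hw bad e * Hw bad f * ∑ t ∈ range T, Psi bad e t * Psi bad f t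
      ≤ ∑ e ∈ E, ∑ f ∈ E, Hw bad e * Hw bad f *
        ((if e = f then (T : ℝ) / Hw bad e else 0) + 2 * (z : ℝ) ^ 4) := by
    apply Finset.sum_le_sum
    intro e he
    apply Finset.sum_le_sum
    intro f hf
    have h := Psi_correlation D he hf T
    have h' := (abs_le.mp h).2
    apply mul_le_mul_of_nonneg_left _ (mul_pos (Hw_pos D he) (Hw_pos D hf)).le
    linarith
  have h4 : ∑ e ∈ E, ∑ f ∈ E, Hw bad e * Hw bad f *
        ((if e = f then (T : ℝ) / Hw bad e else 0) + 2 * (z : ℝ) ^ 4)
      = T * G + 2 * (z : ℝ) ^ 4 * G ^ 2 := by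
    have h5 : ∀ e ∈ E, ∑ f ∈ E, Hw bad e * Hw bad f *
        ((if e = f then (T : ℝ) / Hw bad e else 0) + 2 * (z : ℝ) ^ 4)
        = T * Hw bad e + 2 * (z : ℝ) ^ 4 * (Hw bad e * G) := by
      intro e he
      simp_rw [mul_add]
      rw [Finset.sum_add_distrib]
      congr 1
      · have h6 : ∀ f ∈ E, Hw bad e * Hw bad f * (if e = f then (T : ℝ) / Hw bad e else 0) =
            if e = f then T * Hw bad e else 0 := by
          intro f _
          split_ifs with h
          · subst h
            have := (Hw_pos D he).ne'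
            field_simp
          · rw [mul_zero]
        rw [Finset.sum_congr rfl h6, Finset.sum_ite_eq E e (fun _ => (T : ℝ) * Hw bad e), if_pos he]
      · rw [← Finset.sum_mul, ← Finset.mul_sum, ← hG]
        ring
    rw [Finset.sum_congr rfl h5, Finset.sum_add_distrib, ← Finset.mul_sum, ← Finset.mul_sum,
      ← Finset.sum_mul, ← hG]
    ring
  have h6 : (S.card : ℝ) * G ^ 2 ≤ T * G + 2 * (z : ℝ) ^ 4 * G ^ 2 := by
    rw [← h4]; exact h1.trans (h2.le.trans h3)
  have h7 : (S.card : ℝ) * G ^ 2 ≤ (T / G + 2 * (z : ℝ) ^ 4) * G ^ 2 := by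
    have : (T / G + 2 * (z : ℝ) ^ 4) * G ^ 2 = T * G + 2 * (z : ℝ) ^ 4 * G ^ 2 := by
      field_simp
    rw [this]; exact h6
  exact le_of_mul_le_mul_right h7 (by positivity)

end Pool.Agent.Helper403
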