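import Mathlib
import Pool.Agent.Helper403.Sieve
import Pool.Agent.Helper403.Mult

set_option autoImplicit false

namespace Pool.Agent.Helper403

open Finset

theorem exists_root_linear {l c b : ℕ} (hl : l.Prime) (hb : ¬ l ∣ b) :
    ∃ a, a < l ∧ ∀ t, t < l → (l ∣ c + b * t ↔ t = a) := by
  have : Fact l.Prime := ⟨hl⟩
  have hb0 : (b : ZMod l) ≠ 0 := by
    rw [Ne, ZMod.natCast_eq_zero_iff]
    exact hb
  refine ⟨((-(c : ZMod l)) * (b : ZMod l)⁻¹).val, ZMod.val_lt _, ?_⟩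
  intro t ht
  have key : l ∣ c + b * t ↔ (t : ZMod l) = -(c : ZMod l) * (b : ZMod l)⁻¹ := by
    rw [← ZMod.natCast_eq_zero_iff]
    push_cast
    constructor
    · intro h
      have h1 : (b : ZMod l) * t = -c := by
        rw [eq_neg_iff_add_eq_zero, add_comm]; exact h
      rw [← h1]
      field_simp
    · intro h
      rw [h]
      field_simp
      ring
  rw [key]
  constructor
  · intro h2
    rw [← h2, ZMod.val_natCast, Nat.mod_eq_of_lt ht]
  · intro h
    subst h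
    rw [ZMod.natCast_val, ZMod.cast_id', id]

theorem nu_eq_one {bad : ℕ → ℕ → Prop} {l a : ℕ} (ha : a < l)
    (h : ∀ t, t < l → (bad l t ↔ t = a)) : nu bad l = 1 := by
  classical
  unfold nu
  rw [Finset.card_eq_one]
  refine ⟨a, ?_⟩
  ext t
  rw [Finset.mem_filter, Finset.mem_range, Finset.mem_singleton]
  constructor
  · rintro ⟨h1, h2⟩
    exact (h t h1).mp h2
  · rintro rfl
    exact ⟨ha, (h t ha).mpr rfl⟩

theorem nu_eq_two {bad : ℕ → ℕ → Prop} {l a b : ℕ} (ha : a < l) (hb : b < l) (hab : a ≠ b)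
    (h : ∀ t, t < l → (bad l t ↔ (t = a ∨ t = b))) : nu bad l = 2 := by
  classical
  unfold nu
  rw [Finset.card_eq_two]
  refine ⟨a, b, hab, ?_⟩
  ext t
  rw [Finset.mem_filter, Finset.mem_range, Finset.mem_insert, Finset.mem_singleton]
  constructor
  · rintro ⟨h1, h2⟩
    exact (h t h1).mp h2
  · rintro (rfl | rfl)
    · exact ⟨ha, (h t ha).mpr (Or.inl rfl)⟩
    · exact ⟨hb, (h t hb).mpr (Or.inr rfl)⟩

theorem log_four_ge : (1.386 : ℝ) ≤ Real.log 4 := by
  have h : Real.log 4 = 2 * Real.log 2 := by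
    rw [show (4 : ℝ) = 2 ^ 2 by norm_num, Real.log_pow]; norm_num
  have := Real.log_two_gt_d9
  rw [h]; linarith

theorem log_four_le : Real.log 4 ≤ 1.3863 := by
  have h : Real.log 4 = 2 * Real.log 2 := by
    rw [show (4 : ℝ) = 2 ^ 2 by norm_num, Real.log_pow]; norm_num
  have := Real.log_two_lt_d9
  rw [h]; linarith

theorem lt_four_pow (N : ℕ) : N < 4 ^ N := Nat.lt_pow_self (by norm_num)

theorem bt_block {N j d : ℕ} (hN : 1 ≤ N) (hd : 1 ≤ d) (hj : d * 4 ^ (6 * N) ≤ 4 ^ j)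
    (S : Finset ℕ) (hS : ∀ p ∈ S, p.Prime ∧ 4 ^ j < p ∧ p ≤ 4 ^ (j + 1))
    (hcong : ∀ p ∈ S, ∀ q ∈ S, p ≡ q [MOD d]) :
    (S.card : ℝ) ≤ 7 * B d * 4 ^ j / (d * N) := by
  classical
  have hNr : (1 : ℝ) ≤ N := by exact_mod_cast hN
  have hdr : (1 : ℝ) ≤ d := by exact_mod_cast hd
  have hB := one_le_B d
  rcases S.eq_empty_or_nonempty with rfl | hne
  · simp only [Finset.card_empty, Nat.cast_zero]
    positivity
  set r0 := S.min' hne with hr0
  have hr0mem : r0 ∈ S := Finset.min'_mem S hne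
  have hmin : ∀ p ∈ S, r0 ≤ p := fun p hp => Finset.min'_le S p hp
  have hdvd : ∀ p ∈ S, d ∣ p - r0 := fun p hp =>
    (Nat.modEq_iff_dvd' (hmin p hp)).mp (hcong r0 hr0mem p hp)
  have hform : ∀ p ∈ S, p = r0 + d * ((p - r0) / d) := by
    intro p hp
    rw [Nat.mul_div_cancel' (hdvd p hp)]
    have := hmin p hp
    omega
  set S' := S.image (fun p => (p - r0) / d) with hS'
  have hcard : S'.card = S.card := by
    apply Finset.card_image_of_injOn
    intro p hp q hq hpq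
    simp only at hpq
    rw [hform p hp, hform q hq, hpq]
  set T := 3 * 4 ^ j / d + 1 with hT
  set z := 4 ^ N with hz
  set bad : ℕ → ℕ → Prop := fun l t => l ∣ r0 + d * t with hbad
  have hnu : ∀ l : ℕ, l.Prime → ¬ l ∣ d → nu bad l = 1 := by
    intro l hl hld
    obtain ⟨a, ha1, ha⟩ := exists_root_linear (c := r0) hl hld
    exact nu_eq_one ha1 ha
  have hmem : ∀ e ∈ Gset d z, Squarefree e ∧ e ≤ z ∧ ∀ l ∈ e.primeFactors, l.Prime ∧ ¬ l ∣ d
      ∧ l ≤ z := by
    intro e he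
    simp only [Gset, Finset.mem_filter, Finset.mem_Icc] at he
    refine ⟨he.2.1, he.1.2, ?_⟩
    intro l hl
    have hlp := Nat.prime_of_mem_primeFactors hl
    have hle := Nat.dvd_of_mem_primeFactors hl
    refine ⟨hlp, fun h => ?_, (Nat.le_of_mem_primeFactors hl).trans he.1.2⟩
    exact hlp.one_lt.ne' (Nat.eq_one_of_dvd_coprimes he.2.2 hle h)
  have D : SieveData bad (Gset d z) z := by
    refine ⟨fun e he => (hmem e he).1, fun e he => (hmem e he).2.1, ?_, ?_, ?_⟩
    · intro e he l hl t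
      simp only [hbad]
      have : r0 + d * (t + l) = r0 + d * t + l * d := by ring
      rw [this]
      exact (Nat.dvd_add_left (Dvd.intro _ rfl))
    · intro e he l hl
      obtain ⟨h1, h2, _⟩ := (hmem e he).2.2 l hl
      rw [hnu l h1 h2]; exact one_pos
    · intro e he l hl
      obtain ⟨h1, h2, _⟩ := (hmem e he).2.2 l hl
      rw [hnu l h1 h2]; exact h1.one_lt
  have hzpos : 1 ≤ z := Nat.one_le_pow _ _ (by norm_num)
  have hone : 1 ∈ Gset d z := by
    simp only [Gset, Finset.mem_filter, Finset.mem_Icc]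
    exact ⟨⟨le_refl _, hzpos⟩, squarefree_one, Nat.coprime_one_left d⟩
  have hzj : z ≤ 4 ^ j := by
    calc z = 4 ^ N := rfl
      _ ≤ 4 ^ (6 * N) := Nat.pow_le_pow_right (by norm_num) (by omega)
      _ ≤ d * 4 ^ (6 * N) := Nat.le_mul_of_pos_left _ hd
      _ ≤ 4 ^ j := hj
  have hsub : S' ⊆ range T := by
    intro t ht
    obtain ⟨p, hp, rfl⟩ := Finset.mem_image.mp ht
    rw [Finset.mem_range, hT]
    apply Nat.lt_succ_of_le
    apply Nat.div_le_div_right
    have h1 := (hS p hp).2.2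
    have h2 := (hS r0 hr0mem).2.1
    have h3 : 4 ^ (j + 1) = 4 * 4 ^ j := by ring
    omega
  have hgood : ∀ t ∈ S', ∀ e ∈ Gset d z, ∀ l ∈ e.primeFactors, ¬ bad l t := by
    intro t ht e he l hl hb
    obtain ⟨p, hp, rfl⟩ := Finset.mem_image.mp ht
    simp only [hbad] at hb
    rw [← hform p hp] at hb
    obtain ⟨h1, h2, h3⟩ := (hmem e he).2.2 l hl
    have h4 := (Nat.prime_dvd_prime_iff_eq h1 (hS p hp).1).mp hb
    have h5 := (hS p hp).2.1
    omega
  have hsieve := sieve_bound D T S' hsub hgood ⟨1, hone⟩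
  rw [hcard] at hsieve
  set G := ∑ e ∈ Gset d z, Hw bad e with hG
  have hGlow : (N : ℝ) * Real.log 4 / (2 * B d) ≤ G := by
    have h1 : ∑ e ∈ Gset d z, 1 / (e : ℝ) ≤ G := by
      apply Finset.sum_le_sum
      intro e he
      rw [← wt_inv_of_squarefree (hmem e he).1]
      unfold wt Hw
      apply Finset.prod_le_prod
      · intro l _; positivity
      · intro l hl
        obtain ⟨h1, h2, _⟩ := (hmem e he).2.2 l hl
        rw [hnu l h1 h2]
        have h3 : (2 : ℝ) ≤ l := by exact_mod_cast h1.two_le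
        push_cast
        apply div_le_div_of_nonneg_left (by norm_num) (by linarith) (by linarith)
    have h2 := G1 (E := d) (by omega) z
    have h3 : Real.log (z : ℝ) = N * Real.log 4 := by
      rw [hz]; push_cast; rw [Real.log_pow]
    rw [h3] at h2
    rw [div_le_iff₀ (by linarith)]
    nlinarith
  have hl4 := log_four_ge
  have hlow_pos : 0 < (N : ℝ) * Real.log 4 / (2 * B d) := by positivity
  have h4j : (d : ℝ) * 4 ^ (6 * N) ≤ 4 ^ j := by exact_mod_cast hj
  have hTle : (T : ℝ) ≤ 4 * 4 ^ j / d := by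
    rw [hT]
    push_cast
    have h1 : ((3 * 4 ^ j / d : ℕ) : ℝ) ≤ 3 * 4 ^ j / d := by
      have := @Nat.cast_div_le ℝ _ _ _ (3 * 4 ^ j) d
      push_cast at this
      exact this
    have h2 : (1 : ℝ) ≤ 4 ^ j / d := by
      rw [le_div_iff₀ (by linarith), one_mul]
      calc (d : ℝ) = d * 1 := by ring
        _ ≤ d * 4 ^ (6 * N) := by
            apply mul_le_mul_of_nonneg_left _ (by linarith)
            exact one_le_pow₀ (by norm_num)
        _ ≤ 4 ^ j := h4j
    have h3 : (4 : ℝ) * 4 ^ j / d = 3 * 4 ^ j / d + 4 ^ j / d := by ring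
    rw [h3]
    linarith
  have h1 : (T : ℝ) / G ≤ 6 * B d * 4 ^ j / (d * N) := by
    calc (T : ℝ) / G ≤ (4 * 4 ^ j / d) / ((N : ℝ) * Real.log 4 / (2 * B d)) := by
          apply div_le_div₀ (by positivity) hTle hlow_pos hGlow
      _ = (8 / Real.log 4) * (B d * 4 ^ j / (d * N)) := by
          field_simp
          ring
      _ ≤ 6 * (B d * 4 ^ j / (d * N)) := by
          apply mul_le_mul_of_nonneg_right _ (by positivity)
          rw [div_le_iff₀ (by linarith)]
          linarith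
      _ = _ := by ring
  have h2 : 2 * (z : ℝ) ^ 4 ≤ B d * 4 ^ j / (d * N) := by
    have h5 : (4 : ℝ) ^ (6 * N) / N ≤ 4 ^ j / (d * N) := by
      rw [div_le_div_iff₀ (by linarith) (by positivity)]
      nlinarith
    have h6 : 2 * (z : ℝ) ^ 4 ≤ (4 : ℝ) ^ (6 * N) / N := by
      rw [le_div_iff₀ (by linarith), hz]
      push_cast
      have h7 : (N : ℝ) ≤ 4 ^ N := by exact_mod_cast (lt_four_pow N).le
      have h8 : (2 : ℝ) ≤ 4 ^ N := by
        calc (2 : ℝ) ≤ 4 ^ 1 := by norm_num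
          _ ≤ 4 ^ N := pow_le_pow_right₀ (by norm_num) hN
      have h9 : (4 : ℝ) ^ (6 * N) = 4 ^ N * (4 ^ N) ^ 4 * 4 ^ N := by
        rw [← pow_mul, ← pow_add, ← pow_add]; congr 1; ring
      rw [h9]
      have h10 : (0 : ℝ) ≤ (4 ^ N) ^ 4 := by positivity
      calc 2 * ((4 : ℝ) ^ N) ^ 4 * N ≤ 4 ^ N * (4 ^ N) ^ 4 * N := by gcongr
        _ ≤ 4 ^ N * (4 ^ N) ^ 4 * 4 ^ N := by gcongr
    have h11 : (4 : ℝ) ^ j / (d * N) ≤ B d * 4 ^ j / (d * N) := by
      apply div_le_div_of_nonneg_right _ (by positivity)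
      have : (0 : ℝ) < 4 ^ j := by positivity
      nlinarith
    linarith
  calc (S.card : ℝ) ≤ T / G + 2 * (z : ℝ) ^ 4 := hsieve
    _ ≤ 6 * B d * 4 ^ j / (d * N) + B d * 4 ^ j / (d * N) := add_le_add h1 h2
    _ = _ := by ring


theorem bt_log {N A d : ℕ} (hN : 1 ≤ N) (hd : 1 ≤ d) (hA : d * 4 ^ (6 * N) ≤ 4 ^ A)
    (S : Finset ℕ) (hS : ∀ p ∈ S, p.Prime ∧ 4 ^ A < p ∧ p ≤ 4 ^ (A + N))
    (hcong : ∀ p ∈ S, ∀ q ∈ S, p ≡ q [MOD d]) :
    ∑ p ∈ S, 1 / (p : ℝ) ≤ 7 * B d / d := by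
  have hNr : (1 : ℝ) ≤ N := by exact_mod_cast hN
  have hdr : (1 : ℝ) ≤ d := by exact_mod_cast hd
  have hB := one_le_B d
  have hmaps : ∀ p ∈ S, Nat.log 4 (p - 1) ∈ Finset.Ico A (A + N) := by
    intro p hp
    obtain ⟨hpp, h1, h2⟩ := hS p hp
    have hp2 := hpp.two_le
    rw [Finset.mem_Ico]
    constructor
    · apply Nat.le_log_of_pow_le (by norm_num)
      omega
    · apply Nat.log_lt_of_lt_pow (by omega)
      omega
  rw [← Finset.sum_fiberwise_of_maps_to hmaps]
  have hblock : ∀ j ∈ Finset.Ico A (A + N),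
      ∑ p ∈ S.filter (fun p => Nat.log 4 (p - 1) = j), 1 / (p : ℝ) ≤ 7 * B d / (d * N) := by
    intro j hj
    rw [Finset.mem_Ico] at hj
    have hmem : ∀ p ∈ S.filter (fun p => Nat.log 4 (p - 1) = j),
        p.Prime ∧ 4 ^ j < p ∧ p ≤ 4 ^ (j + 1) := by
      intro p hp
      rw [Finset.mem_filter] at hp
      obtain ⟨hpS, hlog⟩ := hp
      obtain ⟨hpp, h1, h2⟩ := hS p hpS
      have hp2 := hpp.two_le
      have h3 : 4 ^ j ≤ p - 1 := by
        rw [← hlog]; exact Nat.pow_log_le_self 4 (by omega)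
      have h4 : p - 1 < 4 ^ (j + 1) := by
        rw [← hlog]; exact Nat.lt_pow_succ_log_self (by norm_num) _
      exact ⟨hpp, by omega, by omega⟩
    have hcard := bt_block (N := N) (j := j) (d := d) hN hd
      (hA.trans (Nat.pow_le_pow_right (by norm_num) hj.1))
      (S.filter (fun p => Nat.log 4 (p - 1) = j)) hmem
      (fun p hp q hq => hcong p (Finset.mem_filter.mp hp).1 q (Finset.mem_filter.mp hq).1)
    calc ∑ p ∈ S.filter (fun p => Nat.log 4 (p - 1) = j), 1 / (p : ℝ)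
        ≤ ∑ p ∈ S.filter (fun p => Nat.log 4 (p - 1) = j), 1 / (4 : ℝ) ^ j := by
          apply Finset.sum_le_sum
          intro p hp
          have h1 : (4 : ℝ) ^ j < p := by exact_mod_cast (hmem p hp).2.1
          apply div_le_div_of_nonneg_left (by norm_num) (by positivity) h1.le
      _ = ((S.filter (fun p => Nat.log 4 (p - 1) = j)).card : ℝ) * (1 / (4 : ℝ) ^ j) := by
          rw [Finset.sum_const, nsmul_eq_mul]
      _ ≤ (7 * B d * 4 ^ j / (d * N)) * (1 / (4 : ℝ) ^ j) := by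
          apply mul_le_mul_of_nonneg_right hcard (by positivity)
      _ = _ := by field_simp
  calc ∑ j ∈ Finset.Ico A (A + N),
      ∑ p ∈ S.filter (fun p => Nat.log 4 (p - 1) = j), 1 / (p : ℝ)
      ≤ ∑ j ∈ Finset.Ico A (A + N), 7 * B d / (d * N) := Finset.sum_le_sum hblock
    _ = N * (7 * B d / (d * N)) := by
        rw [Finset.sum_const, nsmul_eq_mul, Nat.card_Ico]
        congr 2
        omega
    _ = 7 * B d / d := by field_simp

end Pool.Agent.Helper403
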