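import Mathlib
import Pool.Agent.Helper403.BT

set_option autoImplicit false

namespace Pool.Agent.Helper403

open Finset

/-- elements above p in a progression -/
theorem sum_above_le {d p Y : ℕ} (hd : 1 ≤ d) (S : Finset ℕ)
    (hS : ∀ x ∈ S, p < x ∧ x ≤ Y ∧ d ∣ x - p) :
    ∑ x ∈ S, 1 / (x : ℝ) ≤ (1 + Real.log Y) / d := by
  have hdr : (1 : ℝ) ≤ d := by exact_mod_cast hd
  have hform : ∀ x ∈ S, x = p + d * ((x - p) / d) ∧ 1 ≤ (x - p) / d ∧ (x - p) / d ≤ Y := by
    intro x hx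
    obtain ⟨h1, h2, h3⟩ := hS x hx
    refine ⟨?_, ?_, ?_⟩
    · rw [Nat.mul_div_cancel' h3]; omega
    · exact Nat.div_pos (Nat.le_of_dvd (by omega) h3) (by omega)
    · exact (Nat.div_le_self _ _).trans (by omega)
  have hinj : Set.InjOn (fun x => (x - p) / d) (S : Set ℕ) := by
    intro x hx y hy hxy
    simp only at hxy
    rw [(hform x hx).1, (hform y hy).1, hxy]
  calc ∑ x ∈ S, 1 / (x : ℝ) ≤ ∑ x ∈ S, (1 / (((x - p) / d : ℕ) : ℝ)) * (1 / d) := by
        apply Finset.sum_le_sum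
        intro x hx
        obtain ⟨h1, h2, h3⟩ := hform x hx
        rw [one_div_mul_one_div]
        have h4 : (0 : ℝ) < (((x - p) / d : ℕ) : ℝ) := by exact_mod_cast h2
        apply one_div_le_one_div_of_le (by positivity)
        have h5 : (x : ℝ) = p + d * (((x - p) / d : ℕ) : ℝ) := by exact_mod_cast h1
        rw [h5]
        have : (0 : ℝ) ≤ p := Nat.cast_nonneg p
        linarith
    _ = ∑ j ∈ S.image (fun x => (x - p) / d), (1 / (j : ℝ)) * (1 / d) := by
        rw [Finset.sum_image hinj]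
    _ ≤ ∑ j ∈ Icc 1 Y, (1 / (j : ℝ)) * (1 / d) := by
        apply Finset.sum_le_sum_of_subset_of_nonneg
        · intro j hj
          obtain ⟨x, hx, rfl⟩ := Finset.mem_image.mp hj
          rw [Finset.mem_Icc]
          exact (hform x hx).2
        · intro j _ _
          positivity
    _ = (∑ j ∈ Icc 1 Y, 1 / (j : ℝ)) * (1 / d) := by rw [Finset.sum_mul]
    _ ≤ (1 + Real.log Y) * (1 / d) := by
        apply mul_le_mul_of_nonneg_right (sum_inv_le_log Y) (by positivity)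
    _ = _ := by ring

theorem sum_multiples_le {d Y : ℕ} (hd : 1 ≤ d) (S : Finset ℕ)
    (hS : ∀ x ∈ S, 0 < x ∧ x ≤ Y ∧ d ∣ x) :
    ∑ x ∈ S, 1 / (x : ℝ) ≤ (1 + Real.log Y) / d :=
  sum_above_le (p := 0) hd S (fun x hx => by simpa using hS x hx)

theorem sum_congruent_le {d A Y : ℕ} (hd : 1 ≤ d) (hA : 1 ≤ A) (S : Finset ℕ)
    (hS : ∀ x ∈ S, A ≤ x ∧ x ≤ Y) (hcong : ∀ x ∈ S, ∀ y ∈ S, x ≡ y [MOD d]) :
    ∑ x ∈ S, 1 / (x : ℝ) ≤ 1 / (A : ℝ) + (1 + Real.log Y) / d := by
  classical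
  have hAr : (1 : ℝ) ≤ A := by exact_mod_cast hA
  rcases S.eq_empty_or_nonempty with rfl | hne
  · simp only [Finset.sum_empty]
    have h1 : 0 ≤ Real.log Y := Real.log_natCast_nonneg Y
    positivity
  have hmem := Finset.min'_mem S hne
  rw [← Finset.add_sum_erase S _ hmem]
  apply add_le_add
  · apply one_div_le_one_div_of_le (by linarith)
    exact_mod_cast (hS _ hmem).1
  · apply sum_above_le (p := S.min' hne) hd
    intro x hx
    rw [Finset.mem_erase] at hx
    have h1 : S.min' hne ≤ x := Finset.min'_le S x hx.2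
    refine ⟨lt_of_le_of_ne h1 (Ne.symm hx.1), (hS x hx.2).2, ?_⟩
    exact (Nat.modEq_iff_dvd' h1).mp (hcong _ hmem x hx.2)

end Pool.Agent.Helper403
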