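import Mathlib
import Pool.Agent.Helper403.Mult

set_option autoImplicit false

namespace Pool.Agent.Helper403

open Finset

/-- the weight c over the square root -/
noncomputable def w (c : ℝ) : ℕ → ℝ := fun l => c / Real.sqrt l

theorem w_nonneg {c : ℝ} (hc : 0 ≤ c) (l : ℕ) : 0 ≤ w c l := by unfold w; positivity

theorem wt_sqrt_of_squarefree {e : ℕ} (he : Squarefree e) :
    wt (fun l => Real.sqrt l) e = Real.sqrt e := by
  have h1 : wt (fun l => Real.sqrt l) e * wt (fun l => Real.sqrt l) e = (e : ℝ) := by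
    rw [wt_mul_fun, ← wt_cast he]
    unfold wt
    apply Finset.prod_congr rfl
    intro l _
    exact Real.mul_self_sqrt (Nat.cast_nonneg l)
  have h2 : 0 ≤ wt (fun l => Real.sqrt l) e := wt_nonneg (fun l => Real.sqrt_nonneg _) e
  rw [← h1, Real.sqrt_mul_self h2]

theorem wt_sqrt_sqrt_of_squarefree {e : ℕ} (he : Squarefree e) :
    wt (fun l => Real.sqrt (Real.sqrt l)) e = Real.sqrt (Real.sqrt e) := by
  have h1 : wt (fun l => Real.sqrt (Real.sqrt l)) e * wt (fun l => Real.sqrt (Real.sqrt l)) e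
      = Real.sqrt e := by
    rw [wt_mul_fun, ← wt_sqrt_of_squarefree he]
    unfold wt
    apply Finset.prod_congr rfl
    intro l _
    exact Real.mul_self_sqrt (Real.sqrt_nonneg _)
  have h2 : 0 ≤ wt (fun l => Real.sqrt (Real.sqrt l)) e :=
    wt_nonneg (fun l => Real.sqrt_nonneg _) e
  rw [← h1, Real.sqrt_mul_self h2]

theorem two_pow_card_primeFactors_le {n : ℕ} (hn : n ≠ 0) : 2 ^ n.primeFactors.card ≤ n := by
  calc 2 ^ n.primeFactors.card = ∏ l ∈ n.primeFactors, 2 := by rw [Finset.prod_const]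
    _ ≤ ∏ l ∈ n.primeFactors, l :=
        Finset.prod_le_prod' (fun l hl => (Nat.prime_of_mem_primeFactors hl).two_le)
    _ ≤ n := Nat.le_of_dvd (Nat.pos_of_ne_zero hn) (Nat.prod_primeFactors_dvd n)

theorem card_primeFactors_le {n N : ℕ} (hn : n ≠ 0) (h : n ≤ 4 ^ (100 * N)) :
    n.primeFactors.card ≤ 200 * N := by
  have h1 := (two_pow_card_primeFactors_le hn).trans h
  have h2 : (4 : ℕ) ^ (100 * N) = 2 ^ (200 * N) := by
    rw [show (4 : ℕ) = 2 ^ 2 by norm_num, ← pow_mul]; congr 1; ring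
  rw [h2] at h1
  exact (Nat.pow_le_pow_iff_right (by norm_num)).mp h1

theorem Pf_quarter_le {c : ℝ} (hc : 0 ≤ c) : ∃ K : ℝ, 0 < K ∧ ∀ N n : ℕ, n ≠ 0 →
    n ≤ 4 ^ (100 * N) → Pf (fun l => c / Real.sqrt (Real.sqrt l)) n ≤ K * (1.3 : ℝ) ^ N := by
  obtain ⟨y, hy⟩ := exists_nat_ge ((1000 * c) ^ 4)
  refine ⟨(1 + c) ^ (y + 1), by positivity, ?_⟩
  intro N n hn hnN
  unfold Pf
  have h1 : ∀ l ∈ n.primeFactors, 1 + c / Real.sqrt (Real.sqrt l) ≤
      (if l ∈ range (y + 1) then (1 + c) else 1) * 1.001 := by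
    intro l hl
    have hl1 : (1 : ℝ) ≤ l := by
      exact_mod_cast (Nat.prime_of_mem_primeFactors hl).one_lt.le
    have hs1 : 1 ≤ Real.sqrt (Real.sqrt l) := by
      rw [Real.one_le_sqrt, Real.one_le_sqrt]; exact hl1
    split_ifs with h
    · have : c / Real.sqrt (Real.sqrt l) ≤ c := div_le_self hc hs1
      nlinarith
    · rw [Finset.mem_range, not_lt] at h
      have h2 : (1000 * c) ^ 4 ≤ l := by
        refine hy.trans ?_
        exact_mod_cast (by omega : y ≤ l)
      have h3 : 1000 * c ≤ Real.sqrt (Real.sqrt l) := by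
        apply Real.le_sqrt_of_sq_le
        apply Real.le_sqrt_of_sq_le
        have h2' : ((1000 * c) ^ 2) ^ 2 = (1000 * c) ^ 4 := by ring
        rw [h2']
        exact h2
      have h4 : c / Real.sqrt (Real.sqrt l) ≤ 0.001 := by
        rw [div_le_iff₀ (by linarith)]
        linarith
      linarith
  calc ∏ l ∈ n.primeFactors, (1 + c / Real.sqrt (Real.sqrt l))
      ≤ ∏ l ∈ n.primeFactors, ((if l ∈ range (y + 1) then (1 + c) else 1) * 1.001) := by
        apply Finset.prod_le_prod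
        · intro l _; positivity
        · exact h1
    _ = (∏ l ∈ n.primeFactors, (if l ∈ range (y + 1) then (1 + c) else 1)) *
          (1.001 : ℝ) ^ n.primeFactors.card := by
        rw [Finset.prod_mul_distrib, Finset.prod_const]
    _ ≤ (1 + c) ^ (y + 1) * (1.3 : ℝ) ^ N := by
        apply mul_le_mul
        · rw [Finset.prod_ite_mem, Finset.prod_const]
          apply pow_le_pow_right₀ (by linarith)
          calc (n.primeFactors ∩ range (y + 1)).card ≤ (range (y + 1)).card :=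
                Finset.card_le_card Finset.inter_subset_right
            _ = y + 1 := Finset.card_range _
        · calc (1.001 : ℝ) ^ n.primeFactors.card ≤ (1.001 : ℝ) ^ (200 * N) := by
                apply pow_le_pow_right₀ (by norm_num)
                exact card_primeFactors_le hn hnN
            _ = ((1.001 : ℝ) ^ 200) ^ N := by rw [pow_mul]
            _ ≤ (1.3 : ℝ) ^ N := by
                apply pow_le_pow_left₀ (by positivity)
                norm_num
        · positivity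
        · positivity

/-- squarefree numbers up to 4^N -/
def Esq (N : ℕ) : Finset ℕ := (Icc 1 (4 ^ N)).filter Squarefree

theorem trunc_expansion {c : ℝ} (hc : 0 ≤ c) : ∃ N0 : ℕ, ∀ N n : ℕ, N0 ≤ N → n ≠ 0 →
    n ≤ 4 ^ (100 * N) →
    Pf (w c) n ≤ 2 * ∑ e ∈ (Esq N).filter (fun e => e ∣ n), wt (w c) e := by
  obtain ⟨K, hK, hKb⟩ := Pf_quarter_le hc
  have hlim : Filter.Tendsto (fun N : ℕ => K * (1.3 / 1.4 : ℝ) ^ N) Filter.atTop (nhds (K * 0)) :=
    (tendsto_pow_atTop_nhds_zero_of_lt_one (by norm_num) (by norm_num)).const_mul K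
  rw [mul_zero] at hlim
  have hev := hlim.eventually (gt_mem_nhds (show (0 : ℝ) < 1 by norm_num))
  obtain ⟨N0, hN0⟩ := Filter.eventually_atTop.mp hev
  refine ⟨N0, ?_⟩
  intro N n hN hn hnN
  have hsplit : Pf (w c) n = ∑ e ∈ (n.divisors.filter Squarefree).filter (fun e => e ≤ 4 ^ N),
      wt (w c) e + ∑ e ∈ (n.divisors.filter Squarefree).filter (fun e => ¬ e ≤ 4 ^ N),
      wt (w c) e := by
    rw [Finset.sum_filter_add_sum_filter_not, Pf_eq_sum hn]
  have hfirst : ∑ e ∈ (n.divisors.filter Squarefree).filter (fun e => e ≤ 4 ^ N),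
      wt (w c) e ≤ ∑ e ∈ (Esq N).filter (fun e => e ∣ n), wt (w c) e := by
    apply Finset.sum_le_sum_of_subset_of_nonneg
    · intro e he
      simp only [Finset.mem_filter, Nat.mem_divisors, Esq, Finset.mem_Icc] at he ⊢
      exact ⟨⟨⟨Nat.pos_of_ne_zero he.1.2.ne_zero, he.2⟩, he.1.2⟩, he.1.1.1⟩
    · intro e _ _
      exact wt_nonneg (w_nonneg hc) e
  have hone : 1 ≤ ∑ e ∈ (Esq N).filter (fun e => e ∣ n), wt (w c) e := by
    have h1 : 1 ∈ (Esq N).filter (fun e => e ∣ n) := by
      simp only [Finset.mem_filter, Esq, Finset.mem_Icc]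
      exact ⟨⟨⟨le_refl _, Nat.one_le_pow _ _ (by norm_num)⟩, squarefree_one⟩, one_dvd _⟩
    calc (1 : ℝ) = wt (w c) 1 := (wt_one _).symm
      _ ≤ _ := Finset.single_le_sum (f := fun e => wt (w c) e)
          (fun e _ => wt_nonneg (w_nonneg hc) e) h1
  have htail : ∑ e ∈ (n.divisors.filter Squarefree).filter (fun e => ¬ e ≤ 4 ^ N),
      wt (w c) e ≤ 1 := by
    have h14 : ∀ N : ℕ, (1.4 : ℝ) ^ N ≤ Real.sqrt (Real.sqrt ((4 ^ N : ℕ) : ℝ)) := by
      intro N
      apply Real.le_sqrt_of_sq_le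
      apply Real.le_sqrt_of_sq_le
      push_cast
      calc (((1.4 : ℝ) ^ N) ^ 2) ^ 2 = ((1.4 : ℝ) ^ 4) ^ N := by
            rw [← pow_mul, ← pow_mul, ← pow_mul]; congr 1; ring
        _ ≤ 4 ^ N := by
            apply pow_le_pow_left₀ (by positivity)
            norm_num
    have hterm : ∀ e ∈ (n.divisors.filter Squarefree).filter (fun e => ¬ e ≤ 4 ^ N),
        wt (w c) e ≤ (1 / (1.4 : ℝ) ^ N) * wt (fun l => c / Real.sqrt (Real.sqrt l)) e := by
      intro e he
      simp only [Finset.mem_filter, Nat.mem_divisors, not_le] at he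
      have hsq := he.1.2
      have h2 : wt (w c) e = wt (fun l => 1 / Real.sqrt (Real.sqrt l)) e *
          wt (fun l => c / Real.sqrt (Real.sqrt l)) e := by
        rw [wt_mul_fun]
        unfold wt w
        apply Finset.prod_congr rfl
        intro l hl
        have hl1 : (0 : ℝ) ≤ Real.sqrt l := Real.sqrt_nonneg _
        show c / Real.sqrt l = 1 / Real.sqrt (Real.sqrt l) * (c / Real.sqrt (Real.sqrt l))
        rw [div_mul_div_comm, one_mul, Real.mul_self_sqrt hl1]
      have h3 : wt (fun l => 1 / Real.sqrt (Real.sqrt l)) e = 1 / Real.sqrt (Real.sqrt e) := by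
        rw [← wt_sqrt_sqrt_of_squarefree hsq]
        unfold wt
        rw [Finset.prod_div_distrib, Finset.prod_const_one]
      rw [h2, h3]
      apply mul_le_mul_of_nonneg_right
      · apply one_div_le_one_div_of_le (by positivity)
        refine (h14 N).trans ?_
        apply Real.sqrt_le_sqrt
        apply Real.sqrt_le_sqrt
        exact_mod_cast he.2.le
      · exact wt_nonneg (fun l => by positivity) e
    calc ∑ e ∈ (n.divisors.filter Squarefree).filter (fun e => ¬ e ≤ 4 ^ N), wt (w c) e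
        ≤ ∑ e ∈ (n.divisors.filter Squarefree).filter (fun e => ¬ e ≤ 4 ^ N),
          (1 / (1.4 : ℝ) ^ N) * wt (fun l => c / Real.sqrt (Real.sqrt l)) e :=
          Finset.sum_le_sum hterm
      _ ≤ ∑ e ∈ n.divisors.filter Squarefree,
          (1 / (1.4 : ℝ) ^ N) * wt (fun l => c / Real.sqrt (Real.sqrt l)) e := by
          apply Finset.sum_le_sum_of_subset_of_nonneg (Finset.filter_subset _ _)
          intro e _ _
          exact mul_nonneg (by positivity) (wt_nonneg (fun l => by positivity) e)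
      _ = (1 / (1.4 : ℝ) ^ N) * Pf (fun l => c / Real.sqrt (Real.sqrt l)) n := by
          rw [Pf_eq_sum hn, Finset.mul_sum]
      _ ≤ (1 / (1.4 : ℝ) ^ N) * (K * (1.3 : ℝ) ^ N) := by
          apply mul_le_mul_of_nonneg_left (hKb N n hn hnN) (by positivity)
      _ = K * (1.3 / 1.4 : ℝ) ^ N := by
          rw [div_pow]; ring
      _ ≤ 1 := (hN0 N hN).le
  rw [hsplit]
  linarith

theorem sum_wt_le_exp {f : ℕ → ℝ} (hf : ∀ l, 0 ≤ f l) (hs : Summable f) (A : Finset ℕ)
    (hA : ∀ e ∈ A, Squarefree e) : ∑ e ∈ A, wt f e ≤ Real.exp (∑' l, f l) := by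
  set S := A.biUnion (fun e => e.primeFactors) with hS
  have h1 := sum_wt_le_prod A S f hf hA (fun e he => Finset.subset_biUnion_of_mem
    (fun e : ℕ => e.primeFactors) he)
  calc ∑ e ∈ A, wt f e ≤ ∏ l ∈ S, (1 + f l) := h1
    _ ≤ ∏ l ∈ S, Real.exp (f l) := by
        apply Finset.prod_le_prod
        · intro l _; linarith [hf l]
        · intro l _
          have := Real.add_one_le_exp (f l)
          linarith
    _ = Real.exp (∑ l ∈ S, f l) := (Real.exp_sum S f).symm
    _ ≤ Real.exp (∑' l, f l) := Real.exp_le_exp.mpr (hs.sum_le_tsum S (fun l _ => hf l))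

theorem summable_three_halves (c : ℝ) : Summable (fun l : ℕ => c / (l * Real.sqrt l)) := by
  have h1 : Summable (fun l : ℕ => 1 / (l : ℝ) ^ (3 / 2 : ℝ)) :=
    Real.summable_one_div_nat_rpow.mpr (by norm_num)
  have h2 : (fun l : ℕ => c / ((l : ℝ) * Real.sqrt l)) =
      fun l : ℕ => c * (1 / (l : ℝ) ^ (3 / 2 : ℝ)) := by
    ext l
    have h3 : (l : ℝ) ^ (3 / 2 : ℝ) = l * Real.sqrt l := by
      rcases Nat.eq_zero_or_pos l with rfl | hl
      · norm_num
      · have : (0 : ℝ) < l := by exact_mod_cast hl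
        rw [Real.sqrt_eq_rpow, show (3 / 2 : ℝ) = 1 + 1 / 2 by norm_num,
          Real.rpow_add this, Real.rpow_one]
    rw [h3]
    ring
  rw [h2]
  exact h1.mul_left c

/-- the constant for the convergent products -/
noncomputable def Kc (c : ℝ) : ℝ := Real.exp (∑' l : ℕ, c / ((l : ℝ) * Real.sqrt l))

theorem Kc_pos (c : ℝ) : 0 < Kc c := Real.exp_pos _

theorem sum_wt_three_halves {c : ℝ} (hc : 0 ≤ c) (A : Finset ℕ) (hA : ∀ e ∈ A, Squarefree e) :
    ∑ e ∈ A, wt (fun l => c / ((l : ℝ) * Real.sqrt l)) e ≤ Kc c :=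
  sum_wt_le_exp (fun l => by positivity) (summable_three_halves c) A hA

theorem one_add_pow_le {x : ℝ} (h0 : 0 ≤ x) (h1 : x ≤ 1) (k : ℕ) :
    (1 + x) ^ k ≤ 1 + (2 ^ k - 1) * x := by
  induction k with
  | zero => simp
  | succ k ih =>
    have h2 : (1 : ℝ) ≤ 2 ^ k := one_le_pow₀ (by norm_num)
    calc (1 + x) ^ (k + 1) = (1 + x) ^ k * (1 + x) := by ring
      _ ≤ (1 + (2 ^ k - 1) * x) * (1 + x) := by
          apply mul_le_mul_of_nonneg_right ih (by linarith)
      _ = 1 + 2 ^ k * x + (2 ^ k - 1) * (x * x) := by ring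
      _ ≤ 1 + 2 ^ k * x + (2 ^ k - 1) * x := by
          have : x * x ≤ x := by nlinarith
          have h3 : (0 : ℝ) ≤ 2 ^ k - 1 := by linarith
          nlinarith
      _ = 1 + (2 ^ (k + 1) - 1) * x := by ring

theorem B_pow_le (n k : ℕ) : B n ^ k ≤ Pf (w (2 ^ k)) n := by
  unfold B Pf
  rw [← Finset.prod_pow]
  apply Finset.prod_le_prod
  · intro l _; positivity
  · intro l hl
    have hl1 : (1 : ℝ) ≤ l := by
      exact_mod_cast (Nat.prime_of_mem_primeFactors hl).one_lt.le
    have h1 : 1 / (l : ℝ) ≤ 1 := by rw [div_le_one (by linarith)]; exact hl1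
    refine (one_add_pow_le (by positivity) h1 k).trans ?_
    have h2 : Real.sqrt l ≤ l := by
      rw [Real.sqrt_le_left (by linarith)]
      nlinarith
    have h3 : 0 < Real.sqrt l := Real.sqrt_pos.mpr (by linarith)
    have h4 : 1 / (l : ℝ) ≤ 1 / Real.sqrt l := one_div_le_one_div_of_le h3 h2
    unfold w
    have h5 : (1 : ℝ) ≤ 2 ^ k := one_le_pow₀ (by norm_num)
    have h6 : (0 : ℝ) ≤ 1 / (l : ℝ) := by positivity
    calc 1 + (2 ^ k - 1) * (1 / (l : ℝ)) ≤ 1 + 2 ^ k * (1 / (l : ℝ)) := by nlinarith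
      _ ≤ 1 + 2 ^ k * (1 / Real.sqrt l) := by nlinarith
      _ = 1 + 2 ^ k / Real.sqrt l := by ring

end Pool.Agent.Helper403
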