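import Mathlib
import Pool.Agent.Helper403.Trunc

set_option autoImplicit false

namespace Pool.Agent.Helper403

open Finset

theorem geom_bound {x : ℝ} (hx0 : 0 ≤ x) (hx1 : x ≤ 5 / 7) (k : ℕ) :
    ∑ j ∈ range k, x ^ (j + 1) ≤ 7 / 2 * x := by
  have h : ∀ k : ℕ, ∑ j ∈ range k, x ^ (j + 1) + 7 / 2 * x * x ^ k ≤ 7 / 2 * x := by
    intro k
    induction k with
    | zero => simp
    | succ k ih =>
      rw [Finset.sum_range_succ]
      have h1 : x ^ (k + 1) + 7 / 2 * x * x ^ (k + 1) ≤ 7 / 2 * x * x ^ k := by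
        have h2 : x ^ (k + 1) = x * x ^ k := by ring
        rw [h2]
        have h3 : 0 ≤ x * x ^ k := by positivity
        nlinarith
      linarith
  have h1 := h k
  have h2 : 0 ≤ 7 / 2 * x * x ^ k := by positivity
  linarith

/-- sum over all divisors d of 4^omega(d)/sqrt d. -/
theorem sum_divisors_four_le (n : ℕ) (hn : n ≠ 0) :
    ∑ d ∈ n.divisors, wt (fun _ => 4) d / Real.sqrt d ≤ Pf (w 14) n := by
  induction n using Nat.recOnPosPrimePosCoprime with
  | zero => exact absurd rfl hn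
  | one =>
    simp [wt, Pf]
  | prime_pow p k hp hk =>
    have h1 : Pf (w 14) (p ^ k) = 1 + 14 / Real.sqrt p := by
      unfold Pf w
      rw [Nat.primeFactors_prime_pow hk.ne' hp, Finset.prod_singleton]
    rw [h1, Nat.sum_divisors_prime_pow hp, Finset.sum_range_succ']
    have h2 : (2 : ℝ) ≤ p := by exact_mod_cast hp.two_le
    have hs : Real.sqrt p ≥ 7 / 5 := by
      apply Real.le_sqrt_of_sq_le
      linarith
    have h3 : ∀ j ∈ range k, wt (fun _ => (4 : ℝ)) (p ^ (j + 1)) /
        Real.sqrt ((p ^ (j + 1) : ℕ) : ℝ) = 4 * (1 / Real.sqrt p) ^ (j + 1) := by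
      intro j _
      unfold wt
      rw [Nat.primeFactors_prime_pow (by omega) hp, Finset.prod_singleton]
      have h4 : Real.sqrt ((p ^ (j + 1) : ℕ) : ℝ) = Real.sqrt p ^ (j + 1) := by
        push_cast
        rw [Real.sqrt_eq_iff_mul_self_eq (by positivity) (by positivity), ← mul_pow,
          Real.mul_self_sqrt (by positivity)]
      rw [h4, div_pow, one_pow]
      ring
    rw [Finset.sum_congr rfl h3, ← Finset.mul_sum]
    have h5 : 1 / Real.sqrt p ≤ 5 / 7 := by
      rw [div_le_iff₀ (by linarith)]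
      linarith
    have h6 := geom_bound (x := 1 / Real.sqrt p) (by positivity) h5 k
    have h7 : wt (fun _ => (4 : ℝ)) (p ^ 0) / Real.sqrt ((p ^ 0 : ℕ) : ℝ) = 1 := by
      simp [wt]
    rw [h7]
    have h8 : (14 : ℝ) / Real.sqrt p = 4 * (7 / 2 * (1 / Real.sqrt p)) := by ring
    rw [h8]
    linarith
  | coprime a b ha hb hab iha ihb =>
    have ha0 : a ≠ 0 := by omega
    have hb0 : b ≠ 0 := by omega
    have h1 := iha ha0
    have h2 := ihb hb0
    have hnn : ∀ d : ℕ, 0 ≤ wt (fun _ => (4 : ℝ)) d / Real.sqrt d := fun d =>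
      div_nonneg (wt_nonneg (fun _ => by norm_num) d) (Real.sqrt_nonneg _)
    have hcover := sum_le_sum_of_cover (a * b).divisors (a.divisors ×ˢ b.divisors)
      (fun x => x.1 * x.2) (fun d : ℕ => wt (fun _ => (4 : ℝ)) d / Real.sqrt d) hnn ?_
    · have h3 : ∀ x ∈ a.divisors ×ˢ b.divisors,
          wt (fun _ => (4 : ℝ)) (x.1 * x.2) / Real.sqrt ((x.1 * x.2 : ℕ) : ℝ) =
          (wt (fun _ => (4 : ℝ)) x.1 / Real.sqrt x.1) *
          (wt (fun _ => (4 : ℝ)) x.2 / Real.sqrt x.2) := by
        rintro ⟨x, y⟩ hxy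
        simp only [Finset.mem_product, Nat.mem_divisors] at hxy
        simp only
        have hcop : Nat.Coprime x y := Nat.Coprime.of_dvd hxy.1.1 hxy.2.1 hab
        have h4 : wt (fun _ => (4 : ℝ)) (x * y) = wt (fun _ => (4 : ℝ)) x *
            wt (fun _ => (4 : ℝ)) y := by
          unfold wt
          rw [hcop.primeFactors_mul, Finset.prod_union hcop.disjoint_primeFactors]
        rw [h4]
        push_cast
        rw [Real.sqrt_mul (by positivity), mul_div_mul_comm]
      have h5 : Pf (w 14) (a * b) = Pf (w 14) a * Pf (w 14) b := by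
        unfold Pf
        rw [hab.primeFactors_mul, Finset.prod_union hab.disjoint_primeFactors]
      rw [h5]
      refine hcover.trans ?_
      rw [Finset.sum_congr rfl h3, Finset.sum_product]
      simp only
      rw [← Finset.sum_mul_sum]
      apply mul_le_mul h1 h2 (Finset.sum_nonneg (fun d _ => hnn d))
      have := one_le_Pf (f := w 14) (w_nonneg (by norm_num)) a
      linarith
    · intro d hd
      rw [Nat.mem_divisors] at hd
      obtain ⟨x, y, hx, hy, hxy⟩ := (Nat.dvd_mul).mp hd.1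
      refine ⟨(x, y), ?_, hxy⟩
      rw [Finset.mem_product, Nat.mem_divisors, Nat.mem_divisors]
      exact ⟨⟨hx, ha0⟩, ⟨hy, hb0⟩⟩

end Pool.Agent.Helper403
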