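import Mathlib
import Pool.Agent.Helper403.BT

set_option autoImplicit false

namespace Pool.Agent.Helper403

open Finset

theorem pairs_param {a b k k' Y : ℕ} (ha : 0 < a) (hb : 0 < b) (S : Finset (ℕ × ℕ))
    (hS : ∀ x ∈ S, a * x.1 + k = b * x.2 + k' ∧ x.1 ≤ Y) (hne : S.Nonempty) :
    ∃ x0 ∈ S, ∀ x ∈ S, ∃ t, x.1 = x0.1 + (b / Nat.gcd a b) * t ∧
      x.2 = x0.2 + (a / Nat.gcd a b) * t ∧ t ≤ Y / (b / Nat.gcd a b) := by
  obtain ⟨x0, hx0, hmin⟩ := Finset.exists_min_image S (fun x => x.1) hne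
  refine ⟨x0, hx0, ?_⟩
  intro x hx
  set g := Nat.gcd a b with hg
  have hg0 : 0 < g := Nat.gcd_pos_of_pos_left _ ha
  obtain ⟨a', ha'⟩ : g ∣ a := Nat.gcd_dvd_left a b
  obtain ⟨b', hb'⟩ : g ∣ b := Nat.gcd_dvd_right a b
  have hag : a / g = a' := by rw [ha', Nat.mul_div_cancel_left _ hg0]
  have hbg : b / g = b' := by rw [hb', Nat.mul_div_cancel_left _ hg0]
  have hcop : Nat.Coprime a' b' := by
    have h := Nat.coprime_div_gcd_div_gcd (m := a) (n := b) (by rw [← hg]; exact hg0)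
    rw [← hg, hag, hbg] at h
    exact h
  have hb'0 : 0 < b' := by
    rcases Nat.eq_zero_or_pos b' with h | h
    · rw [h, mul_zero] at hb'; omega
    · exact h
  rw [hag, hbg]
  have h1 := (hS x hx).1
  have h2 := (hS x0 hx0).1
  have hle := hmin x hx
  have hY := (hS x hx).2
  have hle2 : x0.2 ≤ x.2 := by
    have h3 : b * x0.2 ≤ b * x.2 := by
      have h4 : a * x0.1 ≤ a * x.1 := Nat.mul_le_mul_left a hle
      omega
    exact Nat.le_of_mul_le_mul_left h3 hb
  obtain ⟨u, hu⟩ := Nat.exists_eq_add_of_le hle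
  obtain ⟨v, hv⟩ := Nat.exists_eq_add_of_le hle2
  have h5 : a * u = b * v := by
    rw [hu, hv] at h1
    have e1 : a * (x0.1 + u) = a * x0.1 + a * u := by ring
    have e2 : b * (x0.2 + v) = b * x0.2 + b * v := by ring
    omega
  have h6 : a' * u = b' * v := by
    apply Nat.eq_of_mul_eq_mul_left hg0
    calc g * (a' * u) = (g * a') * u := by ring
      _ = a * u := by rw [← ha']
      _ = b * v := h5
      _ = (g * b') * v := by rw [← hb']
      _ = g * (b' * v) := by ring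
  have h7 : b' ∣ u := by
    have : b' ∣ a' * u := by rw [h6]; exact Dvd.intro _ rfl
    exact hcop.symm.dvd_of_dvd_mul_left this
  obtain ⟨t, ht⟩ := h7
  refine ⟨t, by rw [hu, ht], ?_, ?_⟩
  · rw [hv]
    congr 1
    apply Nat.eq_of_mul_eq_mul_left hb'0
    rw [← h6, ht]
    ring
  · rw [Nat.le_div_iff_mul_le hb'0]
    have : u ≤ Y := by omega
    rw [ht] at this
    linarith [mul_comm b' t]

theorem pairs_dvd {a b k k' : ℕ} {x : ℕ × ℕ} (h : a * x.1 + k = b * x.2 + k') :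
    Nat.gcd a b ∣ Int.natAbs ((k : ℤ) - k') := by
  have h1 : ((Nat.gcd a b : ℕ) : ℤ) ∣ (k : ℤ) - k' := by
    have h2 : (k : ℤ) - k' = b * x.2 - a * x.1 := by
      have : (a : ℤ) * x.1 + k = b * x.2 + k' := by exact_mod_cast h
      linarith
    rw [h2]
    apply dvd_sub
    · exact Dvd.dvd.mul_right (by exact_mod_cast Nat.gcd_dvd_right a b) _
    · exact Dvd.dvd.mul_right (by exact_mod_cast Nat.gcd_dvd_left a b) _
  exact Int.natCast_dvd.mp h1

theorem pairs_trivial {a b k k' Y : ℕ} (ha : 0 < a) (hb : 0 < b) (S : Finset (ℕ × ℕ))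
    (hS : ∀ x ∈ S, a * x.1 + k = b * x.2 + k' ∧ x.1 ≤ Y) :
    (S.card : ℝ) ≤ (Y : ℝ) * Nat.gcd a b / b + 1 := by
  rcases S.eq_empty_or_nonempty with rfl | hne
  · simp only [Finset.card_empty, Nat.cast_zero]
    positivity
  obtain ⟨x0, _, hpar⟩ := pairs_param ha hb S hS hne
  set g := Nat.gcd a b with hg
  have hg0 : 0 < g := Nat.gcd_pos_of_pos_left _ ha
  have hb'0 : 0 < b / g := Nat.div_pos (Nat.gcd_le_right _ hb) hg0
  have ha'0 : 0 < a / g := Nat.div_pos (Nat.gcd_le_left _ ha) hg0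
  have hsub : S ⊆ (range (Y / (b / g) + 1)).image
      (fun t => (x0.1 + (b / g) * t, x0.2 + (a / g) * t)) := by
    intro x hx
    obtain ⟨t, h1, h2, h3⟩ := hpar x hx
    rw [Finset.mem_image]
    refine ⟨t, Finset.mem_range.mpr (by omega), ?_⟩
    rw [← h1, ← h2]
  have h1 : S.card ≤ Y / (b / g) + 1 := by
    calc S.card ≤ _ := Finset.card_le_card hsub
      _ ≤ (range (Y / (b / g) + 1)).card := Finset.card_image_le
      _ = _ := Finset.card_range _
  have h2 : ((Y / (b / g) : ℕ) : ℝ) ≤ (Y : ℝ) * g / b := by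
    have h3 : ((Y / (b / g) : ℕ) : ℝ) ≤ (Y : ℝ) / ((b / g : ℕ) : ℝ) := Nat.cast_div_le
    have h4 : ((b / g : ℕ) : ℝ) = (b : ℝ) / g := by
      rw [Nat.cast_div (Nat.gcd_dvd_right a b)]
      exact_mod_cast hg0.ne'
    rw [h4] at h3
    rw [div_div_eq_mul_div] at h3
    exact h3
  have h5 : (S.card : ℝ) ≤ ((Y / (b / g) : ℕ) : ℝ) + 1 := by exact_mod_cast h1
  linarith

theorem B_two : B 2 = 3 / 2 := by
  unfold B Pf
  rw [Nat.prime_two.primeFactors, Finset.prod_singleton]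
  norm_num

theorem pairs_sieve {N a b k k' Y : ℕ} (hN : 1 ≤ N) (ha : 0 < a) (hb : 0 < b) (hk : k ≠ k')
    (S : Finset (ℕ × ℕ))
    (hS : ∀ x ∈ S, a * x.1 + k = b * x.2 + k' ∧ x.1 ≤ Y)
    (hp : ∀ x ∈ S, x.1.Prime ∧ x.2.Prime ∧ 4 ^ (2 * N) < x.1 ∧ 4 ^ (2 * N) < x.2) :
    (S.card : ℝ) ≤ (Y : ℝ) * Nat.gcd a b / b *
      (10 * (B a * B b * B (Int.natAbs ((k : ℤ) - k'))) ^ 2 / N ^ 2) + 1 + 2 * 4 ^ (8 * N) := by
  have hNr : (1 : ℝ) ≤ N := by exact_mod_cast hN
  rcases S.eq_empty_or_nonempty with rfl | hne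
  · simp only [Finset.card_empty, Nat.cast_zero]
    positivity
  obtain ⟨x0, hx0, hpar⟩ := pairs_param ha hb S hS hne
  have hdvdg := pairs_dvd (hS x0 hx0).1
  set g := Nat.gcd a b with hg
  have hg0 : 0 < g := Nat.gcd_pos_of_pos_left _ ha
  obtain ⟨a', ha'⟩ : g ∣ a := Nat.gcd_dvd_left a b
  obtain ⟨b', hb'⟩ : g ∣ b := Nat.gcd_dvd_right a b
  obtain ⟨h, hh⟩ := hdvdg
  have hag : a / g = a' := by rw [ha', Nat.mul_div_cancel_left _ hg0]
  have hbg : b / g = b' := by rw [hb', Nat.mul_div_cancel_left _ hg0]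
  rw [hag, hbg] at hpar
  have hb'0 : 0 < b' := by
    rcases Nat.eq_zero_or_pos b' with h | h
    · rw [h, mul_zero] at hb'; omega
    · exact h
  have ha'0 : 0 < a' := by
    rcases Nat.eq_zero_or_pos a' with h | h
    · rw [h, mul_zero] at ha'; omega
    · exact h
  have hd0 : Int.natAbs ((k : ℤ) - k') ≠ 0 := by
    rw [Ne, Int.natAbs_eq_zero, sub_eq_zero]
    exact_mod_cast hk
  have hh0 : h ≠ 0 := by
    rintro rfl
    rw [mul_zero] at hh
    exact hd0 hh
  set E := a' * b' * h with hE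
  have hE0 : E ≠ 0 := by positivity
  set z := (4 ^ N) ^ 2 with hz
  have hz2 : z = 4 ^ (2 * N) := by rw [hz, ← pow_mul]; congr 1; ring
  set bad : ℕ → ℕ → Prop := fun l t => l ∣ x0.1 + b' * t ∨ l ∣ x0.2 + a' * t with hbad
  have hnotcommon : ∀ l t : ℕ, l ∣ x0.1 + b' * t → l ∣ x0.2 + a' * t → l ∣ h := by
    intro l t h1 h2
    have h3 : (l : ℤ) ∣ (a' : ℤ) * (x0.1 + b' * t) - b' * (x0.2 + a' * t) := by
      apply dvd_sub
      · exact Dvd.dvd.mul_left (by exact_mod_cast h1) _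
      · exact Dvd.dvd.mul_left (by exact_mod_cast h2) _
    have h4 : (a' : ℤ) * (x0.1 + b' * t) - b' * (x0.2 + a' * t) = a' * x0.1 - b' * x0.2 := by ring
    rw [h4] at h3
    have h5 : (g : ℤ) * (a' * x0.1 - b' * x0.2) = (k' : ℤ) - k := by
      have h6 : (a : ℤ) * x0.1 + k = b * x0.2 + k' := by exact_mod_cast (hS x0 hx0).1
      have h7 : (a : ℤ) = g * a' := by exact_mod_cast ha'
      have h8 : (b : ℤ) = g * b' := by exact_mod_cast hb'
      rw [h7, h8] at h6
      linarith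
    have h9 : (Int.natAbs ((a' : ℤ) * x0.1 - b' * x0.2)) = h := by
      have h10 : g * Int.natAbs ((a' : ℤ) * x0.1 - b' * x0.2) = g * h := by
        rw [← hh]
        have := congrArg Int.natAbs h5
        rw [Int.natAbs_mul, Int.natAbs_natCast] at this
        rw [this, ← Int.natAbs_neg]
        congr 1
        ring
      exact Nat.eq_of_mul_eq_mul_left hg0 h10
    rw [← h9]
    exact Int.natCast_dvd.mp h3
  have hmem : ∀ e ∈ Gset (2 * E) z, Squarefree e ∧ e ≤ z ∧ ∀ l ∈ e.primeFactors, l.Prime ∧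
      2 < l ∧ ¬ l ∣ a' ∧ ¬ l ∣ b' ∧ ¬ l ∣ h ∧ l ≤ z := by
    intro e he
    simp only [Gset, Finset.mem_filter, Finset.mem_Icc] at he
    refine ⟨he.2.1, he.1.2, ?_⟩
    intro l hl
    have hlp := Nat.prime_of_mem_primeFactors hl
    have hle := Nat.dvd_of_mem_primeFactors hl
    have hno : ¬ l ∣ 2 * E := fun h =>
      hlp.one_lt.ne' (Nat.eq_one_of_dvd_coprimes he.2.2 hle h)
    refine ⟨hlp, ?_, ?_, ?_, ?_, (Nat.le_of_mem_primeFactors hl).trans he.1.2⟩
    · rcases hlp.two_le.lt_or_eq with h1 | h1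
      · exact h1
      · exfalso; apply hno; rw [← h1]; exact Dvd.intro _ rfl
    · intro h1; apply hno
      exact Dvd.dvd.mul_left (Dvd.dvd.mul_right (Dvd.dvd.mul_right h1 _) _) _
    · intro h1; apply hno
      exact Dvd.dvd.mul_left (Dvd.dvd.mul_right (Dvd.dvd.mul_left h1 _) _) _
    · intro h1; apply hno
      exact Dvd.dvd.mul_left (Dvd.dvd.mul_left h1 _) _
  have hnu : ∀ l : ℕ, l.Prime → ¬ l ∣ a' → ¬ l ∣ b' → ¬ l ∣ h → nu bad l = 2 := by
    intro l hl h1 h2 h3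
    obtain ⟨r, hr1, hr⟩ := exists_root_linear (c := x0.1) hl h2
    obtain ⟨s, hs1, hs⟩ := exists_root_linear (c := x0.2) hl h1
    apply nu_eq_two hr1 hs1
    · rintro rfl
      exact h3 (hnotcommon l r ((hr r hr1).mpr rfl) ((hs r hr1).mpr rfl))
    · intro t ht
      simp only [hbad]
      rw [hr t ht, hs t ht]
  have D : SieveData bad (Gset (2 * E) z) z := by
    refine ⟨fun e he => (hmem e he).1, fun e he => (hmem e he).2.1, ?_, ?_, ?_⟩
    · intro e he l hl t
      simp only [hbad]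
      have e1 : x0.1 + b' * (t + l) = x0.1 + b' * t + l * b' := by ring
      have e2 : x0.2 + a' * (t + l) = x0.2 + a' * t + l * a' := by ring
      rw [e1, e2, Nat.dvd_add_left (Dvd.intro _ rfl), Nat.dvd_add_left (Dvd.intro _ rfl)]
    · intro e he l hl
      obtain ⟨h1, _, h3, h4, h5, _⟩ := (hmem e he).2.2 l hl
      rw [hnu l h1 h3 h4 h5]; exact two_pos
    · intro e he l hl
      obtain ⟨h1, h2, h3, h4, h5, _⟩ := (hmem e he).2.2 l hl
      rw [hnu l h1 h3 h4 h5]; exact h2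
  have hzpos : 1 ≤ z := Nat.one_le_pow _ _ (by positivity)
  have hone : 1 ∈ Gset (2 * E) z := by
    simp only [Gset, Finset.mem_filter, Finset.mem_Icc]
    exact ⟨⟨le_refl _, hzpos⟩, squarefree_one, Nat.coprime_one_left _⟩
  -- the set of parameters
  set S' := S.image (fun x => (x.1 - x0.1) / b') with hS'
  have hval : ∀ x ∈ S, ∃ t, x.1 = x0.1 + b' * t ∧ x.2 = x0.2 + a' * t ∧ t ≤ Y / b' ∧
      (x.1 - x0.1) / b' = t := by
    intro x hx
    obtain ⟨t, h1, h2, h3⟩ := hpar x hx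
    refine ⟨t, h1, h2, h3, ?_⟩
    rw [h1, Nat.add_sub_cancel_left, Nat.mul_div_cancel_left _ hb'0]
  have hcard : S'.card = S.card := by
    apply Finset.card_image_of_injOn
    intro x hx y hy hxy
    simp only at hxy
    obtain ⟨t, h1, h2, h3, h4⟩ := hval x hx
    obtain ⟨s, h1', h2', h3', h4'⟩ := hval y hy
    rw [h4, h4'] at hxy
    subst hxy
    exact Prod.ext (h1.trans h1'.symm) (h2.trans h2'.symm)
  set T := Y / b' + 1 with hT
  have hsub : S' ⊆ range T := by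
    intro t ht
    obtain ⟨x, hx, rfl⟩ := Finset.mem_image.mp ht
    obtain ⟨t, h1, h2, h3, h4⟩ := hval x hx
    rw [Finset.mem_range, h4]
    omega
  have hgood : ∀ t ∈ S', ∀ e ∈ Gset (2 * E) z, ∀ l ∈ e.primeFactors, ¬ bad l t := by
    intro t ht e he l hl hb
    obtain ⟨x, hx, rfl⟩ := Finset.mem_image.mp ht
    obtain ⟨t, h1, h2, h3, h4⟩ := hval x hx
    obtain ⟨g1, _, _, _, _, g6⟩ := (hmem e he).2.2 l hl
    obtain ⟨p1, p2, p3, p4⟩ := hp x hx
    rw [← hz2] at p3 p4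
    simp only [hbad] at hb
    rw [h4, ← h1, ← h2] at hb
    rcases hb with hb | hb
    · have := (Nat.prime_dvd_prime_iff_eq g1 p1).mp hb
      omega
    · have := (Nat.prime_dvd_prime_iff_eq g1 p2).mp hb
      omega
  have hsieve := sieve_bound D T S' hsub hgood ⟨1, hone⟩
  rw [hcard] at hsieve
  set G := ∑ e ∈ Gset (2 * E) z, Hw bad e with hG
  have hBE := one_le_B E
  have hl4 := log_four_ge
  have hG1 : 1 ≤ G := by
    have h1 : Hw bad 1 = 1 := by simp [Hw]
    rw [← h1, hG]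
    exact Finset.single_le_sum (f := fun e => Hw bad e) (fun e he => (Hw_pos D he).le) hone
  have hGlow : (N : ℝ) ^ 2 / (10 * B E ^ 2) ≤ G := by
    have h1 : ∑ e ∈ Gset (2 * E) z, wt (fun l => 2 / (l : ℝ)) e ≤ G := by
      apply Finset.sum_le_sum
      intro e he
      unfold wt Hw
      apply Finset.prod_le_prod
      · intro l _; positivity
      · intro l hl
        obtain ⟨g1, g2, g3, g4, g5, _⟩ := (hmem e he).2.2 l hl
        rw [hnu l g1 g3 g4 g5]
        have h3 : (2 : ℝ) < l := by exact_mod_cast g2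
        push_cast
        apply div_le_div_of_nonneg_left (by norm_num) (by linarith) (by linarith)
    have h2 := G2 (2 * E) (4 ^ N)
    have h3 := G1 (E := 2 * E) (by positivity) (4 ^ N)
    have h4 : Real.log ((4 ^ N : ℕ) : ℝ) = N * Real.log 4 := by
      push_cast; rw [Real.log_pow]
    rw [h4] at h3
    have h5 : B (2 * E) ≤ 3 / 2 * B E := by
      rw [← B_two]; exact B_mul_le two_ne_zero hE0
    set s := ∑ e ∈ Gset (2 * E) (4 ^ N), 1 / (e : ℝ) with hs
    have hs0 : 0 ≤ s := Finset.sum_nonneg (fun e _ => inv_nonneg' e)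
    have h6 : (N : ℝ) * Real.log 4 ≤ 3 * B E * s := by
      calc (N : ℝ) * Real.log 4 ≤ 2 * B (2 * E) * s := h3
        _ ≤ 2 * (3 / 2 * B E) * s := by gcongr
        _ = 3 * B E * s := by ring
    have h7 : (1.386 : ℝ) * N ≤ 3 * B E * s := by
      calc (1.386 : ℝ) * N = N * 1.386 := by ring
        _ ≤ N * Real.log 4 := by gcongr
        _ ≤ _ := h6
    have h8 : ((1.386 : ℝ) * N) ^ 2 ≤ (3 * B E * s) ^ 2 := by
      apply pow_le_pow_left₀ (by positivity) h7
    rw [div_le_iff₀ (by positivity)]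
    have h9 : (3 * B E * s) ^ 2 = 9 * B E ^ 2 * s ^ 2 := by ring
    rw [h9] at h8
    have h10 : s ^ 2 ≤ 2 * G := h2.trans (by linarith)
    have h11 : 9 * B E ^ 2 * s ^ 2 ≤ 9 * B E ^ 2 * (2 * G) := by gcongr
    nlinarith
  have hGpos : 0 < G := by linarith
  have hTle : (T : ℝ) ≤ (Y : ℝ) * g / b + 1 := by
    rw [hT]
    push_cast
    have h3 : ((Y / b' : ℕ) : ℝ) ≤ (Y : ℝ) / (b' : ℝ) := Nat.cast_div_le
    have h4 : (Y : ℝ) * g / b = (Y : ℝ) / b' := by
      rw [hb']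
      push_cast
      have : (g : ℝ) ≠ 0 := by exact_mod_cast hg0.ne'
      have : (b' : ℝ) ≠ 0 := by exact_mod_cast hb'0.ne'
      field_simp
    rw [h4]
    linarith
  have hBle : B E ≤ B a * B b * B (Int.natAbs ((k : ℤ) - k')) := by
    have h1 : E ∣ a * b * Int.natAbs ((k : ℤ) - k') := by
      rw [hE]
      apply mul_dvd_mul (mul_dvd_mul _ _) _
      · rw [ha']; exact Dvd.intro_left _ rfl
      · rw [hb']; exact Dvd.intro_left _ rfl
      · rw [hh]; exact Dvd.intro_left _ rfl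
    have h2 : a * b * Int.natAbs ((k : ℤ) - k') ≠ 0 := by positivity
    calc B E ≤ B (a * b * Int.natAbs ((k : ℤ) - k')) := B_le_of_dvd h2 h1
      _ ≤ B (a * b) * B (Int.natAbs ((k : ℤ) - k')) := B_mul_le (by positivity) hd0
      _ ≤ (B a * B b) * B (Int.natAbs ((k : ℤ) - k')) := by
          apply mul_le_mul_of_nonneg_right (B_mul_le ha.ne' hb.ne')
          have := one_le_B (Int.natAbs ((k : ℤ) - k'))
          linarith
  have hTG : (T : ℝ) / G ≤ (Y : ℝ) * g / b *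
      (10 * (B a * B b * B (Int.natAbs ((k : ℤ) - k'))) ^ 2 / N ^ 2) + 1 := by
    calc (T : ℝ) / G ≤ ((Y : ℝ) * g / b + 1) / G := by
          apply div_le_div_of_nonneg_right hTle hGpos.le
      _ = (Y : ℝ) * g / b * (1 / G) + 1 / G := by ring
      _ ≤ (Y : ℝ) * g / b * (10 * B E ^ 2 / N ^ 2) + 1 := by
          apply add_le_add
          · apply mul_le_mul_of_nonneg_left _ (by positivity)
            have h1 : (0 : ℝ) < (N : ℝ) ^ 2 / (10 * B E ^ 2) := by positivity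
            calc 1 / G ≤ 1 / ((N : ℝ) ^ 2 / (10 * B E ^ 2)) :=
                  one_div_le_one_div_of_le h1 hGlow
              _ = 10 * B E ^ 2 / N ^ 2 := by rw [one_div_div]
          · rw [div_le_one hGpos]; exact hG1
      _ ≤ _ := by
          have h1 : B E ^ 2 ≤ (B a * B b * B (Int.natAbs ((k : ℤ) - k'))) ^ 2 :=
            pow_le_pow_left₀ (by linarith) hBle 2
          gcongr
  have hz4 : (z : ℝ) ^ 4 = 4 ^ (8 * N) := by
    rw [hz2]; push_cast; rw [← pow_mul]; congr 1; ring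
  rw [hz4] at hsieve
  linarith

end Pool.Agent.Helper403
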