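import Mathlib

set_option autoImplicit false

namespace Pool.Agent.Helper403

open Finset

/-- The sum over the primes dividing n of n divided by the exact prime power. -/
def W (n : ℕ) : ℕ := ∑ p ∈ n.primeFactors, n / p ^ (n.factorization p)

theorem W_mul {a b : ℕ} (h : Nat.Coprime a b) :
    W (a * b) = W a * b + a * W b := by
  unfold W
  rw [h.primeFactors_mul, Finset.sum_union (Nat.Coprime.disjoint_primeFactors h),
    Finset.sum_mul, Finset.mul_sum]
  congr 1
  · apply Finset.sum_congr rfl
    intro p hp
    have hpp := Nat.prime_of_mem_primeFactors hp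
    have hpa := Nat.dvd_of_mem_primeFactors hp
    rw [Nat.ordCompl_mul a b p]
    congr 1
    apply (Nat.ordCompl_eq_self_iff_zero_or_not_dvd b hpp).mpr
    right
    intro hpb
    exact hpp.one_lt.ne' (Nat.eq_one_of_dvd_coprimes h hpa hpb)
  · apply Finset.sum_congr rfl
    intro p hp
    have hpp := Nat.prime_of_mem_primeFactors hp
    have hpb := Nat.dvd_of_mem_primeFactors hp
    rw [Nat.ordCompl_mul a b p]
    congr 1
    apply (Nat.ordCompl_eq_self_iff_zero_or_not_dvd a hpp).mpr
    right
    intro hpa
    exact hpp.one_lt.ne' (Nat.eq_one_of_dvd_coprimes h hpa hpb)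

theorem W_prime {p : ℕ} (hp : p.Prime) : W p = 1 := by
  unfold W
  rw [hp.primeFactors, Finset.sum_singleton, hp.factorization_self, pow_one, Nat.div_self hp.pos]

/-- For q prime not dividing k, the value at k*q is linear in q. -/
theorem W_mul_prime {k q : ℕ} (hk : k ≠ 0) (hq : q.Prime) (h : ¬ q ∣ k) :
    W (k * q) = W k * q + k := by
  rw [W_mul ((Nat.Prime.coprime_iff_not_dvd hq).mpr h).symm, W_prime hq, mul_one]

theorem coprime_W {n : ℕ} (hn : n ≠ 0) : Nat.Coprime (W n) n := by
  rw [Nat.coprime_comm]
  apply Nat.coprime_of_dvd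
  intro l hl hln hlW
  have hmem : l ∈ n.primeFactors := Nat.mem_primeFactors.mpr ⟨hl, hln, hn⟩
  unfold W at hlW
  rw [← Finset.add_sum_erase _ _ hmem] at hlW
  have h2 : l ∣ ∑ x ∈ n.primeFactors.erase l, n / x ^ n.factorization x := by
    apply Finset.dvd_sum
    intro p hp
    have hpp := Nat.prime_of_mem_primeFactors (Finset.mem_of_mem_erase hp)
    have hne := Finset.ne_of_mem_erase hp
    have : ¬ p ∣ l := by
      intro h
      exact hne ((Nat.prime_dvd_prime_iff_eq hpp hl).mp h)
    exact Nat.dvd_ordCompl_of_dvd_not_dvd hln this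
  have h3 := (Nat.dvd_add_left h2).mp hlW
  exact Nat.not_dvd_ordCompl hl hn h3

theorem W_le_sq (n : ℕ) : W n ≤ n * n := by
  unfold W
  calc ∑ p ∈ n.primeFactors, n / p ^ (n.factorization p) ≤ ∑ p ∈ n.primeFactors, n :=
        Finset.sum_le_sum (fun p _ => Nat.div_le_self _ _)
    _ = n.primeFactors.card * n := by rw [Finset.sum_const, smul_eq_mul]
    _ ≤ n * n := by
        apply Nat.mul_le_mul_right
        calc n.primeFactors.card ≤ (Finset.Icc 1 n).card := by
              apply Finset.card_le_card
              intro p hp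
              rw [Finset.mem_Icc]
              exact ⟨(Nat.prime_of_mem_primeFactors hp).one_lt.le, Nat.le_of_mem_primeFactors hp⟩
          _ = n := by simp

/-- If n = 2 j with j odd then j is at most W n. -/
theorem le_W_two_mul {j : ℕ} (hj : Odd j) : j ≤ W (2 * j) := by
  have h0 : j ≠ 0 := by rintro rfl; simp at hj
  rw [W_mul (Nat.coprime_two_left.mpr hj), W_prime Nat.prime_two]
  omega

theorem W_pos {n : ℕ} (hn : 1 < n) : 0 < W n := by
  rcases Nat.eq_zero_or_pos (W n) with h | h
  · have := coprime_W (n := n) (by omega)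
    rw [h, Nat.coprime_zero_left] at this
    omega
  · exact h

end Pool.Agent.Helper403
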