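import Mathlib
import Pool.Agent.Helper403.BT
import Pool.Agent.Helper403.Wfun
import Pool.Agent.Helper403.Trunc

set_option autoImplicit false

namespace Pool.Agent.Helper403

open Finset

/-- residues modulo e that are roots of the quadratic -/
def roots (A B' C : ℤ) (e : ℕ) : Finset ℕ :=
  (range e).filter (fun x => (e : ℤ) ∣ A * (x : ℤ) ^ 2 + B' * x + C)

theorem quad_eq_zero {R : Type*} [CommRing R] {a b c : R}
    (h : Polynomial.C a * Polynomial.X ^ 2 + Polynomial.C b * Polynomial.X + Polynomial.C c = 0) :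
    a = 0 ∧ b = 0 ∧ c = 0 := by
  have h2 := congrArg (fun P => Polynomial.coeff P 2) h
  have h1 := congrArg (fun P => Polynomial.coeff P 1) h
  have h0 := congrArg (fun P => Polynomial.coeff P 0) h
  simp [Polynomial.coeff_X, Polynomial.coeff_C] at h2
  simp [Polynomial.coeff_X, Polynomial.coeff_C] at h1
  simp [Polynomial.coeff_X, Polynomial.coeff_C] at h0
  exact ⟨h2, h1, h0⟩

theorem card_roots_prime {A B' C : ℤ} {l : ℕ} (hl : l.Prime)
    (h : ¬ ((l : ℤ) ∣ A ∧ (l : ℤ) ∣ B' ∧ (l : ℤ) ∣ C)) : (roots A B' C l).card ≤ 2 := by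
  classical
  have : Fact l.Prime := ⟨hl⟩
  set P : Polynomial (ZMod l) := Polynomial.C (A : ZMod l) * Polynomial.X ^ 2 +
    Polynomial.C (B' : ZMod l) * Polynomial.X + Polynomial.C (C : ZMod l) with hP
  have hdeg : P.natDegree ≤ 2 := Polynomial.natDegree_quadratic_le
  have hP0 : P ≠ 0 := by
    intro h0
    apply h
    obtain ⟨h2, h1, h3⟩ := quad_eq_zero h0
    refine ⟨?_, ?_, ?_⟩
    · exact (ZMod.intCast_zmod_eq_zero_iff_dvd _ _).mp h2
    · exact (ZMod.intCast_zmod_eq_zero_iff_dvd _ _).mp h1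
    · exact (ZMod.intCast_zmod_eq_zero_iff_dvd _ _).mp h3
  have hcard : P.roots.toFinset.card ≤ 2 :=
    (Multiset.toFinset_card_le _).trans ((Polynomial.card_roots' P).trans hdeg)
  refine le_trans ?_ hcard
  apply Finset.card_le_card_of_injOn (fun x : ℕ => (x : ZMod l))
  · intro x hx
    simp only [roots, Finset.coe_filter, Finset.mem_range, Set.mem_ofPred_eq] at hx
    rw [Finset.mem_coe, Multiset.mem_toFinset, Polynomial.mem_roots hP0, Polynomial.IsRoot.def]
    have h1 := (ZMod.intCast_zmod_eq_zero_iff_dvd _ _).mpr hx.2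
    push_cast at h1
    simp [hP, h1]
  · intro x hx y hy hxy
    simp only [roots, Finset.coe_filter, Finset.mem_range, Set.mem_ofPred_eq] at hx hy
    simp only at hxy
    have h1 := (ZMod.natCast_eq_natCast_iff _ _ _).mp hxy
    exact Nat.ModEq.eq_of_lt_of_lt h1 hx.1 hy.1

theorem poly_congr {A B' C : ℤ} {l : ℕ} {x y : ℤ} (h : (l : ℤ) ∣ x - y) :
    (l : ℤ) ∣ (A * x ^ 2 + B' * x + C) ↔ (l : ℤ) ∣ (A * y ^ 2 + B' * y + C) := by
  have h1 : A * x ^ 2 + B' * x + C = (A * y ^ 2 + B' * y + C) +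
      (x - y) * (A * (x + y) + B') := by ring
  rw [h1]
  exact dvd_add_left (Dvd.dvd.mul_right h _)

theorem card_roots_le {A B' C : ℤ} {e : ℕ} (he : Squarefree e)
    (h : ∀ l ∈ e.primeFactors, ¬ ((l : ℤ) ∣ A ∧ (l : ℤ) ∣ B' ∧ (l : ℤ) ∣ C)) :
    (roots A B' C e).card ≤ 2 ^ e.primeFactors.card := by
  classical
  have h1 : (roots A B' C e).card ≤ (e.primeFactors.pi (fun l => roots A B' C l)).card := by
    apply Finset.card_le_card_of_injOn (fun x => (fun l _ => x % l))
    · intro x hx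
      simp only [roots, Finset.coe_filter, Finset.mem_range, Set.mem_ofPred_eq] at hx
      rw [Finset.mem_coe, Finset.mem_pi]
      intro l hl
      have hlp := Nat.prime_of_mem_primeFactors hl
      simp only [roots, Finset.mem_filter, Finset.mem_range]
      refine ⟨Nat.mod_lt _ hlp.pos, ?_⟩
      have hle : (l : ℤ) ∣ (e : ℤ) := by exact_mod_cast Nat.dvd_of_mem_primeFactors hl
      have h2 : (l : ℤ) ∣ ((x % l : ℕ) : ℤ) - (x : ℤ) := by
        have := Nat.mod_modEq x l
        have h3 := (Nat.modEq_iff_dvd).mp this.symm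
        exact h3
      rw [poly_congr h2]
      exact hle.trans hx.2
    · intro x hx y hy hxy
      simp only [roots, Finset.coe_filter, Finset.mem_range, Set.mem_ofPred_eq] at hx hy
      simp only at hxy
      have h2 : ∀ l ∈ e.primeFactors, l ∣ Int.natAbs ((y : ℤ) - x) := by
        intro l hl
        have h3 := congrFun (congrFun hxy l) hl
        have h4 : x ≡ y [MOD l] := h3
        exact Int.natCast_dvd.mp ((Nat.modEq_iff_dvd).mp h4)
      have h5 : e ∣ Int.natAbs ((y : ℤ) - x) := by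
        rw [← Nat.prod_primeFactors_of_squarefree he]
        apply Finset.prod_primes_dvd
        · intro l hl
          exact (Nat.prime_of_mem_primeFactors hl).prime
        · exact h2
      have h6 : x ≡ y [MOD e] := (Nat.modEq_iff_dvd).mpr (Int.natCast_dvd.mpr h5)
      exact Nat.ModEq.eq_of_lt_of_lt h6 hx.1 hy.1
  refine h1.trans ?_
  rw [Finset.card_pi, ← Finset.prod_const]
  apply Finset.prod_le_prod'
  intro l hl
  exact card_roots_prime (Nat.prime_of_mem_primeFactors hl) (h l hl)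

theorem sum_quadratic_le {N A0 e : ℕ} (hN : 1 ≤ N) (he : Squarefree e)
    (hA0 : e * 4 ^ (6 * N) ≤ 4 ^ A0) {A B' C : ℤ}
    (h : ∀ l ∈ e.primeFactors, ¬ ((l : ℤ) ∣ A ∧ (l : ℤ) ∣ B' ∧ (l : ℤ) ∣ C))
    (S : Finset ℕ) (hS : ∀ p ∈ S, p.Prime ∧ 4 ^ A0 < p ∧ p ≤ 4 ^ (A0 + N))
    (hroot : ∀ p ∈ S, (e : ℤ) ∣ A * (p : ℤ) ^ 2 + B' * p + C) :
    ∑ p ∈ S, 1 / (p : ℝ) ≤ 2 ^ e.primeFactors.card * (7 * B e / e) := by
  have he0 : 0 < e := Nat.pos_of_ne_zero he.ne_zero
  have hmaps : ∀ p ∈ S, p % e ∈ roots A B' C e := by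
    intro p hp
    simp only [roots, Finset.mem_filter, Finset.mem_range]
    refine ⟨Nat.mod_lt _ he0, ?_⟩
    have h2 : (e : ℤ) ∣ ((p % e : ℕ) : ℤ) - (p : ℤ) := by
      have := Nat.mod_modEq p e
      exact (Nat.modEq_iff_dvd).mp this.symm
    rw [poly_congr h2]
    exact hroot p hp
  rw [← Finset.sum_fiberwise_of_maps_to hmaps]
  have hB := one_le_B e
  calc ∑ j ∈ roots A B' C e, ∑ p ∈ S.filter (fun p => p % e = j), 1 / (p : ℝ)
      ≤ ∑ j ∈ roots A B' C e, 7 * B e / e := by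
        apply Finset.sum_le_sum
        intro j _
        apply bt_log hN he0 hA0
        · intro p hp
          exact hS p (Finset.mem_filter.mp hp).1
        · intro p hp q hq
          have h1 := (Finset.mem_filter.mp hp).2
          have h2 := (Finset.mem_filter.mp hq).2
          exact h1.trans h2.symm
    _ = (roots A B' C e).card * (7 * B e / e) := by rw [Finset.sum_const, nsmul_eq_mul]
    _ ≤ _ := by
        apply mul_le_mul_of_nonneg_right _ (by positivity)
        exact_mod_cast card_roots_le he h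

/-- The determinant attached to two integers. -/
def Delta (l l' : ℕ) : ℤ := (l : ℤ) ^ 2 * W l' - (l' : ℤ) ^ 2 * W l

theorem Delta_ne_zero {l l' : ℕ} (hl : l ≠ 0) (hl' : l' ≠ 0) (h : l ≠ l') : Delta l l' ≠ 0 := by
  intro h0
  apply h
  have h1 : l ^ 2 * W l' = l' ^ 2 * W l := by
    unfold Delta at h0
    have : (l : ℤ) ^ 2 * W l' = (l' : ℤ) ^ 2 * W l := by linarith
    exact_mod_cast this
  have c1 : Nat.Coprime (l ^ 2) (W l) := Nat.Coprime.pow_left 2 (coprime_W hl).symm
  have c2 : Nat.Coprime (l' ^ 2) (W l') := Nat.Coprime.pow_left 2 (coprime_W hl').symm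
  have d1 : l ^ 2 ∣ l' ^ 2 := by
    apply c1.dvd_of_dvd_mul_right
    rw [← h1]; exact Dvd.intro _ rfl
  have d2 : l' ^ 2 ∣ l ^ 2 := by
    apply c2.dvd_of_dvd_mul_right
    rw [h1]; exact Dvd.intro _ rfl
  exact Nat.dvd_antisymm ((Nat.pow_dvd_pow_iff two_ne_zero).mp d1)
    ((Nat.pow_dvd_pow_iff two_ne_zero).mp d2)

theorem dvd_Delta {d l l' p p' a a' : ℤ} (h1 : d ∣ a * p + l) (h2 : d ∣ a' * p' + l')
    (h3 : d ∣ l * p - l' * p') : d ∣ l ^ 2 * a' - l' ^ 2 * a := by
  have h4 : l ^ 2 * a' - l' ^ 2 * a = (a * p + l) * (l * a') - (a' * p' + l') * (l' * a)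
      - (l * p - l' * p') * (a * a') := by ring
  rw [h4]
  exact dvd_sub (dvd_sub (Dvd.dvd.mul_right h1 _) (Dvd.dvd.mul_right h2 _))
    (Dvd.dvd.mul_right h3 _)

/-- The sum over primes r with e dividing the determinant. -/
theorem sum_Delta_le {N A0 e l k : ℕ} (hN : 1 ≤ N) (he : Squarefree e) (hl : l ≠ 0) (hk : k ≠ 0)
    (hA0 : e * 4 ^ (6 * N) ≤ 4 ^ A0)
    (S : Finset ℕ) (hS : ∀ p ∈ S, p.Prime ∧ 4 ^ A0 < p ∧ p ≤ 4 ^ (A0 + N))
    (hkS : k ≤ 4 ^ A0) (hroot : ∀ p ∈ S, (e : ℤ) ∣ Delta l (k * p)) :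
    ∑ p ∈ S, 1 / (p : ℝ) ≤ 7 * wt (fun _ => 4) e * Nat.gcd e (Nat.gcd l k) / e := by
  set v := Nat.gcd l k with hv
  set u := Nat.gcd e v with hu
  have he0 : 0 < e := Nat.pos_of_ne_zero he.ne_zero
  have hu0 : 0 < u := Nat.gcd_pos_of_pos_left _ he0
  obtain ⟨f, hf⟩ : u ∣ e := Nat.gcd_dvd_left e v
  have hf0 : 0 < f := by
    rcases Nat.eq_zero_or_pos f with h | h
    · rw [h, mul_zero] at hf; omega
    · exact h
  have hfsq : Squarefree f := by rw [hf] at he; exact he.of_mul_right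
  have hcop : Nat.Coprime u f := by
    have : Squarefree (u * f) := by rw [← hf]; exact he
    exact Nat.coprime_of_squarefree_mul this
  have hfle : f ≤ e := Nat.le_of_dvd he0 ⟨u, by rw [hf, mul_comm]⟩
  have hcond : ∀ s ∈ f.primeFactors, ¬ ((s : ℤ) ∣ (-((k : ℤ) ^ 2 * W l)) ∧
      (s : ℤ) ∣ ((l : ℤ) ^ 2 * W k) ∧ (s : ℤ) ∣ ((l : ℤ) ^ 2 * k)) := by
    rintro s hs ⟨g1, g2, g3⟩
    have hsp := Nat.prime_of_mem_primeFactors hs
    have hsf := Nat.dvd_of_mem_primeFactors hs
    have hse : s ∣ e := hsf.trans ⟨u, by rw [hf, mul_comm]⟩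
    have hsv : ¬ s ∣ v := by
      intro h
      have : s ∣ u := Nat.dvd_gcd hse h
      exact hsp.one_lt.ne' (Nat.eq_one_of_dvd_coprimes hcop this hsf)
    rw [dvd_neg] at g1
    have g1' : s ∣ k ^ 2 * W l := by exact_mod_cast g1
    have g2' : s ∣ l ^ 2 * W k := by exact_mod_cast g2
    have g3' : s ∣ l ^ 2 * k := by exact_mod_cast g3
    by_cases hsl : s ∣ l
    · have h1 : ¬ s ∣ W l := by
        intro h
        exact hsp.one_lt.ne' (Nat.eq_one_of_dvd_coprimes (coprime_W hl) h hsl)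
      rcases (hsp.dvd_mul).mp g1' with h2 | h2
      · have h3 := hsp.dvd_of_dvd_pow h2
        exact hsv (Nat.dvd_gcd hsl h3)
      · exact h1 h2
    · have h1 : s ∣ k := by
        rcases (hsp.dvd_mul).mp g3' with h2 | h2
        · exact absurd (hsp.dvd_of_dvd_pow h2) hsl
        · exact h2
      have h3 : s ∣ W k := by
        rcases (hsp.dvd_mul).mp g2' with h2 | h2
        · exact absurd (hsp.dvd_of_dvd_pow h2) hsl
        · exact h2
      exact hsp.one_lt.ne' (Nat.eq_one_of_dvd_coprimes (coprime_W hk) h3 h1)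
  have hA0' : f * 4 ^ (6 * N) ≤ 4 ^ A0 := (Nat.mul_le_mul_right _ hfle).trans hA0
  have hmain := sum_quadratic_le hN hfsq hA0' hcond S hS ?_
  · refine hmain.trans ?_
    have h1 : (2 : ℝ) ^ f.primeFactors.card * B f ≤ wt (fun _ => 4) e := by
      have h2 : (2 : ℝ) ^ f.primeFactors.card = wt (fun _ => 2) f := by
        unfold wt; rw [Finset.prod_const]
      have h3 : wt (fun _ => (2 : ℝ)) f * wt (fun _ => 2) f = wt (fun _ => 4) f := by
        rw [wt_mul_fun]; norm_num
      have h4 : wt (fun _ => (4 : ℝ)) f ≤ wt (fun _ => 4) e := by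
        unfold wt
        rw [Finset.prod_const, Finset.prod_const]
        apply pow_le_pow_right₀ (by norm_num)
        apply Finset.card_le_card
        exact Nat.primeFactors_mono ⟨u, by rw [hf, mul_comm]⟩ he.ne_zero
      calc (2 : ℝ) ^ f.primeFactors.card * B f
          ≤ wt (fun _ => 2) f * wt (fun _ => 2) f := by
            rw [h2]
            apply mul_le_mul_of_nonneg_left (B_le_wt_two f)
            exact wt_nonneg (fun _ => by norm_num) f
        _ ≤ wt (fun _ => 4) e := by rw [h3]; exact h4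
    have hfr : (0 : ℝ) < f := by exact_mod_cast hf0
    have hur : (0 : ℝ) < u := by exact_mod_cast hu0
    have her : (e : ℝ) = u * f := by exact_mod_cast hf
    calc (2 : ℝ) ^ f.primeFactors.card * (7 * B f / f)
        = 7 * (2 ^ f.primeFactors.card * B f) / f := by ring
      _ ≤ 7 * wt (fun _ => 4) e / f := by gcongr
      _ = 7 * wt (fun _ => 4) e * u / e := by
          rw [her]
          field_simp
  · intro p hp
    have h1 := hroot p hp
    have hpp := (hS p hp).1
    have hpk : ¬ p ∣ k := by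
      intro h
      have := Nat.le_of_dvd (Nat.pos_of_ne_zero hk) h
      have := (hS p hp).2.1
      omega
    have h2 : Delta l (k * p) = -((k : ℤ) ^ 2 * W l) * (p : ℤ) ^ 2 + ((l : ℤ) ^ 2 * W k) * p +
        (l : ℤ) ^ 2 * k := by
      unfold Delta
      rw [W_mul_prime hk hpp hpk]
      push_cast
      ring
    rw [← h2]
    have h3 : (f : ℤ) ∣ (e : ℤ) := by
      exact_mod_cast (⟨u, by rw [hf, mul_comm]⟩ : f ∣ e)
    exact h3.trans h1

end Pool.Agent.Helper403
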