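import Mathlib
import Pool.Agent.Helper403.Roots
import Pool.Agent.Helper403.Divs
import Pool.Agent.Helper403.APsum
import Pool.Agent.Helper403.Pairs

set_option autoImplicit false

namespace Pool.Agent.Helper403

open Finset

/-- primes in (4^A, 4^(A+N)] -/
def primesFrom (A N : ℕ) : Finset ℕ := (Ioc (4 ^ A) (4 ^ (A + N))).filter Nat.Prime

def Ml (N : ℕ) : Finset ℕ := (Icc 1 (4 ^ N)).filter Odd
def Rl (N : ℕ) : Finset ℕ := primesFrom (7 * N) N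
def Ll (N : ℕ) : Finset ℕ := ((Ml N) ×ˢ (Rl N)).image (fun x => 2 * x.1 * x.2)
def Pl (N : ℕ) : Finset ℕ := primesFrom (46 * N) N

theorem mem_primesFrom {A N p : ℕ} :
    p ∈ primesFrom A N ↔ p.Prime ∧ 4 ^ A < p ∧ p ≤ 4 ^ (A + N) := by
  unfold primesFrom
  rw [Finset.mem_filter, Finset.mem_Ioc]
  tauto

theorem mem_Ml {N m : ℕ} : m ∈ Ml N ↔ 1 ≤ m ∧ m ≤ 4 ^ N ∧ Odd m := by
  unfold Ml
  rw [Finset.mem_filter, Finset.mem_Icc]
  tauto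

theorem mem_Ll {N l : ℕ} : l ∈ Ll N ↔ ∃ m r, m ∈ Ml N ∧ r ∈ Rl N ∧ 2 * m * r = l := by
  unfold Ll
  rw [Finset.mem_image]
  constructor
  · rintro ⟨⟨m, r⟩, h1, h2⟩
    rw [Finset.mem_product] at h1
    exact ⟨m, r, h1.1, h1.2, h2⟩
  · rintro ⟨m, r, h1, h2, h3⟩
    exact ⟨(m, r), Finset.mem_product.mpr ⟨h1, h2⟩, h3⟩

theorem pow4_le {a b : ℕ} (h : a ≤ b) : 4 ^ a ≤ 4 ^ b := Nat.pow_le_pow_right (by norm_num) h

theorem Ll_injOn {N : ℕ} :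
    Set.InjOn (fun x : ℕ × ℕ => 2 * x.1 * x.2) ((Ml N ×ˢ Rl N : Finset (ℕ × ℕ)) : Set (ℕ × ℕ)) := by
  rintro ⟨m, r⟩ hx ⟨m', r'⟩ hy hxy
  simp only [Finset.coe_product, Set.mem_prod, Finset.mem_coe] at hx hy
  simp only at hxy
  obtain ⟨hm1, hm2, hm3⟩ := mem_Ml.mp hx.1
  obtain ⟨hm1', hm2', hm3'⟩ := mem_Ml.mp hy.1
  obtain ⟨hr1, hr2, hr3⟩ := mem_primesFrom.mp hx.2
  obtain ⟨hr1', hr2', hr3'⟩ := mem_primesFrom.mp hy.2
  have h7 : 4 ^ N ≤ 4 ^ (7 * N) := pow4_le (by omega)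
  have h1 : m * r = m' * r' := by
    have : 2 * (m * r) = 2 * (m' * r') := by rw [← mul_assoc, hxy, mul_assoc]
    omega
  have h2 : r ∣ m' * r' := by rw [← h1]; exact Dvd.intro_left _ rfl
  have h3 : r = r' := by
    rcases (hr1.dvd_mul).mp h2 with h | h
    · have := Nat.le_of_dvd (by omega) h
      omega
    · exact (Nat.prime_dvd_prime_iff_eq hr1 hr1').mp h
  subst h3
  have h4 : m = m' := Nat.eq_of_mul_eq_mul_right hr1.pos h1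
  rw [h4]

theorem sum_Ll {N : ℕ} (F : ℕ → ℝ) :
    ∑ l ∈ Ll N, F l = ∑ m ∈ Ml N, ∑ r ∈ Rl N, F (2 * m * r) := by
  unfold Ll
  rw [Finset.sum_image Ll_injOn, Finset.sum_product]

theorem Ll_bounds {N l : ℕ} (hN : 1 ≤ N) (hl : l ∈ Ll N) : 4 ^ (7 * N) < l ∧ l ≤ 4 ^ (10 * N) := by
  obtain ⟨m, r, hm, hr, rfl⟩ := mem_Ll.mp hl
  obtain ⟨hm1, hm2, hm3⟩ := mem_Ml.mp hm
  obtain ⟨hr1, hr2, hr3⟩ := mem_primesFrom.mp hr
  constructor
  · calc 4 ^ (7 * N) < r := hr2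
      _ ≤ 2 * m * r := Nat.le_mul_of_pos_left _ (by omega)
  · calc 2 * m * r ≤ 4 ^ N * 4 ^ N * 4 ^ (7 * N + N) := by
          apply Nat.mul_le_mul _ hr3
          apply Nat.mul_le_mul _ hm2
          calc 2 ≤ 4 ^ 1 := by norm_num
            _ ≤ 4 ^ N := pow4_le hN
      _ = 4 ^ (10 * N) := by rw [← pow_add, ← pow_add]; congr 1; ring

theorem Ll_pos {N l : ℕ} (hN : 1 ≤ N) (hl : l ∈ Ll N) : 0 < l :=
  lt_of_le_of_lt (Nat.zero_le _) (Ll_bounds hN hl).1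

theorem Pl_bounds {N p : ℕ} (hp : p ∈ Pl N) : p.Prime ∧ 4 ^ (46 * N) < p ∧ p ≤ 4 ^ (47 * N) := by
  have h := mem_primesFrom.mp hp
  have h2 : 46 * N + N = 47 * N := by ring
  rw [h2] at h
  exact h

theorem not_dvd_Pl {N l p : ℕ} (hN : 1 ≤ N) (hl : l ∈ Ll N) (hp : p ∈ Pl N) : ¬ p ∣ l := by
  intro h
  have h1 := Nat.le_of_dvd (Ll_pos hN hl) h
  have h2 := (Ll_bounds hN hl).2
  have h3 := (Pl_bounds hp).2.1
  have h4 : 4 ^ (10 * N) ≤ 4 ^ (46 * N) := pow4_le (by omega)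
  omega

theorem W_lp {N l p : ℕ} (hN : 1 ≤ N) (hl : l ∈ Ll N) (hp : p ∈ Pl N) :
    W (l * p) = W l * p + l :=
  W_mul_prime (Ll_pos hN hl).ne' (Pl_bounds hp).1 (not_dvd_Pl hN hl hp)

theorem W_l_le {N l : ℕ} (hN : 1 ≤ N) (hl : l ∈ Ll N) : W l ≤ 4 ^ (20 * N) := by
  calc W l ≤ l * l := W_le_sq l
    _ ≤ 4 ^ (10 * N) * 4 ^ (10 * N) := Nat.mul_le_mul (Ll_bounds hN hl).2 (Ll_bounds hN hl).2
    _ = 4 ^ (20 * N) := by rw [← pow_add]; congr 1; ring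

/-- primes p with d dividing the value at l*p are congruent modulo d -/
theorem congr_of_dvd {N l p q d : ℕ} (hN : 1 ≤ N) (hl : l ∈ Ll N) (hp : p ∈ Pl N) (hq : q ∈ Pl N)
    (h1 : d ∣ W (l * p)) (h2 : d ∣ W (l * q)) : p ≡ q [MOD d] := by
  rw [W_lp hN hl hp] at h1
  rw [W_lp hN hl hq] at h2
  have hl0 := (Ll_pos hN hl).ne'
  have hcop : Nat.Coprime d (W l) := by
    apply Nat.coprime_of_dvd
    intro s hs hsd hsW
    have h3 : s ∣ l := (Nat.dvd_add_right (Dvd.dvd.mul_right hsW p)).mp (hsd.trans h1)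
    exact hs.one_lt.ne' (Nat.eq_one_of_dvd_coprimes (coprime_W hl0) hsW h3)
  have h4 : W l * p + l ≡ W l * q + l [MOD d] :=
    ((Nat.modEq_zero_iff_dvd).mpr h1).trans ((Nat.modEq_zero_iff_dvd).mpr h2).symm
  have h5 : W l * p ≡ W l * q [MOD d] := Nat.ModEq.add_right_cancel' l h4
  exact Nat.ModEq.cancel_left_of_coprime hcop h5

theorem bt_Pl {N l d : ℕ} (hN : 1 ≤ N) (hl : l ∈ Ll N) (hd : 1 ≤ d) (hdl : d ≤ 4 ^ (40 * N)) :
    ∑ p ∈ (Pl N).filter (fun p => d ∣ W (l * p)), 1 / (p : ℝ) ≤ 7 * B d / d := by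
  apply bt_log (A := 46 * N) hN hd
  · calc d * 4 ^ (6 * N) ≤ 4 ^ (40 * N) * 4 ^ (6 * N) := Nat.mul_le_mul_right _ hdl
      _ = 4 ^ (46 * N) := by rw [← pow_add]; congr 1; ring
  · intro p hp
    exact mem_primesFrom.mp (Finset.mem_filter.mp hp).1
  · intro p hp q hq
    rw [Finset.mem_filter] at hp hq
    exact congr_of_dvd hN hl hp.1 hq.1 hp.2 hq.2

theorem B_one : B 1 = 1 := by simp [B, Pf]

theorem sum_primesFrom_le {A N : ℕ} (hN : 1 ≤ N) (hA : 6 * N ≤ A) :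
    ∑ p ∈ primesFrom A N, 1 / (p : ℝ) ≤ 7 := by
  have h := bt_log (A := A) (d := 1) hN (le_refl _)
    (by rw [one_mul]; exact pow4_le hA) (primesFrom A N) (fun p hp => mem_primesFrom.mp hp)
    (fun p _ q _ => Nat.modEq_one)
  rw [B_one] at h
  norm_num at h ⊢
  exact h

theorem sum_Pl_le {N : ℕ} (hN : 1 ≤ N) : ∑ p ∈ Pl N, 1 / (p : ℝ) ≤ 7 :=
  sum_primesFrom_le hN (by omega)

theorem log_pow4 (k : ℕ) : Real.log ((4 ^ k : ℕ) : ℝ) = k * Real.log 4 := by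
  push_cast
  rw [Real.log_pow]

theorem one_add_log_le {N c : ℕ} (hN : 1 ≤ N) :
    1 + Real.log ((4 ^ (c * N) : ℕ) : ℝ) ≤ (1 + 1.3863 * c) * N := by
  have hNr : (1 : ℝ) ≤ N := by exact_mod_cast hN
  rw [log_pow4]
  push_cast
  have h := log_four_le
  have hc : (0 : ℝ) ≤ c := Nat.cast_nonneg c
  have : (c : ℝ) * N * Real.log 4 ≤ c * N * 1.3863 := by gcongr
  nlinarith

theorem sum_Ll_multiples {N d : ℕ} (hN : 1 ≤ N) (hd : 1 ≤ d) :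
    ∑ l ∈ (Ll N).filter (fun l => d ∣ l), 1 / (l : ℝ) ≤ 15 * N / d := by
  have h := sum_multiples_le (Y := 4 ^ (10 * N)) hd ((Ll N).filter (fun l => d ∣ l)) ?_
  · refine h.trans ?_
    apply div_le_div_of_nonneg_right _ (Nat.cast_nonneg d)
    have h1 := one_add_log_le (c := 10) hN
    have hNr : (1 : ℝ) ≤ N := by exact_mod_cast hN
    push_cast at h1 ⊢
    nlinarith
  · intro l hl
    rw [Finset.mem_filter] at hl
    exact ⟨Ll_pos hN hl.1, (Ll_bounds hN hl.1).2, hl.2⟩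

theorem sum_Ll_le {N : ℕ} (hN : 1 ≤ N) : ∑ l ∈ Ll N, 1 / (l : ℝ) ≤ 15 * N := by
  have h := sum_Ll_multiples (d := 1) hN (le_refl _)
  simpa using h

theorem sum_Ml_multiples {N d : ℕ} (hN : 1 ≤ N) (hd : 1 ≤ d) :
    ∑ m ∈ (Ml N).filter (fun m => d ∣ 2 * m), 1 / ((2 * m : ℕ) : ℝ) ≤ 15 * N / d := by
  have hinj : Set.InjOn (fun m : ℕ => 2 * m)
      (((Ml N).filter (fun m => d ∣ 2 * m) : Finset ℕ) : Set ℕ) := by
    intro a _ b _ hab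
    simp only at hab
    omega
  rw [← Finset.sum_image (f := fun x : ℕ => 1 / (x : ℝ)) hinj]
  have h := sum_multiples_le (Y := 4 ^ (10 * N)) hd
    (((Ml N).filter (fun m => d ∣ 2 * m)).image (fun m : ℕ => 2 * m)) ?_
  · refine h.trans ?_
    apply div_le_div_of_nonneg_right _ (Nat.cast_nonneg d)
    have h1 := one_add_log_le (c := 10) hN
    have hNr : (1 : ℝ) ≤ N := by exact_mod_cast hN
    push_cast at h1 ⊢
    nlinarith
  · intro x hx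
    obtain ⟨m, hm, rfl⟩ := Finset.mem_image.mp hx
    rw [Finset.mem_filter] at hm
    obtain ⟨h1, h2, h3⟩ := mem_Ml.mp hm.1
    refine ⟨by omega, ?_, hm.2⟩
    calc 2 * m ≤ 4 ^ N * 4 ^ N := by
          apply Nat.mul_le_mul _ h2
          calc 2 ≤ 4 ^ 1 := by norm_num
            _ ≤ 4 ^ N := pow4_le hN
      _ = 4 ^ (2 * N) := by rw [← pow_add]; congr 1; ring
      _ ≤ 4 ^ (10 * N) := pow4_le (by omega)

end Pool.Agent.Helper403
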