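import Mathlib
import Pool.Agent.Helper403.Sets

set_option autoImplicit false

namespace Pool.Agent.Helper403

open Finset

/-- gcd of the two values -/
def gg (k k' : ℕ) : ℕ := Nat.gcd (W k) (W k')

/-- distance of the two integers -/
def dd (k k' : ℕ) : ℕ := Int.natAbs ((k : ℤ) - k')

theorem W_lp_pos {N l p : ℕ} (hN : 1 ≤ N) (hl : l ∈ Ll N) (hp : p ∈ Pl N) : 0 < W (l * p) := by
  rw [W_lp hN hl hp]
  have := Ll_pos hN hl
  omega

theorem Delta_natAbs_le {N l l' : ℕ} (hN : 1 ≤ N) (hl : l ∈ Ll N) (hl' : l' ∈ Ll N) :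
    (Delta l l').natAbs ≤ 4 ^ (40 * N) := by
  have key : ∀ a b : ℕ, a ∈ Ll N → b ∈ Ll N → a ^ 2 * W b ≤ 4 ^ (40 * N) := by
    intro a b ha hb
    calc a ^ 2 * W b ≤ (4 ^ (10 * N)) ^ 2 * 4 ^ (20 * N) := by
          apply Nat.mul_le_mul _ (W_l_le hN hb)
          exact Nat.pow_le_pow_left (Ll_bounds hN ha).2 2
      _ = 4 ^ (40 * N) := by rw [← pow_mul, ← pow_add]; congr 1; ring
  have h1 := key l l' hl hl'
  have h2 := key l' l hl' hl
  unfold Delta
  have e1 : (l : ℤ) ^ 2 * W l' = ((l ^ 2 * W l' : ℕ) : ℤ) := by push_cast; ring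
  have e2 : (l' : ℤ) ^ 2 * W l = ((l' ^ 2 * W l : ℕ) : ℤ) := by push_cast; ring
  rw [e1, e2]
  omega

theorem gg_dvd_Delta {N l l' p p' : ℕ} (hN : 1 ≤ N) (hl : l ∈ Ll N) (hl' : l' ∈ Ll N)
    (hp : p ∈ Pl N) (hp' : p' ∈ Pl N) (h : gg (l * p) (l' * p') ∣ dd (l * p) (l' * p')) :
    gg (l * p) (l' * p') ∣ (Delta l l').natAbs := by
  set g := gg (l * p) (l' * p') with hg
  have h1 : (g : ℤ) ∣ (W l : ℤ) * p + l := by
    have : g ∣ W (l * p) := Nat.gcd_dvd_left _ _
    rw [W_lp hN hl hp] at this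
    exact_mod_cast this
  have h2 : (g : ℤ) ∣ (W l' : ℤ) * p' + l' := by
    have : g ∣ W (l' * p') := Nat.gcd_dvd_right _ _
    rw [W_lp hN hl' hp'] at this
    exact_mod_cast this
  have h3 : (g : ℤ) ∣ (l : ℤ) * p - l' * p' := by
    unfold dd at h
    have := Int.natCast_dvd.mpr h
    push_cast at this
    exact this
  exact Int.natCast_dvd.mp (dvd_Delta h1 h2 h3)

theorem sum_pp_le {N l l' : ℕ} (hN : 1 ≤ N) (hl : l ∈ Ll N) (hl' : l' ∈ Ll N) (hne : l ≠ l') :
    ∑ p ∈ Pl N, ∑ p' ∈ Pl N,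
      (if gg (l * p) (l' * p') ∣ dd (l * p) (l' * p') then
        (gg (l * p) (l' * p') : ℝ) * Real.sqrt (gg (l * p) (l' * p')) else 0) *
        (1 / (p : ℝ)) * (1 / (p' : ℝ))
      ≤ 49 * Pf (w 14) (Delta l l').natAbs := by
  classical
  set n := (Delta l l').natAbs with hn
  have hn0 : n ≠ 0 := by
    rw [hn, Ne, Int.natAbs_eq_zero]
    exact Delta_ne_zero (Ll_pos hN hl).ne' (Ll_pos hN hl').ne' hne
  have hnle := Delta_natAbs_le hN hl hl'
  rw [← hn] at hnle
  have hterm : ∀ p ∈ Pl N, ∀ p' ∈ Pl N,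
      (if gg (l * p) (l' * p') ∣ dd (l * p) (l' * p') then
        (gg (l * p) (l' * p') : ℝ) * Real.sqrt (gg (l * p) (l' * p')) else 0) *
        (1 / (p : ℝ)) * (1 / (p' : ℝ)) ≤
      ∑ d ∈ n.divisors, (d : ℝ) * Real.sqrt d *
        ((if d ∣ W (l * p) then 1 / (p : ℝ) else 0) *
         (if d ∣ W (l' * p') then 1 / (p' : ℝ) else 0)) := by
    intro p hp p' hp'
    have hnn : ∀ d ∈ n.divisors, 0 ≤ (d : ℝ) * Real.sqrt d *
        ((if d ∣ W (l * p) then 1 / (p : ℝ) else 0) *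
         (if d ∣ W (l' * p') then 1 / (p' : ℝ) else 0)) := by
      intro d _
      apply mul_nonneg (by positivity)
      apply mul_nonneg <;> split_ifs <;> positivity
    by_cases h : gg (l * p) (l' * p') ∣ dd (l * p) (l' * p')
    · rw [if_pos h]
      have h1 := gg_dvd_Delta hN hl hl' hp hp' h
      rw [← hn] at h1
      have h2 : gg (l * p) (l' * p') ∈ n.divisors := Nat.mem_divisors.mpr ⟨h1, hn0⟩
      refine le_trans ?_ (Finset.single_le_sum hnn h2)
      have g1 : gg (l * p) (l' * p') ∣ W (l * p) := Nat.gcd_dvd_left _ _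
      have g2 : gg (l * p) (l' * p') ∣ W (l' * p') := Nat.gcd_dvd_right _ _
      rw [if_pos g1, if_pos g2]
      exact le_of_eq (by ring)
    · rw [if_neg h, zero_mul, zero_mul]
      exact Finset.sum_nonneg hnn
  calc _ ≤ ∑ p ∈ Pl N, ∑ p' ∈ Pl N, ∑ d ∈ n.divisors, (d : ℝ) * Real.sqrt d *
        ((if d ∣ W (l * p) then 1 / (p : ℝ) else 0) *
         (if d ∣ W (l' * p') then 1 / (p' : ℝ) else 0)) :=
        Finset.sum_le_sum (fun p hp => Finset.sum_le_sum (fun p' hp' => hterm p hp p' hp'))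
    _ = ∑ d ∈ n.divisors, (d : ℝ) * Real.sqrt d *
        ((∑ p ∈ Pl N, if d ∣ W (l * p) then 1 / (p : ℝ) else 0) *
         (∑ p' ∈ Pl N, if d ∣ W (l' * p') then 1 / (p' : ℝ) else 0)) := by
        have e1 : ∀ p ∈ Pl N, ∑ p' ∈ Pl N, ∑ d ∈ n.divisors, (d : ℝ) * Real.sqrt d *
            ((if d ∣ W (l * p) then 1 / (p : ℝ) else 0) *
             (if d ∣ W (l' * p') then 1 / (p' : ℝ) else 0)) =
            ∑ d ∈ n.divisors, ∑ p' ∈ Pl N, (d : ℝ) * Real.sqrt d *
            ((if d ∣ W (l * p) then 1 / (p : ℝ) else 0) *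
             (if d ∣ W (l' * p') then 1 / (p' : ℝ) else 0)) := by
          intro p _
          rw [Finset.sum_comm]
        rw [Finset.sum_congr rfl e1, Finset.sum_comm]
        apply Finset.sum_congr rfl
        intro d _
        rw [Finset.sum_mul_sum, Finset.mul_sum]
        apply Finset.sum_congr rfl
        intro p _
        rw [Finset.mul_sum]
    _ ≤ ∑ d ∈ n.divisors, 49 * (wt (fun _ => 4) d / Real.sqrt d) := by
        apply Finset.sum_le_sum
        intro d hd
        rw [Nat.mem_divisors] at hd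
        have hd1 : 1 ≤ d := Nat.pos_of_dvd_of_pos hd.1 (Nat.pos_of_ne_zero hn0)
        have hd2 : d ≤ 4 ^ (40 * N) :=
          (Nat.le_of_dvd (Nat.pos_of_ne_zero hn0) hd.1).trans hnle
        have hdr : (1 : ℝ) ≤ d := by exact_mod_cast hd1
        have b1 := bt_Pl hN hl hd1 hd2
        have b2 := bt_Pl hN hl' hd1 hd2
        rw [Finset.sum_filter] at b1 b2
        have hB := one_le_B d
        have hB2 := B_le_wt_two d
        have hs : 0 < Real.sqrt d := Real.sqrt_pos.mpr (by linarith)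
        have hss : Real.sqrt d * Real.sqrt d = d := Real.mul_self_sqrt (by linarith)
        calc (d : ℝ) * Real.sqrt d *
            ((∑ p ∈ Pl N, if d ∣ W (l * p) then 1 / (p : ℝ) else 0) *
             (∑ p' ∈ Pl N, if d ∣ W (l' * p') then 1 / (p' : ℝ) else 0))
            ≤ (d : ℝ) * Real.sqrt d * ((7 * B d / d) * (7 * B d / d)) := by
              apply mul_le_mul_of_nonneg_left _ (by positivity)
              apply mul_le_mul b1 b2 _ (by positivity)
              apply Finset.sum_nonneg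
              intro p _
              split_ifs <;> positivity
          _ = 49 * (B d * B d) / Real.sqrt d := by
              rw [div_mul_div_comm, mul_div_assoc', div_eq_div_iff (by positivity) hs.ne']
              calc (d : ℝ) * Real.sqrt d * (7 * B d * (7 * B d)) * Real.sqrt d
                  = (Real.sqrt d * Real.sqrt d) * d * (49 * (B d * B d)) := by ring
                _ = 49 * (B d * B d) * (d * d) := by rw [hss]; ring
          _ ≤ 49 * (wt (fun _ => 2) d * wt (fun _ => 2) d) / Real.sqrt d := by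
              have hw : 0 ≤ wt (fun _ => (2 : ℝ)) d := by linarith
              gcongr
          _ = 49 * (wt (fun _ => 4) d / Real.sqrt d) := by
              rw [wt_mul_fun]
              norm_num
              ring
    _ = 49 * ∑ d ∈ n.divisors, wt (fun _ => 4) d / Real.sqrt d := by rw [Finset.mul_sum]
    _ ≤ 49 * Pf (w 14) n := by
        apply mul_le_mul_of_nonneg_left (sum_divisors_four_le n hn0) (by norm_num)


theorem mem_Esq {N e : ℕ} : e ∈ Esq N ↔ 1 ≤ e ∧ e ≤ 4 ^ N ∧ Squarefree e := by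
  unfold Esq
  rw [Finset.mem_filter, Finset.mem_Icc]
  tauto

theorem sum_gcd_le {N e : ℕ} (hN : 1 ≤ N) (he : Squarefree e) :
    ∑ l ∈ Ll N, ∑ m ∈ Ml N, (1 / (l : ℝ)) * (1 / ((2 * m : ℕ) : ℝ)) *
      (Nat.gcd e (Nat.gcd l (2 * m)) : ℝ) ≤ 225 * N ^ 2 * wt (fun _ => 2) e := by
  classical
  have he0 : 0 < e := Nat.pos_of_ne_zero he.ne_zero
  have hterm : ∀ l ∈ Ll N, ∀ m ∈ Ml N, (1 / (l : ℝ)) * (1 / ((2 * m : ℕ) : ℝ)) *
      (Nat.gcd e (Nat.gcd l (2 * m)) : ℝ) ≤
      ∑ u ∈ e.divisors, (u : ℝ) * ((if u ∣ l then 1 / (l : ℝ) else 0) *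
        (if u ∣ 2 * m then 1 / ((2 * m : ℕ) : ℝ) else 0)) := by
    intro l _ m _
    have hnn : ∀ u ∈ e.divisors, 0 ≤ (u : ℝ) * ((if u ∣ l then 1 / (l : ℝ) else 0) *
        (if u ∣ 2 * m then 1 / ((2 * m : ℕ) : ℝ) else 0)) := by
      intro u _
      apply mul_nonneg (Nat.cast_nonneg u)
      apply mul_nonneg <;> split_ifs <;> positivity
    have hmem : Nat.gcd e (Nat.gcd l (2 * m)) ∈ e.divisors :=
      Nat.mem_divisors.mpr ⟨Nat.gcd_dvd_left _ _, he0.ne'⟩
    refine le_trans ?_ (Finset.single_le_sum hnn hmem)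
    have h1 : Nat.gcd e (Nat.gcd l (2 * m)) ∣ l :=
      (Nat.gcd_dvd_right _ _).trans (Nat.gcd_dvd_left _ _)
    have h2 : Nat.gcd e (Nat.gcd l (2 * m)) ∣ 2 * m :=
      (Nat.gcd_dvd_right _ _).trans (Nat.gcd_dvd_right _ _)
    rw [if_pos h1, if_pos h2]
    exact le_of_eq (by ring)
  calc _ ≤ ∑ l ∈ Ll N, ∑ m ∈ Ml N, ∑ u ∈ e.divisors, (u : ℝ) *
        ((if u ∣ l then 1 / (l : ℝ) else 0) *
        (if u ∣ 2 * m then 1 / ((2 * m : ℕ) : ℝ) else 0)) :=
        Finset.sum_le_sum (fun l hl => Finset.sum_le_sum (fun m hm => hterm l hl m hm))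
    _ = ∑ u ∈ e.divisors, (u : ℝ) * ((∑ l ∈ Ll N, if u ∣ l then 1 / (l : ℝ) else 0) *
        (∑ m ∈ Ml N, if u ∣ 2 * m then 1 / ((2 * m : ℕ) : ℝ) else 0)) := by
        have e1 : ∀ l ∈ Ll N, ∑ m ∈ Ml N, ∑ u ∈ e.divisors, (u : ℝ) *
            ((if u ∣ l then 1 / (l : ℝ) else 0) *
            (if u ∣ 2 * m then 1 / ((2 * m : ℕ) : ℝ) else 0)) =
            ∑ u ∈ e.divisors, ∑ m ∈ Ml N, (u : ℝ) *
            ((if u ∣ l then 1 / (l : ℝ) else 0) *
            (if u ∣ 2 * m then 1 / ((2 * m : ℕ) : ℝ) else 0)) := by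
          intro l _
          rw [Finset.sum_comm]
        rw [Finset.sum_congr rfl e1, Finset.sum_comm]
        apply Finset.sum_congr rfl
        intro u _
        rw [Finset.sum_mul_sum, Finset.mul_sum]
        apply Finset.sum_congr rfl
        intro l _
        rw [Finset.mul_sum]
    _ ≤ ∑ u ∈ e.divisors, 225 * (N : ℝ) ^ 2 := by
        apply Finset.sum_le_sum
        intro u hu
        have hu1 : 1 ≤ u := Nat.pos_of_mem_divisors hu
        have hur : (1 : ℝ) ≤ u := by exact_mod_cast hu1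
        have b1 := sum_Ll_multiples hN hu1
        have b2 := sum_Ml_multiples hN hu1
        rw [Finset.sum_filter] at b1 b2
        calc (u : ℝ) * ((∑ l ∈ Ll N, if u ∣ l then 1 / (l : ℝ) else 0) *
            (∑ m ∈ Ml N, if u ∣ 2 * m then 1 / ((2 * m : ℕ) : ℝ) else 0))
            ≤ (u : ℝ) * ((15 * N / u) * (15 * N / u)) := by
              apply mul_le_mul_of_nonneg_left _ (Nat.cast_nonneg u)
              apply mul_le_mul b1 b2 _ (by positivity)
              apply Finset.sum_nonneg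
              intro p _
              split_ifs <;> positivity
          _ = 225 * (N : ℝ) ^ 2 / u := by
              field_simp
              ring
          _ ≤ 225 * (N : ℝ) ^ 2 := div_le_self (by positivity) hur
    _ = 225 * N ^ 2 * wt (fun _ => 2) e := by
        rw [Finset.sum_const, nsmul_eq_mul, card_divisors_squarefree he]
        ring

theorem sum_l'_le {N e l : ℕ} (hN : 1 ≤ N) (he : e ∈ Esq N) (hl : l ∈ Ll N) :
    ∑ l' ∈ Ll N, (if e ∣ (Delta l l').natAbs then 1 / (l' : ℝ) else 0) ≤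
      ∑ m ∈ Ml N, (1 / ((2 * m : ℕ) : ℝ)) *
        (7 * wt (fun _ => 4) e * Nat.gcd e (Nat.gcd l (2 * m)) / e) := by
  rw [sum_Ll]
  apply Finset.sum_le_sum
  intro m hm
  obtain ⟨he1, he2, he3⟩ := mem_Esq.mp he
  obtain ⟨hm1, hm2, hm3⟩ := mem_Ml.mp hm
  have h1 : ∀ r ∈ Rl N, (if e ∣ (Delta l (2 * m * r)).natAbs then
      1 / ((2 * m * r : ℕ) : ℝ) else 0) =
      (1 / ((2 * m : ℕ) : ℝ)) * (if e ∣ (Delta l (2 * m * r)).natAbs then 1 / (r : ℝ) else 0) := by
    intro r _
    split_ifs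
    · push_cast
      rw [one_div_mul_one_div]
    · rw [mul_zero]
  rw [Finset.sum_congr rfl h1, ← Finset.mul_sum, ← Finset.sum_filter]
  apply mul_le_mul_of_nonneg_left _ (by positivity)
  apply sum_Delta_le (A0 := 7 * N) hN he3 (Ll_pos hN hl).ne' (by omega)
  · calc e * 4 ^ (6 * N) ≤ 4 ^ N * 4 ^ (6 * N) := Nat.mul_le_mul_right _ he2
      _ = 4 ^ (7 * N) := by rw [← pow_add]; congr 1; ring
  · intro p hp
    exact mem_primesFrom.mp (Finset.mem_filter.mp hp).1
  · calc 2 * m ≤ 4 ^ N * 4 ^ N := by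
          apply Nat.mul_le_mul _ hm2
          calc 2 ≤ 4 ^ 1 := by norm_num
            _ ≤ 4 ^ N := pow4_le hN
      _ = 4 ^ (2 * N) := by rw [← pow_add]; congr 1; ring
      _ ≤ 4 ^ (7 * N) := pow4_le (by omega)
  · intro p hp
    exact Int.natCast_dvd.mpr (Finset.mem_filter.mp hp).2

theorem sum_e_le {N e : ℕ} (hN : 1 ≤ N) (he : e ∈ Esq N) :
    ∑ l ∈ Ll N, ∑ l' ∈ Ll N, (1 / (l : ℝ)) *
      (if e ∣ (Delta l l').natAbs then 1 / (l' : ℝ) else 0) ≤
      1575 * N ^ 2 * (wt (fun _ => 8) e / e) := by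
  obtain ⟨he1, he2, he3⟩ := mem_Esq.mp he
  have her : (1 : ℝ) ≤ e := by exact_mod_cast he1
  calc _ ≤ ∑ l ∈ Ll N, (1 / (l : ℝ)) * ∑ m ∈ Ml N, (1 / ((2 * m : ℕ) : ℝ)) *
        (7 * wt (fun _ => 4) e * Nat.gcd e (Nat.gcd l (2 * m)) / e) := by
        apply Finset.sum_le_sum
        intro l hl
        rw [← Finset.mul_sum]
        apply mul_le_mul_of_nonneg_left (sum_l'_le hN he hl) (by positivity)
    _ = (7 * wt (fun _ => 4) e / e) * ∑ l ∈ Ll N, ∑ m ∈ Ml N,
        (1 / (l : ℝ)) * (1 / ((2 * m : ℕ) : ℝ)) * (Nat.gcd e (Nat.gcd l (2 * m)) : ℝ) := by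
        rw [Finset.mul_sum]
        apply Finset.sum_congr rfl
        intro l _
        rw [Finset.mul_sum, Finset.mul_sum]
        apply Finset.sum_congr rfl
        intro m _
        ring
    _ ≤ (7 * wt (fun _ => 4) e / e) * (225 * N ^ 2 * wt (fun _ => 2) e) := by
        apply mul_le_mul_of_nonneg_left (sum_gcd_le hN he3)
        have := wt_nonneg (f := fun _ => (4 : ℝ)) (fun _ => by norm_num) e
        positivity
    _ = 1575 * N ^ 2 * (wt (fun _ => 4) e * wt (fun _ => 2) e / e) := by ring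
    _ = 1575 * N ^ 2 * (wt (fun _ => 8) e / e) := by
        rw [wt_mul_fun]
        norm_num

/-- the bound for the sum of g^(3/2) -/
theorem SI : ∃ C : ℝ, 0 < C ∧ ∃ N0 : ℕ, ∀ N : ℕ, N0 ≤ N → 1 ≤ N →
    ∑ l ∈ Ll N, ∑ l' ∈ Ll N, (if l ≠ l' then (1 / (l : ℝ)) * (1 / (l' : ℝ)) *
      ∑ p ∈ Pl N, ∑ p' ∈ Pl N,
      (if gg (l * p) (l' * p') ∣ dd (l * p) (l' * p') then
        (gg (l * p) (l' * p') : ℝ) * Real.sqrt (gg (l * p) (l' * p')) else 0) *
        (1 / (p : ℝ)) * (1 / (p' : ℝ)) else 0) ≤ C * N ^ 2 := by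
  classical
  obtain ⟨N0, hN0⟩ := trunc_expansion (c := 14) (by norm_num)
  refine ⟨98 * 1575 * Kc 112, by have := Kc_pos 112; positivity, N0, ?_⟩
  intro N hNN hN
  calc _ ≤ ∑ l ∈ Ll N, ∑ l' ∈ Ll N, 98 * ∑ e ∈ Esq N, wt (w 14) e * ((1 / (l : ℝ)) *
        (if e ∣ (Delta l l').natAbs then 1 / (l' : ℝ) else 0)) := by
        apply Finset.sum_le_sum
        intro l hl
        apply Finset.sum_le_sum
        intro l' hl'
        have hrhs : 98 * ∑ e ∈ Esq N, wt (w 14) e * ((1 / (l : ℝ)) *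
            (if e ∣ (Delta l l').natAbs then 1 / (l' : ℝ) else 0)) =
            (1 / (l : ℝ)) * (1 / (l' : ℝ)) * (49 * (2 *
              ∑ e ∈ (Esq N).filter (fun e => e ∣ (Delta l l').natAbs), wt (w 14) e)) := by
          rw [Finset.sum_filter, Finset.mul_sum, Finset.mul_sum, Finset.mul_sum, Finset.mul_sum]
          apply Finset.sum_congr rfl
          intro e _
          split_ifs <;> ring
        rw [hrhs]
        split_ifs with hne
        · apply mul_le_mul_of_nonneg_left _ (by positivity)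
          refine (sum_pp_le hN hl hl' hne).trans ?_
          apply mul_le_mul_of_nonneg_left _ (by norm_num)
          apply hN0 N _ hNN
          · rw [Ne, Int.natAbs_eq_zero]
            exact Delta_ne_zero (Ll_pos hN hl).ne' (Ll_pos hN hl').ne' hne
          · exact (Delta_natAbs_le hN hl hl').trans (pow4_le (by omega))
        · apply mul_nonneg (by positivity)
          apply mul_nonneg (by norm_num)
          apply mul_nonneg (by norm_num)
          exact Finset.sum_nonneg (fun e _ => wt_nonneg (w_nonneg (by norm_num)) e)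
    _ = 98 * ∑ e ∈ Esq N, wt (w 14) e * ∑ l ∈ Ll N, ∑ l' ∈ Ll N, (1 / (l : ℝ)) *
        (if e ∣ (Delta l l').natAbs then 1 / (l' : ℝ) else 0) := by
        have e1 : ∀ l ∈ Ll N, ∑ l' ∈ Ll N, 98 * ∑ e ∈ Esq N, wt (w 14) e * ((1 / (l : ℝ)) *
            (if e ∣ (Delta l l').natAbs then 1 / (l' : ℝ) else 0)) =
            98 * ∑ e ∈ Esq N, wt (w 14) e * ∑ l' ∈ Ll N, ((1 / (l : ℝ)) *
            (if e ∣ (Delta l l').natAbs then 1 / (l' : ℝ) else 0)) := by
          intro l _
          rw [← Finset.mul_sum, Finset.sum_comm]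
          congr 1
          apply Finset.sum_congr rfl
          intro e _
          rw [Finset.mul_sum]
        rw [Finset.sum_congr rfl e1, ← Finset.mul_sum, Finset.sum_comm]
        congr 1
        apply Finset.sum_congr rfl
        intro e _
        rw [Finset.mul_sum]
    _ ≤ 98 * ∑ e ∈ Esq N, wt (w 14) e * (1575 * N ^ 2 * (wt (fun _ => 8) e / e)) := by
        apply mul_le_mul_of_nonneg_left _ (by norm_num)
        apply Finset.sum_le_sum
        intro e he
        apply mul_le_mul_of_nonneg_left (sum_e_le hN he)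
        exact wt_nonneg (w_nonneg (by norm_num)) e
    _ = 98 * 1575 * N ^ 2 * ∑ e ∈ Esq N, wt (fun l => 112 / ((l : ℝ) * Real.sqrt l)) e := by
        rw [Finset.mul_sum, Finset.mul_sum]
        apply Finset.sum_congr rfl
        intro e he
        have h1 : wt (fun _ => (8 : ℝ)) e / e = wt (fun l => 8 / (l : ℝ)) e :=
          (wt_const_div_of_squarefree (mem_Esq.mp he).2.2 8).symm
        have h2 : wt (fun l => 112 / ((l : ℝ) * Real.sqrt l)) e =
            wt (w 14) e * wt (fun l => 8 / (l : ℝ)) e := by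
          rw [wt_mul_fun]
          unfold wt w
          apply Finset.prod_congr rfl
          intro l _
          show 112 / ((l : ℝ) * Real.sqrt l) = 14 / Real.sqrt l * (8 / (l : ℝ))
          rw [div_mul_div_comm]
          congr 1
          · norm_num
          · ring
        rw [h1, h2]
        ring
    _ ≤ 98 * 1575 * N ^ 2 * Kc 112 := by
        apply mul_le_mul_of_nonneg_left _ (by positivity)
        exact sum_wt_three_halves (by norm_num) (Esq N) (fun e he => (mem_Esq.mp he).2.2)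
    _ = 98 * 1575 * Kc 112 * N ^ 2 := by ring

end Pool.Agent.Helper403
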