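import Mathlib
import Pool.Agent.Helper403.SumI

set_option autoImplicit false

namespace Pool.Agent.Helper403

open Finset

theorem B_mul_wt {e : ℕ} (he : Squarefree e) (c : ℝ) (hc : 0 ≤ c) :
    wt (w c) e * (7 * B e / e) ≤ 7 * wt (fun l => (2 * c) / ((l : ℝ) * Real.sqrt l)) e := by
  have h1 : wt (fun _ => (2 : ℝ)) e / e = wt (fun l => 2 / (l : ℝ)) e :=
    (wt_const_div_of_squarefree he 2).symm
  have h2 : wt (fun l => (2 * c) / ((l : ℝ) * Real.sqrt l)) e =
      wt (w c) e * wt (fun l => 2 / (l : ℝ)) e := by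
    rw [wt_mul_fun]
    unfold wt w
    apply Finset.prod_congr rfl
    intro l _
    show 2 * c / ((l : ℝ) * Real.sqrt l) = c / Real.sqrt l * (2 / (l : ℝ))
    rw [div_mul_div_comm]
    congr 1
    · ring
    · ring
  have h3 := wt_nonneg (w_nonneg hc) e
  have h4 := B_le_wt_two e
  have h5 : (0 : ℝ) ≤ e := Nat.cast_nonneg e
  rw [h2, ← h1]
  calc wt (w c) e * (7 * B e / e) = 7 * (wt (w c) e * (B e / e)) := by ring
    _ ≤ 7 * (wt (w c) e * (wt (fun _ => 2) e / e)) := by gcongr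

theorem SII : ∃ C : ℝ, 0 < C ∧ ∃ N0 : ℕ, ∀ N : ℕ, N0 ≤ N → 1 ≤ N →
    ∑ l ∈ Ll N, ∑ p ∈ Pl N, (1 / (l : ℝ)) * (1 / (p : ℝ)) * B (W (l * p)) ^ 18 ≤ C * N := by
  classical
  set c : ℝ := 2 ^ 18 with hc
  have hc0 : 0 ≤ c := by positivity
  obtain ⟨N0, hN0⟩ := trunc_expansion (c := c) hc0
  refine ⟨210 * Kc (2 * c), by have := Kc_pos (2 * c); positivity, N0, ?_⟩
  intro N hNN hN
  have hinner : ∀ l ∈ Ll N, ∑ p ∈ Pl N, (1 / (l : ℝ)) * (1 / (p : ℝ)) * B (W (l * p)) ^ 18 ≤
      (1 / (l : ℝ)) * (14 * Kc (2 * c)) := by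
    intro l hl
    calc ∑ p ∈ Pl N, (1 / (l : ℝ)) * (1 / (p : ℝ)) * B (W (l * p)) ^ 18
        ≤ ∑ p ∈ Pl N, (1 / (l : ℝ)) * (2 * ∑ e ∈ Esq N, wt (w c) e *
          (if e ∣ W (l * p) then 1 / (p : ℝ) else 0)) := by
          apply Finset.sum_le_sum
          intro p hp
          rw [mul_assoc]
          apply mul_le_mul_of_nonneg_left _ (by positivity)
          have h1 := B_pow_le (W (l * p)) 18
          have hle : W (l * p) ≤ 4 ^ (100 * N) := by
            rw [W_lp hN hl hp]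
            have g1 : W l * p ≤ 4 ^ (20 * N) * 4 ^ (47 * N) :=
              Nat.mul_le_mul (W_l_le hN hl) (Pl_bounds hp).2.2
            rw [← pow_add] at g1
            have g2 : 4 ^ (20 * N + 47 * N) ≤ 4 ^ (99 * N) := pow4_le (by omega)
            have g3 : l ≤ 4 ^ (99 * N) := (Ll_bounds hN hl).2.trans (pow4_le (by omega))
            have g4 : 4 ^ (99 * N) * 4 ≤ 4 ^ (100 * N) := by
              rw [← pow_succ]; exact pow4_le (by omega)
            omega
          have h2 := hN0 N (W (l * p)) hNN (W_lp_pos hN hl hp).ne' hle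
          calc (1 / (p : ℝ)) * B (W (l * p)) ^ 18
              ≤ (1 / (p : ℝ)) * (2 * ∑ e ∈ (Esq N).filter (fun e => e ∣ W (l * p)),
                wt (w c) e) := by
                apply mul_le_mul_of_nonneg_left (h1.trans h2) (by positivity)
            _ = _ := by
                rw [Finset.sum_filter, Finset.mul_sum, Finset.mul_sum, Finset.mul_sum]
                apply Finset.sum_congr rfl
                intro e _
                split_ifs <;> ring
      _ = (1 / (l : ℝ)) * (2 * ∑ e ∈ Esq N, wt (w c) e *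
          ∑ p ∈ Pl N, (if e ∣ W (l * p) then 1 / (p : ℝ) else 0)) := by
          rw [← Finset.mul_sum, ← Finset.mul_sum, Finset.sum_comm]
          congr 2
          apply Finset.sum_congr rfl
          intro e _
          rw [Finset.mul_sum]
      _ ≤ (1 / (l : ℝ)) * (2 * ∑ e ∈ Esq N,
          7 * wt (fun l => (2 * c) / ((l : ℝ) * Real.sqrt l)) e) := by
          apply mul_le_mul_of_nonneg_left _ (by positivity)
          apply mul_le_mul_of_nonneg_left _ (by norm_num)
          apply Finset.sum_le_sum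
          intro e he
          obtain ⟨he1, he2, he3⟩ := mem_Esq.mp he
          refine le_trans ?_ (B_mul_wt he3 c hc0)
          apply mul_le_mul_of_nonneg_left _ (wt_nonneg (w_nonneg hc0) e)
          rw [← Finset.sum_filter]
          exact bt_Pl hN hl he1 (he2.trans (pow4_le (by omega)))
      _ ≤ (1 / (l : ℝ)) * (14 * Kc (2 * c)) := by
          apply mul_le_mul_of_nonneg_left _ (by positivity)
          rw [← Finset.mul_sum]
          have := sum_wt_three_halves (c := 2 * c) (by positivity) (Esq N)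
            (fun e he => (mem_Esq.mp he).2.2)
          linarith
  calc _ ≤ ∑ l ∈ Ll N, (1 / (l : ℝ)) * (14 * Kc (2 * c)) := Finset.sum_le_sum hinner
    _ = (∑ l ∈ Ll N, 1 / (l : ℝ)) * (14 * Kc (2 * c)) := by rw [Finset.sum_mul]
    _ ≤ (15 * N) * (14 * Kc (2 * c)) := by
        apply mul_le_mul_of_nonneg_right (sum_Ll_le hN)
        have := Kc_pos (2 * c)
        positivity
    _ = 210 * Kc (2 * c) * N := by ring

theorem dd_comm (k k' : ℕ) : dd k k' = dd k' k := by
  unfold dd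
  rw [← Int.natAbs_neg]
  congr 1
  ring

theorem dd_of_lt {k k' : ℕ} (h : k' < k) : dd k k' = k - k' := by
  unfold dd
  omega

theorem sum_above_Pf {c : ℝ} (hc : 0 ≤ c) (Y k' : ℕ) :
    ∑ k ∈ (Icc 1 Y).filter (fun k => k' < k), (1 / (k : ℝ)) * Pf (w c) (dd k k') ≤
      (1 + Real.log Y) * Kc c := by
  classical
  have hlog : 0 ≤ Real.log Y := Real.log_natCast_nonneg Y
  set A := (Icc 1 Y).filter Squarefree with hA
  calc ∑ k ∈ (Icc 1 Y).filter (fun k => k' < k), (1 / (k : ℝ)) * Pf (w c) (dd k k')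
      ≤ ∑ k ∈ (Icc 1 Y).filter (fun k => k' < k), ∑ e ∈ A, wt (w c) e *
        (if e ∣ k - k' then 1 / (k : ℝ) else 0) := by
        apply Finset.sum_le_sum
        intro k hk
        rw [Finset.mem_filter, Finset.mem_Icc] at hk
        rw [dd_of_lt hk.2, Pf_eq_sum (by omega : k - k' ≠ 0), Finset.mul_sum]
        have h1 : ∀ e ∈ A, wt (w c) e * (if e ∣ k - k' then 1 / (k : ℝ) else 0) =
            if e ∣ k - k' then (1 / (k : ℝ)) * wt (w c) e else 0 := by
          intro e _
          split_ifs <;> ring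
        rw [Finset.sum_congr rfl h1, ← Finset.sum_filter]
        apply Finset.sum_le_sum_of_subset_of_nonneg
        · intro e he
          rw [Finset.mem_filter, Nat.mem_divisors] at he
          rw [Finset.mem_filter, hA, Finset.mem_filter, Finset.mem_Icc]
          have h2 := Nat.le_of_dvd (by omega) he.1.1
          exact ⟨⟨⟨Nat.pos_of_ne_zero he.2.ne_zero, by omega⟩, he.2⟩, he.1.1⟩
        · intro e _ _
          exact mul_nonneg (by positivity) (wt_nonneg (w_nonneg hc) e)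
    _ = ∑ e ∈ A, wt (w c) e * ∑ k ∈ ((Icc 1 Y).filter (fun k => k' < k)).filter
        (fun k => e ∣ k - k'), 1 / (k : ℝ) := by
        rw [Finset.sum_comm]
        apply Finset.sum_congr rfl
        intro e _
        rw [← Finset.mul_sum, Finset.sum_filter (fun k => e ∣ k - k')]
    _ ≤ ∑ e ∈ A, (1 + Real.log Y) * wt (fun l => c / ((l : ℝ) * Real.sqrt l)) e := by
        apply Finset.sum_le_sum
        intro e he
        rw [hA, Finset.mem_filter, Finset.mem_Icc] at he
        have h1 : wt (fun l => c / ((l : ℝ) * Real.sqrt l)) e = wt (w c) e * (1 / e) := by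
          rw [← wt_inv_of_squarefree he.2, wt_mul_fun]
          unfold wt w
          apply Finset.prod_congr rfl
          intro l _
          show c / ((l : ℝ) * Real.sqrt l) = c / Real.sqrt l * (1 / (l : ℝ))
          rw [div_mul_div_comm]
          congr 1
          · ring
          · ring
        rw [h1]
        have h2 := sum_above_le (p := k') (Y := Y) he.1.1
          (((Icc 1 Y).filter (fun k => k' < k)).filter (fun k => e ∣ k - k')) ?_
        · refine (mul_le_mul_of_nonneg_left h2 (wt_nonneg (w_nonneg hc) e)).trans ?_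
          exact le_of_eq (by ring)
        · intro x hx
          rw [Finset.mem_filter, Finset.mem_filter, Finset.mem_Icc] at hx
          exact ⟨hx.1.2, hx.1.1.2, hx.2⟩
    _ = (1 + Real.log Y) * ∑ e ∈ A, wt (fun l => c / ((l : ℝ) * Real.sqrt l)) e := by
        rw [Finset.mul_sum]
    _ ≤ (1 + Real.log Y) * Kc c := by
        apply mul_le_mul_of_nonneg_left _ (by linarith)
        apply sum_wt_three_halves hc
        intro e he
        rw [hA, Finset.mem_filter] at he
        exact he.2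

theorem sum_pairs_Pf {c : ℝ} (hc : 0 ≤ c) (Y : ℕ) :
    ∑ k ∈ Icc 1 Y, ∑ k' ∈ Icc 1 Y, (if k ≠ k' then
      (1 / (k : ℝ)) * (1 / (k' : ℝ)) * Pf (w c) (dd k k') else 0) ≤
      2 * (1 + Real.log Y) ^ 2 * Kc c := by
  classical
  have hlog : 0 ≤ Real.log Y := Real.log_natCast_nonneg Y
  have hP : ∀ n, 0 ≤ Pf (w c) n := fun n => by
    have := one_le_Pf (w_nonneg hc) n
    linarith
  have hsplit : ∀ k ∈ Icc 1 Y, ∀ k' ∈ Icc 1 Y, (if k ≠ k' then
      (1 / (k : ℝ)) * (1 / (k' : ℝ)) * Pf (w c) (dd k k') else 0) =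
      (if k' < k then (1 / (k' : ℝ)) * ((1 / (k : ℝ)) * Pf (w c) (dd k k')) else 0) +
      (if k < k' then (1 / (k : ℝ)) * ((1 / (k' : ℝ)) * Pf (w c) (dd k' k)) else 0) := by
    intro k _ k' _
    rcases lt_trichotomy k k' with h | h | h
    · rw [if_pos (by omega), if_neg (by omega), if_pos h, dd_comm]
      ring
    · rw [if_neg (by omega), if_neg (by omega), if_neg (by omega)]
      ring
    · rw [if_pos (by omega), if_pos h, if_neg (by omega)]
      ring
  have hhalf : ∑ k' ∈ Icc 1 Y, ∑ k ∈ Icc 1 Y,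
      (if k' < k then (1 / (k' : ℝ)) * ((1 / (k : ℝ)) * Pf (w c) (dd k k')) else 0) ≤
      (1 + Real.log Y) ^ 2 * Kc c := by
    calc _ = ∑ k' ∈ Icc 1 Y, (1 / (k' : ℝ)) *
          ∑ k ∈ (Icc 1 Y).filter (fun k => k' < k), (1 / (k : ℝ)) * Pf (w c) (dd k k') := by
          apply Finset.sum_congr rfl
          intro k' _
          rw [← Finset.sum_filter, Finset.mul_sum]
      _ ≤ ∑ k' ∈ Icc 1 Y, (1 / (k' : ℝ)) * ((1 + Real.log Y) * Kc c) := by
          apply Finset.sum_le_sum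
          intro k' _
          exact mul_le_mul_of_nonneg_left (sum_above_Pf hc Y k') (by positivity)
      _ = (∑ k' ∈ Icc 1 Y, 1 / (k' : ℝ)) * ((1 + Real.log Y) * Kc c) := by rw [Finset.sum_mul]
      _ ≤ (1 + Real.log Y) * ((1 + Real.log Y) * Kc c) := by
          apply mul_le_mul_of_nonneg_right (sum_inv_le_log Y)
          have := Kc_pos c
          positivity
      _ = _ := by ring
  calc _ = ∑ k ∈ Icc 1 Y, ∑ k' ∈ Icc 1 Y,
      ((if k' < k then (1 / (k' : ℝ)) * ((1 / (k : ℝ)) * Pf (w c) (dd k k')) else 0) +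
      (if k < k' then (1 / (k : ℝ)) * ((1 / (k' : ℝ)) * Pf (w c) (dd k' k)) else 0)) :=
        Finset.sum_congr rfl (fun k hk => Finset.sum_congr rfl (fun k' hk' => hsplit k hk k' hk'))
    _ = ∑ k ∈ Icc 1 Y, ∑ k' ∈ Icc 1 Y,
      (if k' < k then (1 / (k' : ℝ)) * ((1 / (k : ℝ)) * Pf (w c) (dd k k')) else 0) +
      ∑ k ∈ Icc 1 Y, ∑ k' ∈ Icc 1 Y,
      (if k < k' then (1 / (k : ℝ)) * ((1 / (k' : ℝ)) * Pf (w c) (dd k' k)) else 0) := by
        rw [← Finset.sum_add_distrib]
        apply Finset.sum_congr rfl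
        intro k _
        rw [Finset.sum_add_distrib]
    _ ≤ (1 + Real.log Y) ^ 2 * Kc c + (1 + Real.log Y) ^ 2 * Kc c := by
        apply add_le_add
        · rw [Finset.sum_comm]
          exact hhalf
        · exact hhalf
    _ = _ := by ring

theorem lp_injOn {N : ℕ} (hN : 1 ≤ N) :
    Set.InjOn (fun x : ℕ × ℕ => x.1 * x.2) ((Ll N ×ˢ Pl N : Finset (ℕ × ℕ)) : Set (ℕ × ℕ)) := by
  rintro ⟨l, p⟩ hx ⟨l', p'⟩ hy hxy
  simp only [Finset.coe_product, Set.mem_prod, Finset.mem_coe] at hx hy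
  simp only at hxy
  have hp := (Pl_bounds hx.2).1
  have hp' := (Pl_bounds hy.2).1
  have h2 : p ∣ l' * p' := by rw [← hxy]; exact Dvd.intro_left _ rfl
  have h3 : p = p' := by
    rcases (hp.dvd_mul).mp h2 with h | h
    · exact absurd h (not_dvd_Pl hN hy.1 hx.2)
    · exact (Nat.prime_dvd_prime_iff_eq hp hp').mp h
  subst h3
  have h4 : l = l' := Nat.eq_of_mul_eq_mul_right hp.pos hxy
  rw [h4]

theorem lp_bounds {N l p : ℕ} (hN : 1 ≤ N) (hl : l ∈ Ll N) (hp : p ∈ Pl N) :
    1 ≤ l * p ∧ l * p ≤ 4 ^ (57 * N) := by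
  constructor
  · exact Nat.mul_pos (Ll_pos hN hl) (Pl_bounds hp).1.pos
  · calc l * p ≤ 4 ^ (10 * N) * 4 ^ (47 * N) :=
        Nat.mul_le_mul (Ll_bounds hN hl).2 (Pl_bounds hp).2.2
      _ = 4 ^ (57 * N) := by rw [← pow_add]; congr 1; ring

theorem SIII : ∃ C : ℝ, 0 < C ∧ ∀ N : ℕ, 1 ≤ N →
    ∑ x ∈ Ll N ×ˢ Pl N, ∑ y ∈ Ll N ×ˢ Pl N, (if x ≠ y then
      (1 / ((x.1 * x.2 : ℕ) : ℝ)) * (1 / ((y.1 * y.2 : ℕ) : ℝ)) *
      B (dd (x.1 * x.2) (y.1 * y.2)) ^ 18 else 0) ≤ C * N ^ 2 := by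
  classical
  set c : ℝ := 2 ^ 18 with hc
  have hc0 : 0 ≤ c := by positivity
  refine ⟨2 * 6561 * Kc c, by have := Kc_pos c; positivity, ?_⟩
  intro N hN
  set F : ℕ → ℕ → ℝ := fun k k' => if k ≠ k' then
      (1 / (k : ℝ)) * (1 / (k' : ℝ)) * Pf (w c) (dd k k') else 0 with hF
  have hP : ∀ n, 0 ≤ Pf (w c) n := fun n => by
    have := one_le_Pf (w_nonneg hc0) n
    linarith
  have hF0 : ∀ k k', 0 ≤ F k k' := by
    intro k k'
    simp only [hF]
    split_ifs
    · exact mul_nonneg (by positivity) (hP _)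
    · exact le_refl _
  have hinj := lp_injOn hN
  set KK := (Ll N ×ˢ Pl N).image (fun x : ℕ × ℕ => x.1 * x.2) with hKK
  have hsub : KK ⊆ Icc 1 (4 ^ (57 * N)) := by
    intro k hk
    obtain ⟨⟨l, p⟩, hx, rfl⟩ := Finset.mem_image.mp hk
    rw [Finset.mem_product] at hx
    rw [Finset.mem_Icc]
    exact lp_bounds hN hx.1 hx.2
  calc _ ≤ ∑ x ∈ Ll N ×ˢ Pl N, ∑ y ∈ Ll N ×ˢ Pl N, F (x.1 * x.2) (y.1 * y.2) := by
        apply Finset.sum_le_sum
        intro x hx
        apply Finset.sum_le_sum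
        intro y hy
        by_cases hxy : x = y
        · rw [if_neg (by simpa using hxy)]
          exact hF0 _ _
        · have hk : x.1 * x.2 ≠ y.1 * y.2 := by
            intro h
            exact hxy (hinj (Finset.mem_coe.mpr hx) (Finset.mem_coe.mpr hy) h)
          rw [if_pos hxy]
          simp only [hF]
          rw [if_pos hk]
          apply mul_le_mul_of_nonneg_left (B_pow_le _ 18) (by positivity)
    _ = ∑ k ∈ KK, ∑ k' ∈ KK, F k k' := by
        rw [hKK, Finset.sum_image hinj]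
        apply Finset.sum_congr rfl
        intro x _
        rw [Finset.sum_image hinj]
    _ ≤ ∑ k ∈ Icc 1 (4 ^ (57 * N)), ∑ k' ∈ Icc 1 (4 ^ (57 * N)), F k k' := by
        calc ∑ k ∈ KK, ∑ k' ∈ KK, F k k' ≤ ∑ k ∈ KK, ∑ k' ∈ Icc 1 (4 ^ (57 * N)), F k k' := by
              apply Finset.sum_le_sum
              intro k _
              exact Finset.sum_le_sum_of_subset_of_nonneg hsub (fun _ _ _ => hF0 _ _)
          _ ≤ _ := Finset.sum_le_sum_of_subset_of_nonneg hsub
              (fun k _ _ => Finset.sum_nonneg (fun _ _ => hF0 _ _))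
    _ ≤ 2 * (1 + Real.log ((4 ^ (57 * N) : ℕ) : ℝ)) ^ 2 * Kc c := sum_pairs_Pf hc0 _
    _ ≤ 2 * (81 * N) ^ 2 * Kc c := by
        have h1 := one_add_log_le (c := 57) hN
        have hlog : 0 ≤ Real.log ((4 ^ (57 * N) : ℕ) : ℝ) := Real.log_natCast_nonneg _
        have hNr : (1 : ℝ) ≤ N := by exact_mod_cast hN
        have h2 : 1 + Real.log ((4 ^ (57 * N) : ℕ) : ℝ) ≤ 81 * N := by
          push_cast at h1 ⊢
          nlinarith
        have h3 := Kc_pos c
        have h4 : (1 + Real.log ((4 ^ (57 * N) : ℕ) : ℝ)) ^ 2 ≤ (81 * (N : ℝ)) ^ 2 :=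
          pow_le_pow_left₀ (by linarith) h2 2
        nlinarith
    _ = 2 * 6561 * Kc c * N ^ 2 := by ring

end Pool.Agent.Helper403
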