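import Mathlib
import Pool.Agent.Helper403.SumII

set_option autoImplicit false

namespace Pool.Agent.Helper403

open Finset

theorem gg_comm (k k' : ℕ) : gg k k' = gg k' k := Nat.gcd_comm _ _

theorem sum_half_le {N l : ℕ} (hN : 1 ≤ N) (hl : l ∈ Ll N) :
    ∑ p ∈ Pl N, ∑ p' ∈ Pl N, (if p < p' then
      (gg (l * p) (l * p') : ℝ) * (1 / (p : ℝ)) * (1 / (p' : ℝ)) else 0) ≤
      67 * N * 4 ^ N + (67 * N) ^ 3 := by
  classical
  have hNr : (1 : ℝ) ≤ N := by exact_mod_cast hN
  set D := Icc 1 (4 ^ (47 * N)) with hD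
  set L : ℝ := 1 + Real.log ((4 ^ (47 * N) : ℕ) : ℝ) with hL
  have hL1 : L ≤ 67 * N := by
    have h1 := one_add_log_le (c := 47) hN
    rw [hL]
    push_cast at h1 ⊢
    nlinarith
  have hL0 : 0 ≤ L := by
    have := Real.log_natCast_nonneg (4 ^ (47 * N))
    rw [hL]; linarith
  have hterm : ∀ p ∈ Pl N, ∀ p' ∈ Pl N, (if p < p' then
      (gg (l * p) (l * p') : ℝ) * (1 / (p : ℝ)) * (1 / (p' : ℝ)) else 0) ≤
      ∑ d ∈ D, (d : ℝ) * ((if d ∣ W (l * p) then 1 / (p : ℝ) else 0) *
        (if p < p' ∧ d ∣ p' - p then 1 / (p' : ℝ) else 0)) := by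
    intro p hp p' hp'
    have hnn : ∀ d ∈ D, 0 ≤ (d : ℝ) * ((if d ∣ W (l * p) then 1 / (p : ℝ) else 0) *
        (if p < p' ∧ d ∣ p' - p then 1 / (p' : ℝ) else 0)) := by
      intro d _
      apply mul_nonneg (Nat.cast_nonneg d)
      apply mul_nonneg <;> split_ifs <;> positivity
    by_cases hlt : p < p'
    · rw [if_pos hlt]
      have g1 : gg (l * p) (l * p') ∣ W (l * p) := Nat.gcd_dvd_left _ _
      have g2 : gg (l * p) (l * p') ∣ W (l * p') := Nat.gcd_dvd_right _ _
      have g3 : gg (l * p) (l * p') ∣ p' - p :=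
        (Nat.modEq_iff_dvd' hlt.le).mp (congr_of_dvd hN hl hp hp' g1 g2)
      have g4 : gg (l * p) (l * p') ≤ p' - p := Nat.le_of_dvd (by omega) g3
      have g5 : 0 < gg (l * p) (l * p') := Nat.gcd_pos_of_pos_left _ (W_lp_pos hN hl hp)
      have hmem : gg (l * p) (l * p') ∈ D := by
        rw [hD, Finset.mem_Icc]
        have := (Pl_bounds hp').2.2
        omega
      refine le_trans ?_ (Finset.single_le_sum hnn hmem)
      rw [if_pos g1, if_pos ⟨hlt, g3⟩]
      exact le_of_eq (by ring)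
    · rw [if_neg hlt]
      exact Finset.sum_nonneg hnn
  calc _ ≤ ∑ p ∈ Pl N, ∑ p' ∈ Pl N, ∑ d ∈ D, (d : ℝ) *
        ((if d ∣ W (l * p) then 1 / (p : ℝ) else 0) *
        (if p < p' ∧ d ∣ p' - p then 1 / (p' : ℝ) else 0)) :=
        Finset.sum_le_sum (fun p hp => Finset.sum_le_sum (fun p' hp' => hterm p hp p' hp'))
    _ = ∑ d ∈ D, ∑ p ∈ Pl N, (d : ℝ) * ((if d ∣ W (l * p) then 1 / (p : ℝ) else 0) *
        ∑ p' ∈ Pl N, (if p < p' ∧ d ∣ p' - p then 1 / (p' : ℝ) else 0)) := by
        have e1 : ∀ p ∈ Pl N, ∑ p' ∈ Pl N, ∑ d ∈ D, (d : ℝ) *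
            ((if d ∣ W (l * p) then 1 / (p : ℝ) else 0) *
            (if p < p' ∧ d ∣ p' - p then 1 / (p' : ℝ) else 0)) =
            ∑ d ∈ D, (d : ℝ) * ((if d ∣ W (l * p) then 1 / (p : ℝ) else 0) *
            ∑ p' ∈ Pl N, (if p < p' ∧ d ∣ p' - p then 1 / (p' : ℝ) else 0)) := by
          intro p _
          rw [Finset.sum_comm]
          apply Finset.sum_congr rfl
          intro d _
          rw [Finset.mul_sum, Finset.mul_sum]
        rw [Finset.sum_congr rfl e1, Finset.sum_comm]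
    _ ≤ ∑ d ∈ D, (L / 4 ^ (46 * N) + L ^ 2 * (1 / (d : ℝ))) := by
        apply Finset.sum_le_sum
        intro d hd
        rw [hD, Finset.mem_Icc] at hd
        have hd1 := hd.1
        have hdr : (1 : ℝ) ≤ d := by exact_mod_cast hd1
        have h1 : ∀ p ∈ Pl N, ∑ p' ∈ Pl N, (if p < p' ∧ d ∣ p' - p then 1 / (p' : ℝ) else 0) ≤
            L / d := by
          intro p _
          rw [← Finset.sum_filter]
          apply sum_above_le (p := p) hd1
          intro x hx
          rw [Finset.mem_filter] at hx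
          exact ⟨hx.2.1, (Pl_bounds hx.1).2.2, hx.2.2⟩
        calc ∑ p ∈ Pl N, (d : ℝ) * ((if d ∣ W (l * p) then 1 / (p : ℝ) else 0) *
              ∑ p' ∈ Pl N, (if p < p' ∧ d ∣ p' - p then 1 / (p' : ℝ) else 0))
            ≤ ∑ p ∈ Pl N, (d : ℝ) * ((if d ∣ W (l * p) then 1 / (p : ℝ) else 0) * (L / d)) := by
              apply Finset.sum_le_sum
              intro p hp
              apply mul_le_mul_of_nonneg_left _ (Nat.cast_nonneg d)
              apply mul_le_mul_of_nonneg_left (h1 p hp)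
              split_ifs <;> positivity
          _ = L * ∑ p ∈ (Pl N).filter (fun p => d ∣ W (l * p)), 1 / (p : ℝ) := by
              rw [Finset.sum_filter, Finset.mul_sum]
              apply Finset.sum_congr rfl
              intro p _
              field_simp
          _ ≤ L * (1 / ((4 ^ (46 * N) : ℕ) : ℝ) + L / d) := by
              apply mul_le_mul_of_nonneg_left _ hL0
              apply sum_congruent_le hd1 (Nat.one_le_pow _ _ (by norm_num))
              · intro x hx
                have := Pl_bounds (Finset.mem_filter.mp hx).1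
                exact ⟨this.2.1.le, this.2.2⟩
              · intro x hx y hy
                rw [Finset.mem_filter] at hx hy
                exact congr_of_dvd hN hl hx.1 hy.1 hx.2 hy.2
          _ = L / 4 ^ (46 * N) + L ^ 2 * (1 / (d : ℝ)) := by
              push_cast
              ring
    _ = (4 ^ (47 * N) : ℕ) * (L / 4 ^ (46 * N)) + L ^ 2 * ∑ d ∈ D, 1 / (d : ℝ) := by
        rw [Finset.sum_add_distrib, Finset.sum_const, ← Finset.mul_sum, nsmul_eq_mul, hD,
          Nat.card_Icc, Nat.add_sub_cancel]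
    _ ≤ L * 4 ^ N + L ^ 2 * L := by
        apply add_le_add
        · apply le_of_eq
          have h1 : (4 : ℝ) ^ (47 * N) = 4 ^ (46 * N) * 4 ^ N := by
            rw [← pow_add]; congr 1; ring
          push_cast
          rw [h1]
          field_simp
        · apply mul_le_mul_of_nonneg_left _ (by positivity)
          rw [hD, hL]
          exact sum_inv_le_log _
    _ ≤ (67 * N) * 4 ^ N + (67 * N) ^ 3 := by
        have h2 : L ^ 2 * L = L ^ 3 := by ring
        rw [h2]
        have h3 : L ^ 3 ≤ (67 * (N : ℝ)) ^ 3 := pow_le_pow_left₀ hL0 hL1 3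
        have h4 : (0 : ℝ) ≤ 4 ^ N := by positivity
        have h5 : L * 4 ^ N ≤ (67 * N) * 4 ^ N := mul_le_mul_of_nonneg_right hL1 h4
        linarith
    _ = _ := by ring

theorem sum_ne_le {N l : ℕ} (hN : 1 ≤ N) (hl : l ∈ Ll N) :
    ∑ p ∈ Pl N, ∑ p' ∈ Pl N, (if p ≠ p' then
      (gg (l * p) (l * p') : ℝ) * (1 / (p : ℝ)) * (1 / (p' : ℝ)) else 0) ≤
      2 * (67 * N * 4 ^ N + (67 * N) ^ 3) := by
  have h := sum_half_le hN hl
  have hsplit : ∀ p ∈ Pl N, ∀ p' ∈ Pl N, (if p ≠ p' then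
      (gg (l * p) (l * p') : ℝ) * (1 / (p : ℝ)) * (1 / (p' : ℝ)) else 0) =
      (if p < p' then (gg (l * p) (l * p') : ℝ) * (1 / (p : ℝ)) * (1 / (p' : ℝ)) else 0) +
      (if p' < p then (gg (l * p') (l * p) : ℝ) * (1 / (p' : ℝ)) * (1 / (p : ℝ)) else 0) := by
    intro p _ p' _
    rcases lt_trichotomy p p' with h | h | h
    · rw [if_pos (by omega), if_pos h, if_neg (by omega)]
      ring
    · rw [if_neg (by omega), if_neg (by omega), if_neg (by omega)]
      ring
    · rw [if_pos (by omega), if_neg (by omega), if_pos h, gg_comm]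
      ring
  calc _ = ∑ p ∈ Pl N, ∑ p' ∈ Pl N,
      ((if p < p' then (gg (l * p) (l * p') : ℝ) * (1 / (p : ℝ)) * (1 / (p' : ℝ)) else 0) +
      (if p' < p then (gg (l * p') (l * p) : ℝ) * (1 / (p' : ℝ)) * (1 / (p : ℝ)) else 0)) :=
        Finset.sum_congr rfl (fun k hk => Finset.sum_congr rfl (fun k' hk' => hsplit k hk k' hk'))
    _ = ∑ p ∈ Pl N, ∑ p' ∈ Pl N,
      (if p < p' then (gg (l * p) (l * p') : ℝ) * (1 / (p : ℝ)) * (1 / (p' : ℝ)) else 0) +
      ∑ p ∈ Pl N, ∑ p' ∈ Pl N,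
      (if p' < p then (gg (l * p') (l * p) : ℝ) * (1 / (p' : ℝ)) * (1 / (p : ℝ)) else 0) := by
        rw [← Finset.sum_add_distrib]
        apply Finset.sum_congr rfl
        intro k _
        rw [Finset.sum_add_distrib]
    _ ≤ (67 * N * 4 ^ N + (67 * N) ^ 3) + (67 * N * 4 ^ N + (67 * N) ^ 3) := by
        apply add_le_add h
        rw [Finset.sum_comm]
        exact h
    _ = _ := by ring

/-- the diagonal part in l -/
theorem SZero {N : ℕ} (hN : 4 ≤ N) :
    ∑ l ∈ Ll N, (1 / (l : ℝ)) ^ 2 * ∑ p ∈ Pl N, ∑ p' ∈ Pl N, (if p ≠ p' then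
      (gg (l * p) (l * p') : ℝ) * (1 / (p : ℝ)) * (1 / (p' : ℝ)) else 0) ≤ 1 := by
  have hN1 : 1 ≤ N := by omega
  have hNr : (1 : ℝ) ≤ N := by exact_mod_cast hN1
  have hN4 : (N : ℝ) ≤ 4 ^ N := by exact_mod_cast (lt_four_pow N).le
  set t : ℝ := 4 ^ N with ht
  have ht1 : 256 ≤ t := by
    calc (256 : ℝ) = 4 ^ 4 := by norm_num
      _ ≤ 4 ^ N := pow_le_pow_right₀ (by norm_num) hN
  have hbound : 2 * (67 * (N : ℝ) * 4 ^ N + (67 * N) ^ 3) ≤ 601660 * t ^ 3 := by
    have h1 : (N : ℝ) * t ≤ t ^ 3 := by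
      calc (N : ℝ) * t ≤ t * t := by gcongr
        _ ≤ t * t * t := by nlinarith
        _ = t ^ 3 := by ring
    have h2 : (N : ℝ) ^ 3 ≤ t ^ 3 := pow_le_pow_left₀ (by linarith) hN4 3
    have h3 : (67 * (N : ℝ)) ^ 3 = 300763 * N ^ 3 := by ring
    rw [h3]
    have h4 : 67 * (N : ℝ) * 4 ^ N = 67 * (N * t) := by rw [ht]; ring
    rw [h4]
    nlinarith
  calc _ ≤ ∑ l ∈ Ll N, ((1 / t ^ 7) * (1 / (l : ℝ))) * (601660 * t ^ 3) := by
        apply Finset.sum_le_sum
        intro l hl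
        have h1 := (Ll_bounds hN1 hl).1
        have h2 : t ^ 7 ≤ (l : ℝ) := by
          have h3 : ((4 ^ (7 * N) : ℕ) : ℝ) ≤ l := by exact_mod_cast h1.le
          have h4 : t ^ 7 = ((4 ^ (7 * N) : ℕ) : ℝ) := by
            rw [ht, ← pow_mul]; push_cast; congr 1; ring
          rw [h4]; exact h3
        have hl0 : (0 : ℝ) < l := by exact_mod_cast Ll_pos hN1 hl
        have h5 : (1 / (l : ℝ)) ^ 2 ≤ (1 / t ^ 7) * (1 / (l : ℝ)) := by
          rw [pow_two]
          apply mul_le_mul_of_nonneg_right _ (by positivity)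
          exact one_div_le_one_div_of_le (by positivity) h2
        apply mul_le_mul h5 ((sum_ne_le hN1 hl).trans hbound)
        · apply Finset.sum_nonneg
          intro p _
          apply Finset.sum_nonneg
          intro p' _
          split_ifs <;> positivity
        · positivity
    _ = (∑ l ∈ Ll N, 1 / (l : ℝ)) * ((1 / t ^ 7) * (601660 * t ^ 3)) := by
        rw [Finset.sum_mul]
        apply Finset.sum_congr rfl
        intro l _
        ring
    _ ≤ (15 * t) * ((1 / t ^ 7) * (601660 * t ^ 3)) := by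
        apply mul_le_mul_of_nonneg_right _ (by positivity)
        refine (sum_Ll_le hN1).trans ?_
        linarith
    _ = 9024900 / t ^ 3 := by
        field_simp
        ring
    _ ≤ 1 := by
        rw [div_le_one (by positivity)]
        have : (256 : ℝ) ^ 3 ≤ t ^ 3 := pow_le_pow_left₀ (by norm_num) ht1 3
        linarith

end Pool.Agent.Helper403
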