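import Mathlib
import Pool.Agent.Helper403.SumZero

set_option autoImplicit false

namespace Pool.Agent.Helper403

open Finset

theorem log_two_bounds : (0.6931 : ℝ) ≤ Real.log 2 ∧ Real.log 2 ≤ 0.6932 := by
  have h1 := Real.log_two_gt_d9
  have h2 := Real.log_two_lt_d9
  constructor <;> linarith

theorem cheb_diff {Y : ℝ} (hY : 10 ^ 8 ≤ Y) :
    Y / 4 ≤ Chebyshev.theta Y - Chebyshev.theta (Y / 4) := by
  have hY0 : 0 < Y := by linarith
  have hY1 : 1 ≤ Y := by linarith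
  obtain ⟨hl1, hl2⟩ := log_two_bounds
  have h1 := Chebyshev.theta_ge' hY1
  have h2 := Chebyshev.theta_le_log4_mul_x (x := Y / 4) (by linarith)
  have h4 : Real.log 4 = 2 * Real.log 2 := by
    rw [show (4 : ℝ) = 2 ^ 2 by norm_num, Real.log_pow]; norm_num
  rw [h4] at h2
  set s := Real.sqrt (Real.sqrt Y) with hs
  have hs2 : s * s = Real.sqrt Y := Real.mul_self_sqrt (Real.sqrt_nonneg _)
  have hs4 : Real.sqrt Y * Real.sqrt Y = Y := Real.mul_self_sqrt hY0.le
  have hs100 : 100 ≤ s := by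
    apply Real.le_sqrt_of_sq_le
    apply Real.le_sqrt_of_sq_le
    norm_num
    linarith
  have hY4 : Y = s ^ 4 := by
    rw [← hs4, ← hs2]; ring
  have hlogs : Real.log s ≤ s := (Real.log_le_sub_one_of_pos (by linarith)).trans (by linarith)
  have hlogY : Real.log Y ≤ 4 * s := by
    rw [hY4, Real.log_pow]
    push_cast
    linarith
  have hlogY2 : Real.log (Y + 2) ≤ 4 * s + 2 := by
    have h5 : Real.log (Y + 2) ≤ Real.log (3 * Y) := Real.log_le_log (by linarith) (by linarith)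
    have h6 : Real.log (3 * Y) = Real.log 3 + Real.log Y := Real.log_mul (by norm_num) hY0.ne'
    have h7 : Real.log 3 ≤ 2 := (Real.log_le_sub_one_of_pos (by norm_num)).trans (by norm_num)
    linarith
  have h8 : 2 * Real.sqrt Y * Real.log Y ≤ 8 * s ^ 3 := by
    rw [← hs2]
    have : 0 ≤ s * s := by positivity
    calc 2 * (s * s) * Real.log Y ≤ 2 * (s * s) * (4 * s) := by gcongr
      _ = 8 * s ^ 3 := by ring
  have h9 : (Y - 1) * Real.log 2 ≥ Y * Real.log 2 - 0.6932 := by nlinarith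
  have h10 : Y * Real.log 2 ≥ Y * 0.6931 := by nlinarith
  have h11 : 8 * s ^ 3 + (4 * s + 2) + 0.6932 ≤ 0.0965 * Y := by
    rw [hY4]
    have e1 : s ^ 4 = s * s ^ 3 := by ring
    have e2 : 100 ^ 2 * s ≤ s ^ 3 := by
      have : s ^ 3 = s ^ 2 * s := by ring
      rw [this]
      apply mul_le_mul_of_nonneg_right _ (by linarith)
      apply pow_le_pow_left₀ (by norm_num) hs100
    rw [e1]
    have e3 : 100 * s ^ 3 ≤ s * s ^ 3 := by
      apply mul_le_mul_of_nonneg_right hs100 (by positivity)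
    nlinarith
  nlinarith

theorem cheb_count {Y : ℝ} (hY : 10 ^ 8 ≤ Y) (S : Finset ℕ)
    (h : ∀ p : ℕ, p.Prime → Y / 4 < p → (p : ℝ) ≤ Y → p ∈ S)
    (h2 : ∀ p ∈ S, 1 ≤ p ∧ (p : ℝ) ≤ Y) : Y / 4 ≤ S.card * Real.log Y := by
  classical
  have hY0 : 0 < Y := by linarith
  refine (cheb_diff hY).trans ?_
  unfold Chebyshev.theta
  have hsub : (Ioc 0 ⌊Y / 4⌋₊).filter Nat.Prime ⊆ (Ioc 0 ⌊Y⌋₊).filter Nat.Prime := by
    apply Finset.filter_subset_filter
    apply Finset.Ioc_subset_Ioc_right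
    apply Nat.floor_le_floor
    linarith
  rw [← Finset.sum_sdiff hsub, add_sub_cancel_right]
  have hsub2 : (Ioc 0 ⌊Y⌋₊).filter Nat.Prime \ (Ioc 0 ⌊Y / 4⌋₊).filter Nat.Prime ⊆ S := by
    intro p hp
    rw [Finset.mem_sdiff, Finset.mem_filter, Finset.mem_filter, Finset.mem_Ioc,
      Finset.mem_Ioc] at hp
    obtain ⟨⟨⟨h3, h4⟩, h5⟩, h6⟩ := hp
    apply h p h5
    · by_contra hcon
      rw [not_lt] at hcon
      exact h6 ⟨⟨h3, Nat.le_floor hcon⟩, h5⟩
    · exact (Nat.cast_le.mpr h4).trans (Nat.floor_le hY0.le)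
  calc _ ≤ ∑ p ∈ S, Real.log p := by
        apply Finset.sum_le_sum_of_subset_of_nonneg hsub2
        intro p hp _
        exact Real.log_natCast_nonneg p
    _ ≤ ∑ p ∈ S, Real.log Y := by
        apply Finset.sum_le_sum
        intro p hp
        obtain ⟨h3, h4⟩ := h2 p hp
        exact Real.log_le_log (by exact_mod_cast h3) h4
    _ = _ := by rw [Finset.sum_const, nsmul_eq_mul]

theorem cheb_primesFrom {A N : ℕ} (hN : 1 ≤ N) (hA : 13 ≤ A) :
    (N : ℝ) / (4 * (A + N) * 1.3863) ≤ ∑ p ∈ primesFrom A N, 1 / (p : ℝ) := by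
  have hNr : (1 : ℝ) ≤ N := by exact_mod_cast hN
  have hmaps : ∀ p ∈ primesFrom A N, Nat.log 4 (p - 1) ∈ Finset.Ico A (A + N) := by
    intro p hp
    obtain ⟨hpp, h1, h2⟩ := mem_primesFrom.mp hp
    have hp2 := hpp.two_le
    rw [Finset.mem_Ico]
    constructor
    · apply Nat.le_log_of_pow_le (by norm_num)
      omega
    · apply Nat.log_lt_of_lt_pow (by omega)
      omega
  rw [← Finset.sum_fiberwise_of_maps_to hmaps]
  have hblock : ∀ j ∈ Finset.Ico A (A + N), 1 / (4 * ((A : ℝ) + N) * 1.3863) ≤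
      ∑ p ∈ (primesFrom A N).filter (fun p => Nat.log 4 (p - 1) = j), 1 / (p : ℝ) := by
    intro j hj
    rw [Finset.mem_Ico] at hj
    set S := (primesFrom A N).filter (fun p => Nat.log 4 (p - 1) = j) with hS
    have hmem : ∀ p ∈ S, p.Prime ∧ 4 ^ j < p ∧ p ≤ 4 ^ (j + 1) := by
      intro p hp
      rw [hS, Finset.mem_filter] at hp
      obtain ⟨hpS, hlog⟩ := hp
      obtain ⟨hpp, h1, h2⟩ := mem_primesFrom.mp hpS
      have hp2 := hpp.two_le
      have h3 : 4 ^ j ≤ p - 1 := by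
        rw [← hlog]; exact Nat.pow_log_le_self 4 (by omega)
      have h4 : p - 1 < 4 ^ (j + 1) := by
        rw [← hlog]; exact Nat.lt_pow_succ_log_self (by norm_num) _
      exact ⟨hpp, by omega, by omega⟩
    have hY : (10 : ℝ) ^ 8 ≤ (4 : ℝ) ^ (j + 1) := by
      calc (10 : ℝ) ^ 8 ≤ 4 ^ 14 := by norm_num
        _ ≤ 4 ^ (j + 1) := pow_le_pow_right₀ (by norm_num) (by omega)
    have hcount := cheb_count hY S ?_ ?_
    · have hlogY : Real.log ((4 : ℝ) ^ (j + 1)) ≤ ((A : ℝ) + N) * 1.3863 := by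
        rw [Real.log_pow]
        have h1 : ((j + 1 : ℕ) : ℝ) ≤ (A : ℝ) + N := by exact_mod_cast (by omega : j + 1 ≤ A + N)
        have h2 := log_four_le
        have h3 := log_four_ge
        calc ((j + 1 : ℕ) : ℝ) * Real.log 4 ≤ ((A : ℝ) + N) * Real.log 4 := by gcongr
          _ ≤ ((A : ℝ) + N) * 1.3863 := by gcongr
      have hsum : (S.card : ℝ) * (1 / 4 ^ (j + 1)) ≤ ∑ p ∈ S, 1 / (p : ℝ) := by
        rw [← nsmul_eq_mul, ← Finset.sum_const]
        apply Finset.sum_le_sum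
        intro p hp
        obtain ⟨h1, h2, h3⟩ := hmem p hp
        have h4 : (p : ℝ) ≤ 4 ^ (j + 1) := by exact_mod_cast h3
        have h5 : (0 : ℝ) < p := by exact_mod_cast h1.pos
        exact one_div_le_one_div_of_le h5 h4
      refine le_trans ?_ hsum
      have h6 : (4 : ℝ) ^ (j + 1) / 4 ≤ S.card * (((A : ℝ) + N) * 1.3863) :=
        hcount.trans (mul_le_mul_of_nonneg_left hlogY (Nat.cast_nonneg _))
      have h7 : (0 : ℝ) < (A : ℝ) + N := by positivity
      rw [div_le_iff₀ (by positivity)]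
      have h8 : (0 : ℝ) < 4 ^ (j + 1) := by positivity
      calc (1 : ℝ) = (4 ^ (j + 1) / 4) * (4 * (1 / 4 ^ (j + 1))) := by field_simp
        _ ≤ (S.card * (((A : ℝ) + N) * 1.3863)) * (4 * (1 / 4 ^ (j + 1))) := by
            apply mul_le_mul_of_nonneg_right h6 (by positivity)
        _ = _ := by ring
    · intro p hp h1 h2
      rw [hS, Finset.mem_filter]
      have h3 : (4 : ℝ) ^ (j + 1) / 4 = 4 ^ j := by rw [pow_succ]; ring
      rw [h3] at h1
      have h1' : 4 ^ j < p := by exact_mod_cast h1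
      have h2' : p ≤ 4 ^ (j + 1) := by exact_mod_cast h2
      constructor
      · rw [mem_primesFrom]
        refine ⟨hp, lt_of_le_of_lt (pow4_le hj.1) h1', h2'.trans (pow4_le (by omega))⟩
      · have hp2 := hp.two_le
        apply Nat.log_eq_of_pow_le_of_lt_pow
        · omega
        · omega
    · intro p hp
      obtain ⟨h1, h2, h3⟩ := hmem p hp
      exact ⟨h1.one_lt.le, by exact_mod_cast h3⟩
  calc (N : ℝ) / (4 * (A + N) * 1.3863) = ∑ j ∈ Finset.Ico A (A + N),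
        1 / (4 * ((A : ℝ) + N) * 1.3863) := by
        rw [Finset.sum_const, nsmul_eq_mul, Nat.card_Ico, Nat.add_sub_cancel_left]
        ring
    _ ≤ _ := Finset.sum_le_sum hblock

theorem sum_Ml_ge {N : ℕ} : 0.693 * (N : ℝ) ≤ ∑ m ∈ Ml N, 1 / (m : ℝ) := by
  have h1 := sum_inv_ge_log (4 ^ N)
  rw [log_pow4] at h1
  set I4 : Finset ℕ := Icc 1 (4 ^ N) with hI4
  have h2 : ∑ n ∈ I4, 1 / (n : ℝ) = ∑ m ∈ Ml N, 1 / (m : ℝ) +
      ∑ m ∈ I4.filter (fun m => ¬ Odd m), 1 / (m : ℝ) := by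
    unfold Ml
    rw [Finset.sum_filter_add_sum_filter_not]
  have hinj : Set.InjOn (fun m : ℕ => m - 1)
      ((I4.filter (fun m => ¬ Odd m) : Finset ℕ) : Set ℕ) := by
    intro a ha b hb hab
    rw [Finset.mem_coe, Finset.mem_filter, hI4, Finset.mem_Icc] at ha hb
    simp only at hab
    omega
  have h3 : ∑ m ∈ I4.filter (fun m => ¬ Odd m), 1 / (m : ℝ) ≤
      ∑ m ∈ Ml N, 1 / (m : ℝ) := by
    calc ∑ m ∈ I4.filter (fun m => ¬ Odd m), 1 / (m : ℝ)
        ≤ ∑ m ∈ I4.filter (fun m => ¬ Odd m), 1 / ((m - 1 : ℕ) : ℝ) := by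
          apply Finset.sum_le_sum
          intro m hm
          rw [Finset.mem_filter, hI4, Finset.mem_Icc, Nat.not_odd_iff_even] at hm
          obtain ⟨c, hc⟩ := hm.2
          have h4 : (0 : ℝ) < ((m - 1 : ℕ) : ℝ) := by
            exact_mod_cast (by omega : 0 < m - 1)
          apply one_div_le_one_div_of_le h4
          exact_mod_cast (by omega : m - 1 ≤ m)
      _ = ∑ j ∈ (I4.filter (fun m => ¬ Odd m)).image (fun m : ℕ => m - 1),
          1 / (j : ℝ) := by rw [Finset.sum_image hinj]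
      _ ≤ _ := by
          apply Finset.sum_le_sum_of_subset_of_nonneg
          · intro j hj
            obtain ⟨m, hm, rfl⟩ := Finset.mem_image.mp hj
            rw [Finset.mem_filter, hI4, Finset.mem_Icc, Nat.not_odd_iff_even] at hm
            obtain ⟨c, hc⟩ := hm.2
            rw [mem_Ml]
            refine ⟨by omega, by omega, ?_⟩
            exact ⟨c - 1, by omega⟩
          · intro j _ _
            positivity
  have h4 := log_four_ge
  have h5 : (N : ℝ) * 1.386 ≤ N * Real.log 4 := by gcongr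
  linarith

theorem sum_lp_ge {N : ℕ} (hN : 2 ≤ N) :
    (N : ℝ) / 40000 ≤ ∑ l ∈ Ll N, ∑ p ∈ Pl N, (1 / (l : ℝ)) * (1 / (p : ℝ)) := by
  have hNr : (2 : ℝ) ≤ N := by exact_mod_cast hN
  have h1 := sum_Ml_ge (N := N)
  have h2 := cheb_primesFrom (A := 7 * N) (N := N) (by omega) (by omega)
  have h3 := cheb_primesFrom (A := 46 * N) (N := N) (by omega) (by omega)
  have h2' : (1 : ℝ) / 45 ≤ ∑ r ∈ Rl N, 1 / (r : ℝ) := by
    refine le_trans ?_ h2
    push_cast
    rw [div_le_div_iff₀ (by norm_num) (by positivity)]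
    nlinarith
  have h3' : (1 : ℝ) / 262 ≤ ∑ r ∈ Pl N, 1 / (r : ℝ) := by
    refine le_trans ?_ h3
    push_cast
    rw [div_le_div_iff₀ (by norm_num) (by positivity)]
    nlinarith
  rw [← Finset.sum_mul_sum, sum_Ll]
  have h4 : ∑ m ∈ Ml N, ∑ r ∈ Rl N, 1 / ((2 * m * r : ℕ) : ℝ) =
      (1 / 2) * ((∑ m ∈ Ml N, 1 / (m : ℝ)) * (∑ r ∈ Rl N, 1 / (r : ℝ))) := by
    rw [Finset.sum_mul_sum, Finset.mul_sum]
    apply Finset.sum_congr rfl
    intro m _
    rw [Finset.mul_sum]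
    apply Finset.sum_congr rfl
    intro r _
    push_cast
    rw [one_div_mul_one_div, one_div_mul_one_div, mul_assoc]
  rw [h4]
  have h5 : (0.693 * (N : ℝ)) * (1 / 45) ≤
      (∑ m ∈ Ml N, 1 / (m : ℝ)) * (∑ r ∈ Rl N, 1 / (r : ℝ)) :=
    mul_le_mul h1 h2' (by norm_num) (Finset.sum_nonneg (fun m _ => by positivity))
  have h6 : (1 / 2) * ((0.693 * (N : ℝ)) * (1 / 45)) * (1 / 262) ≤
      (1 / 2) * ((∑ m ∈ Ml N, 1 / (m : ℝ)) * (∑ r ∈ Rl N, 1 / (r : ℝ))) *
      ∑ p ∈ Pl N, 1 / (p : ℝ) := by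
    apply mul_le_mul _ h3' (by norm_num)
    · apply mul_nonneg (by norm_num)
      apply mul_nonneg <;> exact Finset.sum_nonneg (fun m _ => by positivity)
    · linarith
  refine le_trans ?_ h6
  nlinarith

end Pool.Agent.Helper403
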