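import Mathlib
import Pool.Agent.Helper403.Cheb

set_option autoImplicit false

namespace Pool.Agent.Helper403

open Finset

def XX (N : ℕ) : ℕ := 4 ^ (130 * N)

def Ql (N k : ℕ) : Finset ℕ :=
  (range (XX N + 1)).filter (fun q => q.Prime ∧ k * q ≤ XX N ∧ XX N < 4 * (k * q))

theorem mem_Ql {N k q : ℕ} (hk : 1 ≤ k) :
    q ∈ Ql N k ↔ q.Prime ∧ k * q ≤ XX N ∧ XX N < 4 * (k * q) := by
  unfold Ql
  rw [Finset.mem_filter, Finset.mem_range]
  constructor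
  · exact fun h => h.2
  · intro h
    refine ⟨?_, h⟩
    have : q ≤ k * q := Nat.le_mul_of_pos_left _ hk
    omega

theorem Ql_large {N k q : ℕ} (hN : 1 ≤ N) (hk : 1 ≤ k) (hk2 : k ≤ 4 ^ (57 * N)) (hq : q ∈ Ql N k) :
    4 ^ (70 * N) < q := by
  by_contra hcon
  rw [not_lt] at hcon
  have h1 := ((mem_Ql hk).mp hq).2.2
  have h2 : k * q ≤ 4 ^ (57 * N) * 4 ^ (70 * N) := Nat.mul_le_mul hk2 hcon
  rw [← pow_add] at h2
  have h3 : 4 * 4 ^ (57 * N + 70 * N) ≤ XX N := by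
    unfold XX
    rw [← pow_succ']
    exact pow4_le (by omega)
  omega

theorem W_kq {N k q : ℕ} (hN : 1 ≤ N) (hk : 1 ≤ k) (hk2 : k ≤ 4 ^ (57 * N)) (hq : q ∈ Ql N k) :
    W (k * q) = W k * q + k := by
  apply W_mul_prime (by omega) ((mem_Ql hk).mp hq).1
  intro h
  have h1 := Nat.le_of_dvd hk h
  have h2 := Ql_large hN hk hk2 hq
  have h3 : 4 ^ (57 * N) ≤ 4 ^ (70 * N) := pow4_le (by omega)
  omega

theorem k_le_W {N l p : ℕ} (hN : 1 ≤ N) (hl : l ∈ Ll N) (hp : p ∈ Pl N) :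
    l * p ≤ 2 * W (l * p) := by
  obtain ⟨m, r, hm, hr, rfl⟩ := mem_Ll.mp hl
  obtain ⟨hm1, hm2, hm3⟩ := mem_Ml.mp hm
  obtain ⟨hr1, hr2, hr3⟩ := mem_primesFrom.mp hr
  obtain ⟨hp1, hp2, hp3⟩ := Pl_bounds hp
  have h2 : (4 : ℕ) ≤ 4 ^ (7 * N) := by
    calc 4 = 4 ^ 1 := by norm_num
      _ ≤ 4 ^ (7 * N) := pow4_le (by omega)
  have h3 : (4 : ℕ) ≤ 4 ^ (46 * N) := by
    calc 4 = 4 ^ 1 := by norm_num
      _ ≤ 4 ^ (46 * N) := pow4_le (by omega)
  have hro : Odd r := hr1.odd_of_ne_two (by omega)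
  have hpo : Odd p := hp1.odd_of_ne_two (by omega)
  have hodd : Odd (m * r * p) := (hm3.mul hro).mul hpo
  have h := le_W_two_mul hodd
  have e : 2 * m * r * p = 2 * (m * r * p) := by ring
  rw [e]
  omega

theorem Ql_card_ge {N k : ℕ} (hN : 1 ≤ N) (hk : 1 ≤ k) (hk2 : k ≤ 4 ^ (57 * N)) :
    (XX N : ℝ) / (722 * N) * (1 / (k : ℝ)) ≤ (Ql N k).card := by
  have hNr : (1 : ℝ) ≤ N := by exact_mod_cast hN
  have hkr : (1 : ℝ) ≤ k := by exact_mod_cast hk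
  have hX : (XX N : ℝ) = 4 ^ (130 * N) := by unfold XX; push_cast; rfl
  have hY : (10 : ℝ) ^ 8 ≤ (XX N : ℝ) / k := by
    rw [le_div_iff₀ (by linarith)]
    have h1 : (k : ℝ) ≤ 4 ^ (57 * N) := by exact_mod_cast hk2
    calc (10 : ℝ) ^ 8 * k ≤ 4 ^ 14 * 4 ^ (57 * N) := by
          apply mul_le_mul (by norm_num) h1 (by positivity) (by positivity)
      _ = 4 ^ (14 + 57 * N) := by rw [← pow_add]
      _ ≤ 4 ^ (130 * N) := pow_le_pow_right₀ (by norm_num) (by omega)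
      _ = XX N := hX.symm
  have h := cheb_count hY (Ql N k) ?_ ?_
  · have hlog : Real.log ((XX N : ℝ) / k) ≤ 180.3 * N := by
      have h1 : Real.log ((XX N : ℝ) / k) ≤ Real.log (XX N) := by
        apply Real.log_le_log (by linarith)
        exact div_le_self (Nat.cast_nonneg _) hkr
      have h2 : Real.log (XX N) = (130 * N : ℕ) * Real.log 4 := by
        rw [hX, Real.log_pow]
      rw [h2] at h1
      have h3 := log_four_le
      push_cast at h1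
      have h4 : 130 * (N : ℝ) * Real.log 4 ≤ 130 * N * 1.3863 := by gcongr
      linarith
    have h5 : (XX N : ℝ) / k / 4 ≤ (Ql N k).card * (180.3 * N) :=
      h.trans (mul_le_mul_of_nonneg_left hlog (Nat.cast_nonneg _))
    have h6 : (XX N : ℝ) / (722 * N) * (1 / (k : ℝ)) = ((XX N : ℝ) / k / 4) * (4 / (722 * N)) := by
      field_simp
    rw [h6]
    calc ((XX N : ℝ) / k / 4) * (4 / (722 * N)) ≤
          ((Ql N k).card * (180.3 * N)) * (4 / (722 * N)) := by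
          apply mul_le_mul_of_nonneg_right h5 (by positivity)
      _ = (Ql N k).card * (721.2 / 722) := by field_simp; ring
      _ ≤ (Ql N k).card * 1 := by
          apply mul_le_mul_of_nonneg_left (by norm_num) (Nat.cast_nonneg _)
      _ = _ := mul_one _
  · intro p hp h1 h2
    rw [mem_Ql hk]
    refine ⟨hp, ?_, ?_⟩
    · rw [le_div_iff₀ (by linarith)] at h2
      have : (k * p : ℝ) ≤ XX N := by linarith
      exact_mod_cast this
    · rw [div_div, div_lt_iff₀ (by positivity)] at h1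
      have : (XX N : ℝ) < 4 * (k * p) := by linarith
      exact_mod_cast this
  · intro p hp
    obtain ⟨h1, h2, h3⟩ := (mem_Ql hk).mp hp
    refine ⟨h1.one_lt.le, ?_⟩
    rw [le_div_iff₀ (by linarith)]
    have : ((k * p : ℕ) : ℝ) ≤ XX N := by exact_mod_cast h2
    push_cast at this
    linarith

/-- colliding pairs -/
def cset (N k k' : ℕ) : Finset (ℕ × ℕ) :=
  ((Ql N k) ×ˢ (Ql N k')).filter (fun z => W (k * z.1) = W (k' * z.2))

theorem mem_cset {N k k' : ℕ} (hN : 1 ≤ N) (hk : 1 ≤ k) (hk2 : k ≤ 4 ^ (57 * N)) (hk' : 1 ≤ k')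
    (hk2' : k' ≤ 4 ^ (57 * N)) {z : ℕ × ℕ} (hz : z ∈ cset N k k') :
    z.1 ∈ Ql N k ∧ z.2 ∈ Ql N k' ∧ W k * z.1 + k = W k' * z.2 + k' ∧ z.1 ≤ XX N / k := by
  unfold cset at hz
  rw [Finset.mem_filter, Finset.mem_product] at hz
  obtain ⟨⟨h1, h2⟩, h3⟩ := hz
  rw [W_kq hN hk hk2 h1, W_kq hN hk' hk2' h2] at h3
  refine ⟨h1, h2, h3, ?_⟩
  rw [Nat.le_div_iff_mul_le (by omega), mul_comm]
  exact ((mem_Ql hk).mp h1).2.1

theorem cset_diag {N k : ℕ} (hN : 1 ≤ N) (hk : 1 ≤ k) (hk2 : k ≤ 4 ^ (57 * N)) (hW : 0 < W k) :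
    (cset N k k).card ≤ (Ql N k).card := by
  apply Finset.card_le_card_of_injOn (fun z => z.1)
  · intro z hz
    exact (mem_cset hN hk hk2 hk hk2 hz).1
  · intro z hz y hy hzy
    have h1 := (mem_cset hN hk hk2 hk hk2 hz).2.2.1
    have h2 := (mem_cset hN hk hk2 hk hk2 hy).2.2.1
    simp only at hzy
    have h3 : z.2 = z.1 := by
      have : W k * z.1 = W k * z.2 := by omega
      exact (Nat.eq_of_mul_eq_mul_left hW this).symm
    have h4 : y.2 = y.1 := by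
      have : W k * y.1 = W k * y.2 := by omega
      exact (Nat.eq_of_mul_eq_mul_left hW this).symm
    exact Prod.ext hzy (by rw [h3, h4, hzy])

theorem Yg_le {N k k' g : ℕ} (hk : 1 ≤ k) (hk' : 1 ≤ k') (hW : k' ≤ 2 * W k') :
    ((XX N / k : ℕ) : ℝ) * g / W k' ≤ 2 * XX N * (g * (1 / (k : ℝ)) * (1 / (k' : ℝ))) := by
  have hkr : (1 : ℝ) ≤ k := by exact_mod_cast hk
  have hkr' : (1 : ℝ) ≤ k' := by exact_mod_cast hk'
  have h1 : ((XX N / k : ℕ) : ℝ) ≤ (XX N : ℝ) / k := Nat.cast_div_le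
  have h2 : (k' : ℝ) ≤ 2 * W k' := by exact_mod_cast hW
  have h3 : (0 : ℝ) < W k' := by linarith
  have h4 : 1 / (W k' : ℝ) ≤ 2 * (1 / (k' : ℝ)) := by
    rw [div_le_iff₀ h3]
    have h5 : 2 * (1 / (k' : ℝ)) * W k' = (2 * W k') / k' := by ring
    rw [h5, le_div_iff₀ (by linarith)]
    linarith
  calc ((XX N / k : ℕ) : ℝ) * g / W k' = ((XX N / k : ℕ) : ℝ) * g * (1 / (W k' : ℝ)) := by ring
    _ ≤ ((XX N : ℝ) / k) * g * (2 * (1 / (k' : ℝ))) := by gcongr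
    _ = _ := by ring

theorem cset_trivial {N k k' : ℕ} (hN : 1 ≤ N) (hk : 1 ≤ k) (hk2 : k ≤ 4 ^ (57 * N)) (hk' : 1 ≤ k')
    (hk2' : k' ≤ 4 ^ (57 * N)) (hWk : 0 < W k) (hW : k' ≤ 2 * W k') :
    ((cset N k k').card : ℝ) ≤
      2 * XX N * ((gg k k' : ℝ) * (1 / (k : ℝ)) * (1 / (k' : ℝ))) + 1 := by
  have h1 := pairs_trivial (k := k) (k' := k') (Y := XX N / k) hWk (by omega : 0 < W k')
    (cset N k k') ?_
  · have h2 := Yg_le (N := N) (g := gg k k') hk hk' hW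
    unfold gg at h2 ⊢
    linarith
  · intro x hx
    obtain ⟨_, _, h3, h4⟩ := mem_cset hN hk hk2 hk' hk2' hx
    exact ⟨h3, h4⟩

theorem cset_sieve {N k k' : ℕ} (hN : 1 ≤ N) (hk : 1 ≤ k) (hk2 : k ≤ 4 ^ (57 * N)) (hk' : 1 ≤ k')
    (hk2' : k' ≤ 4 ^ (57 * N)) (hWk : 0 < W k) (hW : k' ≤ 2 * W k') (hne : k ≠ k') :
    ((cset N k k').card : ℝ) ≤
      20 * XX N / N ^ 2 * ((1 / (k : ℝ)) * (1 / (k' : ℝ)) *
        ((if gg k k' ∣ dd k k' then (gg k k' : ℝ) else 0) *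
        (B (W k) * B (W k') * B (dd k k')) ^ 2)) + 1 + 2 * 4 ^ (8 * N) := by
  have hNr : (1 : ℝ) ≤ N := by exact_mod_cast hN
  by_cases hdvd : gg k k' ∣ dd k k'
  · rw [if_pos hdvd]
    have h1 := pairs_sieve (k := k) (k' := k') (Y := XX N / k) hN hWk (by omega : 0 < W k') hne
      (cset N k k') ?_ ?_
    · have h2 := Yg_le (N := N) (g := gg k k') hk hk' hW
      change ((cset N k k').card : ℝ) ≤ ((XX N / k : ℕ) : ℝ) * (gg k k' : ℝ) / W k' *
        (10 * (B (W k) * B (W k') * B (dd k k')) ^ 2 / N ^ 2) + 1 + 2 * 4 ^ (8 * N) at h1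
      have h3 : ((XX N / k : ℕ) : ℝ) * (gg k k' : ℝ) / W k' *
          (10 * (B (W k) * B (W k') * B (dd k k')) ^ 2 / N ^ 2) ≤
          2 * XX N * (gg k k' * (1 / (k : ℝ)) * (1 / (k' : ℝ))) *
          (10 * (B (W k) * B (W k') * B (dd k k')) ^ 2 / N ^ 2) := by
        apply mul_le_mul_of_nonneg_right h2 (by positivity)
      have h4 : 2 * XX N * (gg k k' * (1 / (k : ℝ)) * (1 / (k' : ℝ))) *
          (10 * (B (W k) * B (W k') * B (dd k k')) ^ 2 / N ^ 2) =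
          20 * XX N / N ^ 2 * ((1 / (k : ℝ)) * (1 / (k' : ℝ)) *
          ((gg k k' : ℝ) * (B (W k) * B (W k') * B (dd k k')) ^ 2)) := by ring
      linarith
    · intro x hx
      obtain ⟨_, _, h3, h4⟩ := mem_cset hN hk hk2 hk' hk2' hx
      exact ⟨h3, h4⟩
    · intro x hx
      obtain ⟨h1, h2, _, _⟩ := mem_cset hN hk hk2 hk' hk2' hx
      have h3 : 4 ^ (2 * N) ≤ 4 ^ (70 * N) := pow4_le (by omega)
      exact ⟨((mem_Ql hk).mp h1).1, ((mem_Ql hk').mp h2).1,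
        lt_of_le_of_lt h3 (Ql_large hN hk hk2 h1), lt_of_le_of_lt h3 (Ql_large hN hk' hk2' h2)⟩
  · have hempty : cset N k k' = ∅ := by
      rw [Finset.eq_empty_iff_forall_notMem]
      intro x hx
      obtain ⟨_, _, h3, _⟩ := mem_cset hN hk hk2 hk' hk2' hx
      exact hdvd (pairs_dvd h3)
    rw [if_neg hdvd, hempty]
    simp only [Finset.card_empty, Nat.cast_zero, zero_mul, mul_zero]
    positivity

end Pool.Agent.Helper403
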