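import Mathlib
import Pool.Agent.Helper403.Count

set_option autoImplicit false

namespace Pool.Agent.Helper403

open Finset

theorem cauchy_collisions {α β : Type*} [DecidableEq α] [DecidableEq β] (I : Finset α)
    (f : α → β) :
    (I.card : ℝ) ^ 2 ≤ ((I.image f).card : ℝ) *
      ∑ i ∈ I, ((I.filter (fun j => f i = f j)).card : ℝ) := by
  have h1 : (I.card : ℝ) = ∑ v ∈ I.image f, ((I.filter (fun i => f i = v)).card : ℝ) := by
    rw [← Nat.cast_sum]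
    congr 1
    exact Finset.card_eq_sum_card_fiberwise (fun x hx => Finset.mem_image_of_mem f hx)
  have h2 : ∑ i ∈ I, ((I.filter (fun j => f i = f j)).card : ℝ) =
      ∑ v ∈ I.image f, ((I.filter (fun i => f i = v)).card : ℝ) ^ 2 := by
    rw [← Finset.sum_fiberwise_of_maps_to (fun x hx => Finset.mem_image_of_mem f hx)]
    apply Finset.sum_congr rfl
    intro v _
    have h3 : ∀ i ∈ I.filter (fun i => f i = v), ((I.filter (fun j => f i = f j)).card : ℝ) =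
        ((I.filter (fun i => f i = v)).card : ℝ) := by
      intro i hi
      rw [Finset.mem_filter] at hi
      congr 2
      apply Finset.filter_congr
      intro j _
      rw [hi.2]
      exact eq_comm
    rw [Finset.sum_congr rfl h3, Finset.sum_const, nsmul_eq_mul, pow_two]
  rw [h2, h1]
  exact sq_sum_le_card_mul_sum_sq

theorem young {g y : ℝ} (hg : 0 ≤ g) (hy : 0 ≤ y) : g * y ≤ g * Real.sqrt g + y ^ 3 := by
  rcases le_total y (Real.sqrt g) with h | h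
  · have h1 : g * y ≤ g * Real.sqrt g := mul_le_mul_of_nonneg_left h hg
    have h2 : 0 ≤ y ^ 3 := by positivity
    linarith
  · have h1 : g ≤ y ^ 2 := (Real.sqrt_le_left hy).mp h
    have h2 : g * y ≤ y ^ 2 * y := mul_le_mul_of_nonneg_right h1 hy
    have h3 : 0 ≤ g * Real.sqrt g := by positivity
    nlinarith

theorem cube_prod_le {x y z : ℝ} (hx : 0 ≤ x) (hy : 0 ≤ y) (hz : 0 ≤ z) :
    x * y * z ≤ x ^ 3 + y ^ 3 + z ^ 3 := by
  rcases le_total x y with h1 | h1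
  · rcases le_total y z with h2 | h2
    · have : x * y * z ≤ z * z * z := by gcongr; exact h1.trans h2
      have h3 : 0 ≤ x ^ 3 := by positivity
      have h4 : 0 ≤ y ^ 3 := by positivity
      nlinarith
    · have : x * y * z ≤ y * y * y := by gcongr
      have h3 : 0 ≤ x ^ 3 := by positivity
      have h4 : 0 ≤ z ^ 3 := by positivity
      nlinarith
  · rcases le_total x z with h2 | h2
    · have : x * y * z ≤ z * z * z := by gcongr; exact h1.trans h2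
      have h3 : 0 ≤ x ^ 3 := by positivity
      have h4 : 0 ≤ y ^ 3 := by positivity
      nlinarith
    · have : x * y * z ≤ x * x * x := by gcongr
      have h3 : 0 ≤ y ^ 3 := by positivity
      have h4 : 0 ≤ z ^ 3 := by positivity
      nlinarith

theorem young_full (k k' : ℕ) :
    (if gg k k' ∣ dd k k' then (gg k k' : ℝ) else 0) *
        (B (W k) * B (W k') * B (dd k k')) ^ 2 ≤
    (if gg k k' ∣ dd k k' then (gg k k' : ℝ) * Real.sqrt (gg k k') else 0) +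
      (B (W k) ^ 18 + B (W k') ^ 18 + B (dd k k') ^ 18) := by
  have b1 := one_le_B (W k)
  have b2 := one_le_B (W k')
  have b3 := one_le_B (dd k k')
  have hcube := cube_prod_le (x := B (W k) ^ 6) (y := B (W k') ^ 6) (z := B (dd k k') ^ 6)
    (by positivity) (by positivity) (by positivity)
  have e1 : (B (W k) ^ 6) ^ 3 = B (W k) ^ 18 := by ring
  have e2 : (B (W k') ^ 6) ^ 3 = B (W k') ^ 18 := by ring
  have e3 : (B (dd k k') ^ 6) ^ 3 = B (dd k k') ^ 18 := by ring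
  rw [e1, e2, e3] at hcube
  have e4 : ((B (W k) * B (W k') * B (dd k k')) ^ 2) ^ 3 =
      B (W k) ^ 6 * B (W k') ^ 6 * B (dd k k') ^ 6 := by ring
  split_ifs
  · have h := young (g := (gg k k' : ℝ)) (y := (B (W k) * B (W k') * B (dd k k')) ^ 2)
      (Nat.cast_nonneg _) (by positivity)
    rw [e4] at h
    linarith
  · have h1 : (0 : ℝ) ≤ B (W k) ^ 18 := by positivity
    have h2 : (0 : ℝ) ≤ B (W k') ^ 18 := by positivity
    have h3 : (0 : ℝ) ≤ B (dd k k') ^ 18 := by positivity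
    linarith

/-- index set -/
def II (N : ℕ) : Finset (Σ _ : ℕ × ℕ, ℕ) := (Ll N ×ˢ Pl N).sigma (fun x => Ql N (x.1 * x.2))

def ff (i : Σ _ : ℕ × ℕ, ℕ) : ℕ := W (i.1.1 * i.1.2 * i.2)

theorem collisions_eq (N : ℕ) :
    ∑ i ∈ II N, (((II N).filter (fun j => ff i = ff j)).card : ℝ) =
    ∑ x ∈ Ll N ×ˢ Pl N, ∑ y ∈ Ll N ×ˢ Pl N, ((cset N (x.1 * x.2) (y.1 * y.2)).card : ℝ) := by
  classical
  have h1 : ∀ i ∈ II N, (((II N).filter (fun j => ff i = ff j)).card : ℝ) =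
      ∑ y ∈ Ll N ×ˢ Pl N, ∑ q' ∈ Ql N (y.1 * y.2), (if ff i = ff ⟨y, q'⟩ then (1 : ℝ) else 0) := by
    intro i _
    rw [Finset.card_filter, Nat.cast_sum]
    unfold II
    rw [Finset.sum_sigma]
    simp only [Nat.cast_ite, Nat.cast_one, Nat.cast_zero]
  rw [Finset.sum_congr rfl h1]
  unfold II
  rw [Finset.sum_sigma]
  apply Finset.sum_congr rfl
  intro x _
  rw [Finset.sum_comm]
  apply Finset.sum_congr rfl
  intro y _
  unfold cset ff
  rw [Finset.card_filter, Nat.cast_sum, Finset.sum_product]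
  simp only [Nat.cast_ite, Nat.cast_one, Nat.cast_zero]


/-- the integer attached to a pair -/
def kk (x : ℕ × ℕ) : ℕ := x.1 * x.2

theorem kk_facts {N : ℕ} (hN : 1 ≤ N) {x : ℕ × ℕ} (hx : x ∈ Ll N ×ˢ Pl N) :
    1 ≤ kk x ∧ kk x ≤ 4 ^ (57 * N) ∧ 0 < W (kk x) ∧ kk x ≤ 2 * W (kk x) := by
  rw [Finset.mem_product] at hx
  obtain ⟨h1, h2⟩ := lp_bounds hN hx.1 hx.2
  exact ⟨h1, h2, W_lp_pos hN hx.1 hx.2, k_le_W hN hx.1 hx.2⟩

theorem T1 (N : ℕ) : ∑ x ∈ Ll N ×ˢ Pl N, ∑ y ∈ Ll N ×ˢ Pl N,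
    (if x = y then ((Ql N (kk x)).card : ℝ) else 0) = ((II N).card : ℝ) := by
  unfold II
  rw [Finset.card_sigma, Nat.cast_sum]
  apply Finset.sum_congr rfl
  intro x hx
  rw [Finset.sum_ite_eq, if_pos hx]
  rfl

theorem T2 {N : ℕ} (hN : 4 ≤ N) : ∑ x ∈ Ll N ×ˢ Pl N, ∑ y ∈ Ll N ×ˢ Pl N,
    (if x ≠ y ∧ x.1 = y.1 then
      (gg (kk x) (kk y) : ℝ) * (1 / (kk x : ℝ)) * (1 / (kk y : ℝ)) else 0) ≤ 1 := by
  refine le_trans (le_of_eq ?_) (SZero hN)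
  rw [Finset.sum_product]
  apply Finset.sum_congr rfl
  intro l hl
  rw [Finset.mul_sum]
  apply Finset.sum_congr rfl
  intro p _
  rw [Finset.sum_product, Finset.sum_comm, Finset.mul_sum]
  apply Finset.sum_congr rfl
  intro p' _
  have h : ∀ l' ∈ Ll N, (if (l, p) ≠ (l', p') ∧ (l, p).1 = (l', p').1 then
      (gg (kk (l, p)) (kk (l', p')) : ℝ) * (1 / (kk (l, p) : ℝ)) * (1 / (kk (l', p') : ℝ)) else 0) =
      if l = l' then ((1 / (l : ℝ)) ^ 2 * (if p ≠ p' then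
      (gg (l * p) (l * p') : ℝ) * (1 / (p : ℝ)) * (1 / (p' : ℝ)) else 0)) else 0 := by
    intro l' _
    by_cases hll : l = l'
    · subst hll
      rw [if_pos rfl]
      by_cases hpp : p = p'
      · subst hpp
        rw [if_neg (by simp), if_neg (by simp), mul_zero]
      · rw [if_pos ⟨by simpa using hpp, rfl⟩, if_pos hpp]
        unfold kk
        push_cast
        rw [← one_div_mul_one_div, ← one_div_mul_one_div]
        ring
    · rw [if_neg hll, if_neg (fun h => hll h.2)]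
  rw [Finset.sum_congr rfl h, Finset.sum_ite_eq, if_pos hl]

theorem T3 : ∃ C : ℝ, 0 < C ∧ ∃ N0 : ℕ, ∀ N : ℕ, N0 ≤ N → 1 ≤ N →
    ∑ x ∈ Ll N ×ˢ Pl N, ∑ y ∈ Ll N ×ˢ Pl N,
    (if x.1 ≠ y.1 then (1 / (kk x : ℝ)) * (1 / (kk y : ℝ)) *
      (if gg (kk x) (kk y) ∣ dd (kk x) (kk y) then
        (gg (kk x) (kk y) : ℝ) * Real.sqrt (gg (kk x) (kk y)) else 0) else 0) ≤ C * N ^ 2 := by
  obtain ⟨C, hC, N0, h⟩ := SI
  refine ⟨C, hC, N0, ?_⟩
  intro N hN0 hN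
  refine le_trans (le_of_eq ?_) (h N hN0 hN)
  rw [Finset.sum_product]
  apply Finset.sum_congr rfl
  intro l hl
  have h1 : ∀ p ∈ Pl N, ∑ y ∈ Ll N ×ˢ Pl N, (if (l, p).1 ≠ y.1 then
      (1 / (kk (l, p) : ℝ)) * (1 / (kk y : ℝ)) *
      (if gg (kk (l, p)) (kk y) ∣ dd (kk (l, p)) (kk y) then
        (gg (kk (l, p)) (kk y) : ℝ) * Real.sqrt (gg (kk (l, p)) (kk y)) else 0) else 0) =
      ∑ l' ∈ Ll N, (if l ≠ l' then (1 / (l : ℝ)) * (1 / (l' : ℝ)) * ∑ p' ∈ Pl N,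
      (if gg (l * p) (l' * p') ∣ dd (l * p) (l' * p') then
        (gg (l * p) (l' * p') : ℝ) * Real.sqrt (gg (l * p) (l' * p')) else 0) *
        (1 / (p : ℝ)) * (1 / (p' : ℝ)) else 0) := by
    intro p _
    rw [Finset.sum_product]
    apply Finset.sum_congr rfl
    intro l' _
    by_cases hll : l = l'
    · rw [if_neg (not_not.mpr hll)]
      apply Finset.sum_eq_zero
      intro p' _
      rw [if_neg (not_not.mpr hll)]
    · rw [if_pos hll, Finset.mul_sum]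
      apply Finset.sum_congr rfl
      intro p' _
      rw [if_pos hll]
      unfold kk
      push_cast
      rw [← one_div_mul_one_div, ← one_div_mul_one_div]
      ring
  rw [Finset.sum_congr rfl h1, Finset.sum_comm]
  apply Finset.sum_congr rfl
  intro l' _
  by_cases hll : l = l'
  · simp only [if_neg (not_not.mpr hll)]
    exact Finset.sum_const_zero
  · simp only [if_pos hll]
    rw [Finset.mul_sum]

theorem sum_kk_le {N : ℕ} (hN : 1 ≤ N) : ∑ x ∈ Ll N ×ˢ Pl N, 1 / (kk x : ℝ) ≤ 105 * N := by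
  have hNr : (1 : ℝ) ≤ N := by exact_mod_cast hN
  have h1 : ∑ x ∈ Ll N ×ˢ Pl N, 1 / (kk x : ℝ) =
      (∑ l ∈ Ll N, 1 / (l : ℝ)) * (∑ p ∈ Pl N, 1 / (p : ℝ)) := by
    rw [Finset.sum_product, Finset.sum_mul_sum]
    apply Finset.sum_congr rfl
    intro l _
    apply Finset.sum_congr rfl
    intro p _
    unfold kk
    push_cast
    rw [one_div_mul_one_div]
  rw [h1]
  calc (∑ l ∈ Ll N, 1 / (l : ℝ)) * (∑ p ∈ Pl N, 1 / (p : ℝ)) ≤ (15 * N) * 7 := by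
        apply mul_le_mul (sum_Ll_le hN) (sum_Pl_le hN) _ (by positivity)
        exact Finset.sum_nonneg (fun p _ => by positivity)
    _ = 105 * N := by ring

theorem T4 : ∃ C : ℝ, 0 < C ∧ ∃ N0 : ℕ, ∀ N : ℕ, N0 ≤ N → 1 ≤ N →
    ∑ x ∈ Ll N ×ˢ Pl N, ∑ y ∈ Ll N ×ˢ Pl N,
    ((1 / (kk x : ℝ)) * (1 / (kk y : ℝ)) * B (W (kk x)) ^ 18) ≤ C * N ^ 2 := by
  obtain ⟨C, hC, N0, h⟩ := SII
  refine ⟨105 * C, by positivity, N0, ?_⟩
  intro N hN0 hN
  have h1 := h N hN0 hN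
  have h2 : ∑ x ∈ Ll N ×ˢ Pl N, ∑ y ∈ Ll N ×ˢ Pl N,
      ((1 / (kk x : ℝ)) * (1 / (kk y : ℝ)) * B (W (kk x)) ^ 18) =
      (∑ l ∈ Ll N, ∑ p ∈ Pl N, (1 / (l : ℝ)) * (1 / (p : ℝ)) * B (W (l * p)) ^ 18) *
      (∑ y ∈ Ll N ×ˢ Pl N, 1 / (kk y : ℝ)) := by
    have e : ∑ l ∈ Ll N, ∑ p ∈ Pl N, (1 / (l : ℝ)) * (1 / (p : ℝ)) * B (W (l * p)) ^ 18 =
        ∑ x ∈ Ll N ×ˢ Pl N, (1 / (x.1 : ℝ)) * (1 / (x.2 : ℝ)) * B (W (x.1 * x.2)) ^ 18 := by
      rw [Finset.sum_product]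
    rw [e, Finset.sum_mul_sum]
    apply Finset.sum_congr rfl
    intro x _
    apply Finset.sum_congr rfl
    intro y _
    have h3 : (1 / (kk x : ℝ)) = (1 / (x.1 : ℝ)) * (1 / (x.2 : ℝ)) := by
      unfold kk; push_cast; rw [one_div_mul_one_div]
    rw [h3]
    unfold kk
    ring
  rw [h2]
  calc _ ≤ (C * N) * (105 * N) := by
        apply mul_le_mul h1 (sum_kk_le hN) _ (by positivity)
        exact Finset.sum_nonneg (fun p _ => by positivity)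
    _ = 105 * C * N ^ 2 := by ring

theorem T5 : ∃ C : ℝ, 0 < C ∧ ∃ N0 : ℕ, ∀ N : ℕ, N0 ≤ N → 1 ≤ N →
    ∑ x ∈ Ll N ×ˢ Pl N, ∑ y ∈ Ll N ×ˢ Pl N,
    ((1 / (kk x : ℝ)) * (1 / (kk y : ℝ)) * B (W (kk y)) ^ 18) ≤ C * N ^ 2 := by
  obtain ⟨C, hC, N0, h⟩ := T4
  refine ⟨C, hC, N0, ?_⟩
  intro N hN0 hN
  refine le_trans (le_of_eq ?_) (h N hN0 hN)
  rw [Finset.sum_comm]
  apply Finset.sum_congr rfl
  intro x _
  apply Finset.sum_congr rfl
  intro y _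
  ring

theorem card_P_le {N : ℕ} (hN : 1 ≤ N) : (Ll N ×ˢ Pl N).card ≤ 4 ^ (57 * N) := by
  rw [← Finset.card_image_of_injOn (lp_injOn hN)]
  calc _ ≤ (Icc 1 (4 ^ (57 * N))).card := by
        apply Finset.card_le_card
        intro k hk
        obtain ⟨x, hx, rfl⟩ := Finset.mem_image.mp hk
        rw [Finset.mem_product] at hx
        rw [Finset.mem_Icc]
        exact lp_bounds hN hx.1 hx.2
    _ = _ := by simp

theorem T7 {N : ℕ} (hN : 1 ≤ N) : ∑ _x ∈ Ll N ×ˢ Pl N, ∑ _y ∈ Ll N ×ˢ Pl N,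
    ((1 : ℝ) + 2 * 4 ^ (8 * N)) ≤ XX N := by
  rw [Finset.sum_const, Finset.sum_const, nsmul_eq_mul, nsmul_eq_mul]
  have h1 : ((Ll N ×ˢ Pl N).card : ℝ) ≤ 4 ^ (57 * N) := by exact_mod_cast card_P_le hN
  have h2 : (1 : ℝ) + 2 * 4 ^ (8 * N) ≤ 4 ^ (9 * N) := by
    have h3 : (4 : ℝ) ^ (9 * N) = 4 ^ (8 * N) * 4 ^ N := by rw [← pow_add]; congr 1; ring
    have h4 : (4 : ℝ) ≤ 4 ^ N := by
      calc (4 : ℝ) = 4 ^ 1 := by norm_num
        _ ≤ 4 ^ N := pow_le_pow_right₀ (by norm_num) hN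
    have h5 : (1 : ℝ) ≤ 4 ^ (8 * N) := one_le_pow₀ (by norm_num)
    rw [h3]
    nlinarith
  calc ((Ll N ×ˢ Pl N).card : ℝ) * (((Ll N ×ˢ Pl N).card : ℝ) * ((1 : ℝ) + 2 * 4 ^ (8 * N)))
      ≤ 4 ^ (57 * N) * (4 ^ (57 * N) * 4 ^ (9 * N)) := by gcongr
    _ = 4 ^ (123 * N) := by rw [← pow_add, ← pow_add]; congr 1; ring
    _ ≤ 4 ^ (130 * N) := pow_le_pow_right₀ (by norm_num) (by omega)
    _ = XX N := by unfold XX; push_cast; rfl

theorem cset_bound {N : ℕ} (hN : 1 ≤ N) {x y : ℕ × ℕ} (hx : x ∈ Ll N ×ˢ Pl N)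
    (hy : y ∈ Ll N ×ˢ Pl N) :
    ((cset N (kk x) (kk y)).card : ℝ) ≤
      (if x = y then ((Ql N (kk x)).card : ℝ) else 0) +
      2 * XX N * (if x ≠ y ∧ x.1 = y.1 then
        (gg (kk x) (kk y) : ℝ) * (1 / (kk x : ℝ)) * (1 / (kk y : ℝ)) else 0) +
      20 * XX N / N ^ 2 * (
        (if x.1 ≠ y.1 then (1 / (kk x : ℝ)) * (1 / (kk y : ℝ)) *
          (if gg (kk x) (kk y) ∣ dd (kk x) (kk y) then
            (gg (kk x) (kk y) : ℝ) * Real.sqrt (gg (kk x) (kk y)) else 0) else 0) +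
        (1 / (kk x : ℝ)) * (1 / (kk y : ℝ)) * B (W (kk x)) ^ 18 +
        (1 / (kk x : ℝ)) * (1 / (kk y : ℝ)) * B (W (kk y)) ^ 18 +
        (if x ≠ y then (1 / (kk x : ℝ)) * (1 / (kk y : ℝ)) * B (dd (kk x) (kk y)) ^ 18 else 0)) +
      (1 + 2 * 4 ^ (8 * N)) := by
  obtain ⟨x1, x2, x3, x4⟩ := kk_facts hN hx
  obtain ⟨y1, y2, y3, y4⟩ := kk_facts hN hy
  have hNr : (1 : ℝ) ≤ N := by exact_mod_cast hN
  have n1 : 0 ≤ (1 / (kk x : ℝ)) * (1 / (kk y : ℝ)) * B (W (kk x)) ^ 18 := by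
    have := one_le_B (W (kk x)); positivity
  have n2 : 0 ≤ (1 / (kk x : ℝ)) * (1 / (kk y : ℝ)) * B (W (kk y)) ^ 18 := by
    have := one_le_B (W (kk y)); positivity
  have n3 : 0 ≤ (1 / (kk x : ℝ)) * (1 / (kk y : ℝ)) * B (dd (kk x) (kk y)) ^ 18 := by
    have := one_le_B (dd (kk x) (kk y)); positivity
  have hc : (0 : ℝ) ≤ 20 * XX N / N ^ 2 := by positivity
  by_cases hxy : x = y
  · subst hxy
    rw [if_pos rfl, if_neg (by simp), if_neg (by simp), if_neg (by simp)]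
    have h1 : ((cset N (kk x) (kk x)).card : ℝ) ≤ (Ql N (kk x)).card := by
      exact_mod_cast cset_diag hN x1 x2 x3
    have h2 : 0 ≤ 20 * (XX N : ℝ) / N ^ 2 * (0 + (1 / (kk x : ℝ)) * (1 / (kk x : ℝ)) *
        B (W (kk x)) ^ 18 + (1 / (kk x : ℝ)) * (1 / (kk x : ℝ)) * B (W (kk x)) ^ 18 + 0) := by
      apply mul_nonneg hc
      linarith
    have h3 : (0 : ℝ) ≤ 1 + 2 * 4 ^ (8 * N) := by positivity
    linarith
  · by_cases hfst : x.1 = y.1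
    · rw [if_neg hxy, if_pos ⟨hxy, hfst⟩, if_neg (not_not.mpr hfst), if_pos hxy]
      have h1 := cset_trivial hN x1 x2 y1 y2 x3 y4
      have h2 : 0 ≤ 20 * (XX N : ℝ) / N ^ 2 * (0 + (1 / (kk x : ℝ)) * (1 / (kk y : ℝ)) *
          B (W (kk x)) ^ 18 + (1 / (kk x : ℝ)) * (1 / (kk y : ℝ)) * B (W (kk y)) ^ 18 +
          (1 / (kk x : ℝ)) * (1 / (kk y : ℝ)) * B (dd (kk x) (kk y)) ^ 18) := by
        apply mul_nonneg hc
        linarith
      have h3 : (0 : ℝ) ≤ 2 * 4 ^ (8 * N) := by positivity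
      linarith
    · rw [if_neg hxy, if_neg (fun h => hfst h.2), if_pos hfst, if_pos hxy]
      have hne : kk x ≠ kk y := by
        intro h
        exact hxy (lp_injOn hN (Finset.mem_coe.mpr hx) (Finset.mem_coe.mpr hy) h)
      have h1 := cset_sieve hN x1 x2 y1 y2 x3 y4 hne
      have h2 := young_full (kk x) (kk y)
      have h3 : (1 / (kk x : ℝ)) * (1 / (kk y : ℝ)) *
          ((if gg (kk x) (kk y) ∣ dd (kk x) (kk y) then (gg (kk x) (kk y) : ℝ) else 0) *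
          (B (W (kk x)) * B (W (kk y)) * B (dd (kk x) (kk y))) ^ 2) ≤
          (1 / (kk x : ℝ)) * (1 / (kk y : ℝ)) *
          (if gg (kk x) (kk y) ∣ dd (kk x) (kk y) then
            (gg (kk x) (kk y) : ℝ) * Real.sqrt (gg (kk x) (kk y)) else 0) +
          (1 / (kk x : ℝ)) * (1 / (kk y : ℝ)) * B (W (kk x)) ^ 18 +
          (1 / (kk x : ℝ)) * (1 / (kk y : ℝ)) * B (W (kk y)) ^ 18 +
          (1 / (kk x : ℝ)) * (1 / (kk y : ℝ)) * B (dd (kk x) (kk y)) ^ 18 := by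
        have h4 : (0 : ℝ) ≤ (1 / (kk x : ℝ)) * (1 / (kk y : ℝ)) := by positivity
        refine (mul_le_mul_of_nonneg_left h2 h4).trans (le_of_eq (by ring))
      have h5 := mul_le_mul_of_nonneg_left h3 hc
      linarith

theorem sum_split {α : Type*} (P : Finset α) (A1 A2 A3 A4 A5 A6 : α → α → ℝ) (c2 c3 A7 : ℝ) :
    ∑ x ∈ P, ∑ y ∈ P, (A1 x y + c2 * A2 x y + c3 * (A3 x y + A4 x y + A5 x y + A6 x y) + A7) =
    ∑ x ∈ P, ∑ y ∈ P, A1 x y + c2 * ∑ x ∈ P, ∑ y ∈ P, A2 x y +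
    c3 * (∑ x ∈ P, ∑ y ∈ P, A3 x y + ∑ x ∈ P, ∑ y ∈ P, A4 x y +
      ∑ x ∈ P, ∑ y ∈ P, A5 x y + ∑ x ∈ P, ∑ y ∈ P, A6 x y) + ∑ _x ∈ P, ∑ _y ∈ P, A7 := by
  simp only [Finset.sum_add_distrib, Finset.mul_sum, mul_add]

theorem collisions_le : ∃ C : ℝ, 0 < C ∧ ∃ N0 : ℕ, ∀ N : ℕ, N0 ≤ N →
    ∑ i ∈ II N, (((II N).filter (fun j => ff i = ff j)).card : ℝ) ≤
      (II N).card + C * XX N := by
  obtain ⟨C3, hC3, N3, h3⟩ := T3
  obtain ⟨C4, hC4, N4, h4⟩ := T4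
  obtain ⟨C5, hC5, N5, h5⟩ := T5
  obtain ⟨C6, hC6, h6⟩ := SIII
  refine ⟨2 + 20 * (C3 + C4 + C5 + C6) + 1, by positivity, N3 + N4 + N5 + 4, ?_⟩
  intro N hN
  have hN1 : 1 ≤ N := by omega
  have hNr : (1 : ℝ) ≤ N := by exact_mod_cast hN1
  rw [collisions_eq]
  have hstep : ∑ x ∈ Ll N ×ˢ Pl N, ∑ y ∈ Ll N ×ˢ Pl N,
      ((cset N (x.1 * x.2) (y.1 * y.2)).card : ℝ) ≤
      ∑ x ∈ Ll N ×ˢ Pl N, ∑ y ∈ Ll N ×ˢ Pl N, (
      (if x = y then ((Ql N (kk x)).card : ℝ) else 0) +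
      2 * XX N * (if x ≠ y ∧ x.1 = y.1 then
        (gg (kk x) (kk y) : ℝ) * (1 / (kk x : ℝ)) * (1 / (kk y : ℝ)) else 0) +
      20 * XX N / N ^ 2 * (
        (if x.1 ≠ y.1 then (1 / (kk x : ℝ)) * (1 / (kk y : ℝ)) *
          (if gg (kk x) (kk y) ∣ dd (kk x) (kk y) then
            (gg (kk x) (kk y) : ℝ) * Real.sqrt (gg (kk x) (kk y)) else 0) else 0) +
        (1 / (kk x : ℝ)) * (1 / (kk y : ℝ)) * B (W (kk x)) ^ 18 +
        (1 / (kk x : ℝ)) * (1 / (kk y : ℝ)) * B (W (kk y)) ^ 18 +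
        (if x ≠ y then (1 / (kk x : ℝ)) * (1 / (kk y : ℝ)) * B (dd (kk x) (kk y)) ^ 18 else 0)) +
      (1 + 2 * 4 ^ (8 * N))) :=
    Finset.sum_le_sum (fun x hx => Finset.sum_le_sum (fun y hy => cset_bound hN1 hx hy))
  refine hstep.trans ?_
  rw [sum_split]
  have t1 := T1 N
  have t2 := T2 (N := N) (by omega)
  have t3 := h3 N (by omega) hN1
  have t4 := h4 N (by omega) hN1
  have t5 := h5 N (by omega) hN1
  have t6 := h6 N hN1
  have t7 := T7 hN1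
  have hX : (0 : ℝ) ≤ XX N := Nat.cast_nonneg _
  rw [t1]
  have s2 := mul_le_mul_of_nonneg_left t2 (by positivity : (0 : ℝ) ≤ 2 * XX N)
  have s3 : 20 * (XX N : ℝ) / N ^ 2 * (
      ∑ x ∈ Ll N ×ˢ Pl N, ∑ y ∈ Ll N ×ˢ Pl N, (if x.1 ≠ y.1 then
          (1 / (kk x : ℝ)) * (1 / (kk y : ℝ)) *
          (if gg (kk x) (kk y) ∣ dd (kk x) (kk y) then
            (gg (kk x) (kk y) : ℝ) * Real.sqrt (gg (kk x) (kk y)) else 0) else 0) +
      ∑ x ∈ Ll N ×ˢ Pl N, ∑ y ∈ Ll N ×ˢ Pl N,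
        (1 / (kk x : ℝ)) * (1 / (kk y : ℝ)) * B (W (kk x)) ^ 18 +
      ∑ x ∈ Ll N ×ˢ Pl N, ∑ y ∈ Ll N ×ˢ Pl N,
        (1 / (kk x : ℝ)) * (1 / (kk y : ℝ)) * B (W (kk y)) ^ 18 +
      ∑ x ∈ Ll N ×ˢ Pl N, ∑ y ∈ Ll N ×ˢ Pl N,
        (if x ≠ y then (1 / (kk x : ℝ)) * (1 / (kk y : ℝ)) * B (dd (kk x) (kk y)) ^ 18 else 0)) ≤
      20 * (XX N : ℝ) / N ^ 2 * (C3 * N ^ 2 + C4 * N ^ 2 + C5 * N ^ 2 + C6 * N ^ 2) := by
    apply mul_le_mul_of_nonneg_left _ (by positivity)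
    unfold kk at t3 t4 t5 ⊢
    linarith
  have s4 : 20 * (XX N : ℝ) / N ^ 2 * (C3 * N ^ 2 + C4 * N ^ 2 + C5 * N ^ 2 + C6 * N ^ 2) =
      20 * (C3 + C4 + C5 + C6) * XX N := by
    field_simp
  rw [s4] at s3
  linarith

theorem II_card_ge {N : ℕ} (hN : 2 ≤ N) : (XX N : ℝ) / 30000000 ≤ ((II N).card : ℝ) := by
  have hN1 : 1 ≤ N := by omega
  have hNr : (1 : ℝ) ≤ N := by exact_mod_cast hN1
  rw [← T1 N]
  have h1 : ∀ x ∈ Ll N ×ˢ Pl N, (XX N : ℝ) / (722 * N) * (1 / (kk x : ℝ)) ≤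
      ∑ y ∈ Ll N ×ˢ Pl N, (if x = y then ((Ql N (kk x)).card : ℝ) else 0) := by
    intro x hx
    rw [Finset.sum_ite_eq, if_pos hx]
    obtain ⟨x1, x2, _, _⟩ := kk_facts hN1 hx
    exact Ql_card_ge hN1 x1 x2
  refine le_trans ?_ (Finset.sum_le_sum h1)
  rw [← Finset.mul_sum]
  have h2 : ∑ x ∈ Ll N ×ˢ Pl N, 1 / (kk x : ℝ) =
      ∑ l ∈ Ll N, ∑ p ∈ Pl N, (1 / (l : ℝ)) * (1 / (p : ℝ)) := by
    rw [Finset.sum_product]
    apply Finset.sum_congr rfl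
    intro l _
    apply Finset.sum_congr rfl
    intro p _
    unfold kk
    push_cast
    rw [one_div_mul_one_div]
  rw [h2]
  have h3 := sum_lp_ge hN
  calc (XX N : ℝ) / 30000000 ≤ (XX N : ℝ) / (722 * N) * ((N : ℝ) / 40000) := by
        have h4 : (XX N : ℝ) / (722 * N) * ((N : ℝ) / 40000) = (XX N : ℝ) / 28880000 := by
          field_simp
          ring
        rw [h4]
        apply div_le_div_of_nonneg_left (Nat.cast_nonneg _) (by norm_num) (by norm_num)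
    _ ≤ _ := mul_le_mul_of_nonneg_left h3 (by positivity)

theorem image_sub {N : ℕ} (hN : 1 ≤ N) : (II N).image ff ⊆ (Icc 1 (XX N)).image W := by
  intro v hv
  obtain ⟨⟨x, q⟩, hi, rfl⟩ := Finset.mem_image.mp hv
  unfold II at hi
  rw [Finset.mem_sigma] at hi
  obtain ⟨hx, hq⟩ := hi
  obtain ⟨x1, x2, _, _⟩ := kk_facts hN hx
  have h1 := (mem_Ql x1).mp hq
  rw [Finset.mem_image]
  refine ⟨x.1 * x.2 * q, ?_, rfl⟩
  rw [Finset.mem_Icc]
  exact ⟨Nat.mul_pos x1 h1.1.pos, h1.2.1⟩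

/-- positive proportion of distinct values along x = 4^(130 N) -/
theorem main_bound : ∃ c : ℝ, 0 < c ∧ ∃ N0 : ℕ, ∀ N : ℕ, N0 ≤ N →
    c * XX N ≤ (((Icc 1 (XX N)).image W).card : ℝ) := by
  classical
  obtain ⟨C, hC, N0, h⟩ := collisions_le
  refine ⟨1 / 30000000 / (1 + 30000000 * C), by positivity, N0 + 2, ?_⟩
  intro N hN
  have hN1 : 1 ≤ N := by omega
  have h1 := h N (by omega)
  have h2 := II_card_ge (N := N) (by omega)
  have h3 := cauchy_collisions (II N) ff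
  have h4 : (((II N).image ff).card : ℝ) ≤ (((Icc 1 (XX N)).image W).card : ℝ) := by
    exact_mod_cast Finset.card_le_card (image_sub hN1)
  set V : ℝ := (((Icc 1 (XX N)).image W).card : ℝ) with hV
  set i : ℝ := ((II N).card : ℝ) with hi
  set X : ℝ := (XX N : ℝ) with hX
  have hX0 : 0 < X := by
    rw [hX]; unfold XX; positivity
  have hi0 : 0 < i := lt_of_lt_of_le (by positivity) h2
  have hV0 : 0 ≤ V := Nat.cast_nonneg _
  have h5 : i ^ 2 ≤ V * (i + C * X) := by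
    refine h3.trans ?_
    apply mul_le_mul h4 h1 _ hV0
    exact Finset.sum_nonneg (fun _ _ => Nat.cast_nonneg _)
  have h6 : i + C * X ≤ (1 + 30000000 * C) * i := by
    have : X ≤ 30000000 * i := by
      rw [div_le_iff₀ (by norm_num)] at h2
      linarith
    nlinarith
  have h7 : i ^ 2 ≤ V * ((1 + 30000000 * C) * i) := h5.trans (mul_le_mul_of_nonneg_left h6 hV0)
  have h8 : i ≤ V * (1 + 30000000 * C) := by
    have h9 : i * i ≤ (V * (1 + 30000000 * C)) * i := by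
      calc i * i = i ^ 2 := by ring
        _ ≤ V * ((1 + 30000000 * C) * i) := h7
        _ = _ := by ring
    exact le_of_mul_le_mul_right h9 hi0
  rw [div_mul_eq_mul_div, div_le_iff₀ (by positivity)]
  calc 1 / 30000000 * X = X / 30000000 := by ring
    _ ≤ i := h2
    _ ≤ _ := h8

end Pool.Agent.Helper403
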